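import Pool.Agent.Lib.MP_b1b13a_lc.Disc.Flat

/-!
A function on the upper half plane with the formal properties of the modular lambda function is a
covering map onto the twice punctured plane; holomorphic maps lift through it.
-/

namespace MPb1b13a.Disc

open Complex Set Filter Topology Metric

/-- A locally injective map with continuous sections through all points over a connected open
set evenly covers it. -/
theorem isEvenlyCovered_of_sections {E X : Type*} [TopologicalSpace E] [TopologicalSpace X]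
    [T2Space E] {p : E → X} (hp : Continuous p) (hloc : IsLocallyInjective p) {V : Set X}
    (hV : IsOpen V) (hc : IsPreconnected V) {x₀ : X} (hx : x₀ ∈ V)
    (hsec : ∀ e, p e ∈ V → ∃ σ : X → E, ContinuousOn σ V ∧ (∀ x ∈ V, p (σ x) = x) ∧ σ (p e) = e) :
    IsEvenlyCovered p x₀ (p ⁻¹' {x₀}) := by
  have huniq : ∀ σ τ : X → E, ContinuousOn σ V → ContinuousOn τ V → (∀ x ∈ V, p (σ x) = x) →
      (∀ x ∈ V, p (τ x) = x) → ∀ a ∈ V, σ a = τ a → EqOn σ τ V := by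
    intro σ τ h1 h2 h3 h4 a ha h5
    exact (T2Space.isSeparatedMap p).eqOn_of_comp_eqOn hloc hc h1 h2
      (fun x hx => (h3 x hx).trans (h4 x hx).symm) ha h5
  cases isEmpty_or_nonempty (p ⁻¹' {x₀}) with
  | inl h =>
    refine .of_preimage_eq_empty _ (hV.mem_nhds hx) ?_
    rw [eq_empty_iff_forall_notMem]
    intro e he
    obtain ⟨σ, -, h2, -⟩ := hsec e he
    exact h.elim ⟨σ x₀, h2 x₀ hx⟩
  | inr h =>
    have hdisc : DiscreteTopology (p ⁻¹' {x₀}) := by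
      refine (isDiscrete_iff_forall_mem_exists_isOpen.mpr fun e he => ?_).1
      obtain ⟨U, hU, heU, hinj⟩ := hloc e
      exact ⟨U, hU, subset_antisymm (fun e' he' => hinj he'.1 heU (he'.2.trans he.symm))
        (singleton_subset_iff.mpr ⟨heU, he⟩)⟩
    have hE : Nonempty E := ⟨Classical.arbitrary (p ⁻¹' {x₀})⟩
    have hs : ∀ e : p ⁻¹' {x₀}, ∃ σ : X → E, ContinuousOn σ V ∧ (∀ x ∈ V, p (σ x) = x) ∧
        σ x₀ = e := by
      intro e
      have he : p e = x₀ := e.2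
      obtain ⟨σ, h1, h2, h3⟩ := hsec e (by rw [he]; exact hx)
      rw [he] at h3
      exact ⟨σ, h1, h2, h3⟩
    choose σ hσc hσp hσ0 using hs
    have hopen : ∀ i, IsOpen (σ i '' V) := by
      intro i
      rw [isOpen_iff_forall_mem_open]
      rintro _ ⟨x, hxV, rfl⟩
      obtain ⟨O, hO, hxO, hinj⟩ := hloc (σ i x)
      refine ⟨O ∩ p ⁻¹' (V ∩ σ i ⁻¹' O), ?_, ?_, hxO, ?_⟩
      · rintro e ⟨heO, heV, he2⟩
        exact ⟨p e, heV, hinj he2 heO (hσp i _ heV)⟩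
      · exact hO.inter (((hσc i).isOpen_inter_preimage hV hO).preimage hp)
      · simp only [mem_preimage, mem_inter_iff, hσp i x hxV]
        exact ⟨hxV, hxO⟩
    refine .of_trivialization (t := hV.trivializationDiscrete (fun i => σ i '' V) V
      (fun i W hW => ⟨fun h => (h.preimage hp).inter (hopen i), fun h => ?_⟩) (fun i => ?_)
      (fun i x hxV => ⟨σ i x, ⟨x, hxV, rfl⟩, hσp i x hxV⟩) ?_ ?_) hx
    · have h1 := (hσc i).isOpen_inter_preimage hV h
      have h2 : V ∩ σ i ⁻¹' (p ⁻¹' W ∩ σ i '' V) = W := by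
        ext x
        constructor
        · rintro ⟨hxV, h3, -⟩
          rwa [mem_preimage, hσp i x hxV] at h3
        · intro hxW
          refine ⟨hW hxW, ?_, ⟨x, hW hxW, rfl⟩⟩
          rw [mem_preimage, hσp i x (hW hxW)]
          exact hxW
      rwa [h2] at h1
    · rintro _ ⟨x, hxV, rfl⟩ _ ⟨y, hyV, rfl⟩ hxy
      rw [hσp i x hxV, hσp i y hyV] at hxy
      rw [hxy]
    · intro i j hij
      rw [Function.onFun, Set.disjoint_left]
      rintro _ ⟨x, hxV, rfl⟩ ⟨y, hyV, hy⟩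
      have hxy : y = x := by rw [← hσp j y hyV, hy, hσp i x hxV]
      subst hxy
      have := huniq _ _ (hσc i) (hσc j) (hσp i) (hσp j) y hxV hy.symm hx
      rw [hσ0, hσ0] at this
      exact hij (Subtype.ext this)
    · intro e he
      obtain ⟨τ, h1, h2, h3⟩ := hsec e he
      refine mem_iUnion.mpr ⟨⟨τ x₀, h2 x₀ hx⟩, p e, he, ?_⟩
      rw [huniq _ _ (hσc _) h1 (hσp _) h2 x₀ hx (hσ0 _) he, h3]

/-- A continuous lift through a local biholomorphism of a holomorphic map is holomorphic. -/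
theorem differentiableAt_of_comp_eq {p σ f : ℂ → ℂ} {t : ℂ} (hp : AnalyticAt ℂ p (σ t))
    (hp' : deriv p (σ t) ≠ 0) (hσ : ContinuousAt σ t) (hf : DifferentiableAt ℂ f t)
    (h : ∀ᶠ s in 𝓝 t, p (σ s) = f s) : DifferentiableAt ℂ σ t := by
  have hs := hp.hasStrictDerivAt
  have h1 := hσ.eventually (hs.eventually_left_inverse hp')
  have h2 : σ =ᶠ[𝓝 t] fun s => hs.localInverse p _ _ hp' (f s) := by
    filter_upwards [h, h1] with s h3 h4
    rw [← h3, h4]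
  have h3 := (hs.to_localInverse hp').hasDerivAt.differentiableAt
  rw [h.self_of_nhds] at h3
  exact (h3.comp t hf).congr_of_eventuallyEq h2

theorem analyticAt_H {f : ℂ → ℂ} (hf : DifferentiableOn ℂ f {t | 0 < t.im}) {t : ℂ}
    (ht : 0 < t.im) : AnalyticAt ℂ f t := hf.analyticAt (isOpen_H.mem_nhds ht)

theorem isSimplyConnected_of_convex {U : Set ℂ} (hU : Convex ℝ U) (hne : U.Nonempty) :
    IsSimplyConnected U := by
  have := hU.contractibleSpace hne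
  exact SimplyConnectedSpace.ofContractible U

/-- Holomorphic logarithm on a convex open set. -/
theorem exists_log {U : Set ℂ} (hU : Convex ℝ U) (hUo : IsOpen U) (hne : U.Nonempty)
    {g : ℂ → ℂ} (hg : DifferentiableOn ℂ g U) (h0 : ∀ z ∈ U, g z ≠ 0) :
    ∃ f : ℂ → ℂ, DifferentiableOn ℂ f U ∧ ∀ z ∈ U, exp (f z) = g z := by
  obtain ⟨f, hfc, hf⟩ := Complex.exists_continuousOn_eqOn_exp_comp
    (isSimplyConnected_of_convex hU hne) hUo hg.continuousOn
    (by rintro ⟨z, hz, h⟩; exact h0 z hz h)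
  refine ⟨f, fun z hz => ?_, fun z hz => hf hz⟩
  refine (differentiableAt_of_comp_eq (p := exp) (f := g) analyticAt_cexp ?_
    (hfc.continuousAt (hUo.mem_nhds hz)) (hg.differentiableAt (hUo.mem_nhds hz))
    ?_).differentiableWithinAt
  · rw [Complex.deriv_exp]; exact exp_ne_zero _
  · filter_upwards [hUo.mem_nhds hz] with s hs using hf hs

/-- The formal properties of the modular lambda function. -/
structure IsLam (lam : ℂ → ℂ) : Prop where
  diff : DifferentiableOn ℂ lam {t | 0 < t.im}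
  ne_zero : ∀ t : ℂ, 0 < t.im → lam t ≠ 0
  ne_one : ∀ t : ℂ, 0 < t.im → lam t ≠ 1
  deriv_ne : ∀ t : ℂ, 0 < t.im → deriv lam t ≠ 0
  shift : ∀ t : ℂ, 0 < t.im → lam (t + 1) = lam t / (lam t - 1)
  inv : ∀ t : ℂ, 0 < t.im → lam (-1 / t) = 1 - lam t
  cusp : ∀ e : ℝ, 0 < e → ∃ Y : ℝ, ∀ t : ℂ, Y ≤ t.im → ‖lam t‖ ≤ e
  fib : ∀ s t : ℂ, 0 < s.im → 0 < t.im → lam s = lam t →
    ∃ a b c d : ℤ, a * d - b * c = 1 ∧ Even b ∧ Even c ∧ s = (a * t + b) / (c * t + d)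

/-- The six anharmonic maps. -/
noncomputable def anh (k : Fin 6) (x : ℂ) : ℂ :=
  ![x, 1 - x, 1 / x, 1 / (1 - x), x / (x - 1), (x - 1) / x] k

theorem anh_ne (k : Fin 6) {x : ℂ} (h0 : x ≠ 0) (h1 : x ≠ 1) : anh k x ≠ 0 ∧ anh k x ≠ 1 := by
  have h2 : x - 1 ≠ 0 := sub_ne_zero.mpr h1
  have h3 : 1 - x ≠ 0 := sub_ne_zero.mpr h1.symm
  have h4 : x ≠ x - 1 := fun h => one_ne_zero (by linear_combination h : (1 : ℂ) = 0)
  fin_cases k <;> simp [anh, h0, h1, h2, h3, h4, div_eq_one_iff_eq]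

theorem one_sub_anh (k : Fin 6) : ∃ k', ∀ x : ℂ, x ≠ 0 → x ≠ 1 → 1 - anh k x = anh k' x := by
  refine ⟨![1, 0, 5, 4, 3, 2] k, fun x h0 h1 => ?_⟩
  have h2 : x - 1 ≠ 0 := sub_ne_zero.mpr h1
  have h3 : 1 - x ≠ 0 := sub_ne_zero.mpr h1.symm
  fin_cases k <;> simp [anh] <;> field_simp <;> ring

theorem anh_div (k : Fin 6) :
    ∃ k', ∀ x : ℂ, x ≠ 0 → x ≠ 1 → anh k x / (anh k x - 1) = anh k' x := by
  refine ⟨![4, 5, 3, 2, 0, 1] k, fun x h0 h1 => ?_⟩
  have h2 : x - 1 ≠ 0 := sub_ne_zero.mpr h1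
  have h3 : 1 - x ≠ 0 := sub_ne_zero.mpr h1.symm
  have h4 := sub_ne_zero.mpr (anh_ne k h0 h1).2
  rw [div_eq_iff h4]
  fin_cases k <;> simp [anh] <;> field_simp <;> ring

theorem anh_inv (k : Fin 6) :
    ∃ k', ∀ x : ℂ, x ≠ 0 → x ≠ 1 → anh k (anh k' x) = x ∧ anh k' (anh k x) = x := by
  refine ⟨![0, 1, 2, 5, 4, 3] k, fun x h0 h1 => ?_⟩
  have h2 : x - 1 ≠ 0 := sub_ne_zero.mpr h1
  have h3 : 1 - x ≠ 0 := sub_ne_zero.mpr h1.symm
  have h4 : 1 - (x - 1) / x = 1 / x := by field_simp; ring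
  have h5 : x / (x - 1) - 1 = 1 / (x - 1) := by field_simp; ring
  have h6 : (1 - x)⁻¹ - 1 = x / (1 - x) := by field_simp; ring
  fin_cases k <;> simp [anh, h4, h5, h6, h2, h3]

theorem anh_continuousAt (k : Fin 6) {x : ℂ} (h0 : x ≠ 0) (h1 : x ≠ 1) :
    ContinuousAt (anh k) x := by
  have h2 : x - 1 ≠ 0 := sub_ne_zero.mpr h1
  have h3 : 1 - x ≠ 0 := sub_ne_zero.mpr h1.symm
  fin_cases k
  · exact continuousAt_id
  · exact continuousAt_const.sub continuousAt_id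
  · exact continuousAt_const.div continuousAt_id h0
  · exact continuousAt_const.div (continuousAt_const.sub continuousAt_id) h3
  · exact continuousAt_id.div (continuousAt_id.sub continuousAt_const) h2
  · exact (continuousAt_id.sub continuousAt_const).div continuousAt_id h0

namespace IsLam

variable {lam : ℂ → ℂ} (h : IsLam lam)
include h

theorem shift_neg {t : ℂ} (ht : 0 < t.im) : lam (t - 1) = lam t / (lam t - 1) := by
  have h1 : 0 < (t - 1).im := by simpa using ht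
  have h2 := h.shift _ h1
  rw [sub_add_cancel] at h2
  have h3 := sub_ne_zero.mpr (h.ne_one _ h1)
  have h4 := sub_ne_zero.mpr (h.ne_one _ ht)
  rw [eq_div_iff h3] at h2
  rw [eq_div_iff h4]
  linear_combination h2

open UpperHalfPlane MatrixGroups ModularGroup in
theorem smul_eq (g : SL(2, ℤ)) : ∃ k, ∀ s : ℍ, lam (g • s : ℍ) = anh k (lam s) := by
  have hg : g ∈ Subgroup.closure {S, T} := by simp [SpecialLinearGroup.SL2Z_generators]
  have hS : ∀ z : ℍ, lam (S • z : ℍ) = 1 - lam z := by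
    intro z
    rw [← h.inv z z.im_pos, modular_S_smul]
    congr 1
    simp [neg_div, inv_neg]
  have hT : ∀ z : ℍ, lam (T • z : ℍ) = lam z / (lam z - 1) := by
    intro z
    rw [← h.shift z z.im_pos, modular_T_smul]
    congr 1
    simp [add_comm]
  induction hg using Subgroup.closure_induction_left with
  | one => exact ⟨0, fun s => by simp [anh]⟩
  | mul_left x hx y _ ih =>
    obtain ⟨k, hk⟩ := ih
    rcases hx with rfl | rfl
    · obtain ⟨k', hk'⟩ := one_sub_anh k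
      exact ⟨k', fun s => by
        rw [mul_smul, hS, hk, hk' _ (h.ne_zero _ s.im_pos) (h.ne_one _ s.im_pos)]⟩
    · obtain ⟨k', hk'⟩ := anh_div k
      exact ⟨k', fun s => by
        rw [mul_smul, hT, hk, hk' _ (h.ne_zero _ s.im_pos) (h.ne_one _ s.im_pos)]⟩
  | inv_mul_cancel x hx y _ ih =>
    obtain ⟨k, hk⟩ := ih
    rcases hx with rfl | rfl
    · obtain ⟨k', hk'⟩ := one_sub_anh k
      refine ⟨k', fun s => ?_⟩
      have h1 := hS (S⁻¹ • y • s)
      rw [smul_inv_smul] at h1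
      rw [mul_smul, ← hk' _ (h.ne_zero _ s.im_pos) (h.ne_one _ s.im_pos), ← hk, h1]
      ring
    · obtain ⟨k', hk'⟩ := anh_div k
      refine ⟨k', fun s => ?_⟩
      have h1 := hT (T⁻¹ • y • s)
      rw [smul_inv_smul] at h1
      have h3 := sub_ne_zero.mpr (h.ne_one _ (T⁻¹ • y • s).im_pos)
      have h4 := sub_ne_zero.mpr (h.ne_one _ (y • s).im_pos)
      rw [mul_smul, ← hk' _ (h.ne_zero _ s.im_pos) (h.ne_one _ s.im_pos), ← hk, eq_div_iff h4]
      rw [eq_div_iff h3] at h1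
      linear_combination h1

open UpperHalfPlane MatrixGroups in
theorem moebius_eq {a b c d : ℤ} (hd : a * d - b * c = 1) :
    ∃ k, ∀ s : ℂ, 0 < s.im → lam ((a * s + b) / (c * s + d)) = anh k (lam s) := by
  let g : SL(2, ℤ) := ⟨!![a, b; c, d], by rw [Matrix.det_fin_two_of]; exact hd⟩
  obtain ⟨k, hk⟩ := h.smul_eq g
  refine ⟨k, fun s hs => ?_⟩
  have h1 := hk ⟨s, hs⟩
  rw [UpperHalfPlane.coe_specialLinearGroup_apply g ⟨s, hs⟩] at h1
  simpa [g] using h1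

end IsLam

theorem exists_moebius_fd {t : ℂ} (ht : 0 < t.im) :
    ∃ (a b c d : ℤ) (s : ℂ), a * d - b * c = 1 ∧ 1 / 2 ≤ s.im ∧ |s.re| ≤ 1 / 2 ∧
      t = ((a : ℂ) * s + b) / (c * s + d) := by
  obtain ⟨g, hg⟩ := ModularGroup.exists_smul_mem_fd (⟨t, ht⟩ : UpperHalfPlane)
  refine ⟨g⁻¹ 0 0, g⁻¹ 0 1, g⁻¹ 1 0, g⁻¹ 1 1, (g • (⟨t, ht⟩ : UpperHalfPlane) : UpperHalfPlane),
    ?_, ?_, hg.2, ?_⟩
  · have := (g⁻¹).det_coe
    rw [Matrix.det_fin_two] at this
    exact this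
  · have h1 := ModularGroup.three_le_four_mul_im_sq_of_mem_fd hg
    have h2 := (g • (⟨t, ht⟩ : UpperHalfPlane)).im_pos
    change 1 / 2 ≤ (g • (⟨t, ht⟩ : UpperHalfPlane)).im
    nlinarith
  · have h1 := UpperHalfPlane.coe_specialLinearGroup_apply g⁻¹ (g • (⟨t, ht⟩ : UpperHalfPlane))
    rw [inv_smul_smul] at h1
    simpa using h1

/-- The truncated strip. -/
def box (Y : ℝ) : Set ℂ := {s | |s.re| ≤ 1 / 2 ∧ 1 / 2 ≤ s.im ∧ s.im ≤ Y}

theorem isCompact_box (Y : ℝ) : IsCompact (box Y) := by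
  refine Metric.isCompact_of_isClosed_isBounded ?_ ?_
  · exact (isClosed_le continuous_re.abs continuous_const).inter
      ((isClosed_le continuous_const continuous_im).inter
        (isClosed_le continuous_im continuous_const))
  · refine (isBounded_closedBall (x := (0 : ℂ)) (r := 1 / 2 + |Y|)).subset fun s hs => ?_
    rw [mem_closedBall_zero_iff]
    refine (norm_le_abs_re_add_abs_im s).trans (add_le_add hs.1 ?_)
    rw [abs_of_pos (by linarith [hs.2.1])]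
    exact hs.2.2.trans (le_abs_self Y)

theorem box_im_pos {Y : ℝ} {s : ℂ} (hs : s ∈ box Y) : 0 < s.im := by linarith [hs.2.1]

namespace IsLam

variable {lam : ℂ → ℂ} (h : IsLam lam)
include h

theorem exists_chart {s : ℂ} (hs : 0 < s.im) :
    ∃ Φ : OpenPartialHomeomorph ℂ ℂ, s ∈ Φ.source ∧ Φ.source ⊆ {t | 0 < t.im} ∧ ⇑Φ = lam := by
  have h1 := (analyticAt_H h.diff hs).hasStrictDerivAt.hasStrictFDerivAt_equiv (h.deriv_ne s hs)
  refine ⟨(h1.toOpenPartialHomeomorph lam).restrOpen _ isOpen_H,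
    ⟨h1.mem_toOpenPartialHomeomorph_source, hs⟩, fun t ht => ht.2, rfl⟩

theorem uniform_sections (Y : ℝ) : ∃ δ : ℝ, 0 < δ ∧ ∀ s ∈ box Y, ∃ σ : ℂ → ℂ,
    ContinuousOn σ (ball (lam s) δ) ∧ (∀ x ∈ ball (lam s) δ, 0 < (σ x).im ∧ lam (σ x) = x) ∧
      σ (lam s) = s := by
  have key := (isCompact_box Y).eventually_forall_of_forall_eventually (x₀ := (0 : ℝ))
    (P := fun δ s => ∃ σ : ℂ → ℂ, ContinuousOn σ (ball (lam s) δ) ∧
      (∀ x ∈ ball (lam s) δ, 0 < (σ x).im ∧ lam (σ x) = x) ∧ σ (lam s) = s) (by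
    intro s₀ hs₀
    obtain ⟨Φ, h1, h2, h3⟩ := h.exists_chart (box_im_pos hs₀)
    have h4 : lam s₀ ∈ Φ.target := by rw [← h3]; exact Φ.map_source h1
    obtain ⟨r, hr, hsub⟩ := Metric.isOpen_iff.mp Φ.open_target _ h4
    have h5 : ∀ᶠ s in 𝓝 s₀, lam s ∈ ball (lam s₀) (r / 2) :=
      (diffAt_H h.diff (box_im_pos hs₀)).continuousAt.eventually
        (ball_mem_nhds _ (half_pos hr))
    have h6 : ∀ᶠ s in 𝓝 s₀, s ∈ Φ.source := Φ.open_source.mem_nhds h1
    have h7 : ∀ᶠ δ in 𝓝 (0 : ℝ), δ < r / 2 := eventually_lt_nhds (half_pos hr)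
    filter_upwards [h7.prod_nhds (h5.and h6)] with z hz
    obtain ⟨hz1, hz2, hz3⟩ := hz
    have hb : ball (lam z.2) z.1 ⊆ Φ.target := by
      refine Subset.trans (fun x hx => ?_) hsub
      rw [mem_ball] at hx hz2 ⊢
      linarith [dist_triangle x (lam z.2) (lam s₀)]
    refine ⟨Φ.symm, Φ.continuousOn_symm.mono hb, fun x hx => ⟨h2 (Φ.map_target (hb hx)), ?_⟩, ?_⟩
    · rw [← h3]; exact Φ.right_inv (hb hx)
    · rw [← h3]; exact Φ.left_inv hz3)
  obtain ⟨δ, hδ, h1⟩ := ((key.filter_mono (nhdsWithin_le_nhds (s := Ioi 0))).and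
    self_mem_nhdsWithin).exists
  exact ⟨δ, h1, hδ⟩

theorem local_sections {x₀ : ℂ} (h0 : x₀ ≠ 0) (h1 : x₀ ≠ 1) : ∃ r : ℝ, 0 < r ∧
    (∀ x ∈ ball x₀ r, x ≠ 0 ∧ x ≠ 1) ∧ ∀ t : ℂ, 0 < t.im → lam t ∈ ball x₀ r → ∃ σ : ℂ → ℂ,
      ContinuousOn σ (ball x₀ r) ∧ (∀ x ∈ ball x₀ r, 0 < (σ x).im ∧ lam (σ x) = x) ∧
        σ (lam t) = t := by
  obtain ⟨e, he, hle⟩ : ∃ e : ℝ, 0 < e ∧ ∀ k, 2 * e ≤ ‖anh k x₀‖ := by
    obtain ⟨k₀, hk₀⟩ := Finite.exists_min fun k : Fin 6 => ‖anh k x₀‖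
    exact ⟨‖anh k₀ x₀‖ / 2, half_pos (norm_pos_iff.mpr (anh_ne k₀ h0 h1).1),
      fun k => by linarith [hk₀ k]⟩
  obtain ⟨Y, hY⟩ := h.cusp e he
  obtain ⟨δ, hδ, hsec⟩ := h.uniform_sections Y
  have hev : ∀ᶠ x in 𝓝 x₀, (x ≠ 0 ∧ x ≠ 1) ∧
      ∀ k, dist (anh k x) (anh k x₀) < min e (δ / 2) := by
    refine ((eventually_ne_nhds h0).and (eventually_ne_nhds h1)).and ?_
    rw [eventually_all]
    intro k
    exact (anh_continuousAt k h0 h1).eventually (ball_mem_nhds _ (lt_min he (half_pos hδ)))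
  obtain ⟨r, hr, hb⟩ := Metric.eventually_nhds_iff_ball.mp hev
  refine ⟨r, hr, fun x hx => (hb x hx).1, fun t ht htb => ?_⟩
  obtain ⟨a, b, c, d, s, hdet, hs1, hs2, rfl⟩ := exists_moebius_fd ht
  have hs : 0 < s.im := by linarith
  obtain ⟨k, hk⟩ := h.moebius_eq hdet
  obtain ⟨k', hk'⟩ := anh_inv k
  have hls : anh k' (lam ((a * s + b) / (c * s + d))) = lam s := by
    rw [hk s hs]; exact (hk' _ (h.ne_zero s hs) (h.ne_one s hs)).2
  have hd1 := (hb _ htb).2 k'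
  rw [hls] at hd1
  have hsY : s.im ≤ Y := by
    by_contra hc
    have h2 := hY s (not_le.mp hc).le
    have h3 := hle k'
    have h4 := norm_sub_norm_le (anh k' x₀) (lam s)
    rw [← dist_eq_norm, dist_comm] at h4
    linarith [min_le_left e (δ / 2)]
  obtain ⟨σ, hσ1, hσ2, hσ3⟩ := hsec s ⟨hs2, hs1, hsY⟩
  have hm : ∀ x ∈ ball x₀ r, anh k' x ∈ ball (lam s) δ := by
    intro x hx
    have h2 := (hb x hx).2 k'
    rw [mem_ball]
    linarith [dist_triangle_right (anh k' x) (lam s) (anh k' x₀), min_le_right e (δ / 2)]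
  refine ⟨fun x => (a * σ (anh k' x) + b) / (c * σ (anh k' x) + d), ?_, fun x hx => ⟨?_, ?_⟩, ?_⟩
  · have h2 : ContinuousOn (fun x => σ (anh k' x)) (ball x₀ r) :=
      hσ1.comp (fun x hx => (anh_continuousAt k' (hb x hx).1.1 (hb x hx).1.2).continuousWithinAt) hm
    exact ((continuousOn_const.mul h2).add continuousOn_const).div
      ((continuousOn_const.mul h2).add continuousOn_const)
      fun x hx => denom_ne_zero hdet (hσ2 _ (hm x hx)).1
  · exact moebius_im_pos hdet (hσ2 _ (hm x hx)).1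
  · rw [hk _ (hσ2 _ (hm x hx)).1, (hσ2 _ (hm x hx)).2]
    exact (hk' x (hb x hx).1.1 (hb x hx).1.2).1
  · simp only [hls, hσ3]

theorem isCoveringMapOn :
    IsCoveringMapOn (fun t : {t : ℂ | 0 < t.im} => lam t) {x | x ≠ 0 ∧ x ≠ 1} := by
  intro x₀ hx₀
  obtain ⟨r, hr, -, hsec⟩ := h.local_sections hx₀.1 hx₀.2
  refine isEvenlyCovered_of_sections
    (continuousOn_iff_continuous_domRestrict.mp h.diff.continuousOn) ?_ isOpen_ball
    (convex_ball x₀ r).isPreconnected (mem_ball_self hr) ?_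
  · intro t
    obtain ⟨Φ, h1, -, h3⟩ := h.exists_chart t.2
    refine ⟨Subtype.val ⁻¹' Φ.source, Φ.open_source.preimage continuous_subtype_val, h1, ?_⟩
    intro a ha b hb hab
    exact Subtype.ext (Φ.injOn ha hb (by rw [h3]; exact hab))
  · intro t ht
    obtain ⟨σ, h1, h2, h3⟩ := hsec t t.2 ht
    classical
    refine ⟨fun x => if hx : 0 < (σ x).im then ⟨σ x, hx⟩ else t, ?_, fun x hx => ?_, ?_⟩
    · rw [IsInducing.subtypeVal.continuousOn_iff]
      refine h1.congr fun x hx => ?_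
      simp [(h2 x hx).1]
    · simp [(h2 x hx).1, (h2 x hx).2]
    · have := (h2 _ ht).1
      apply Subtype.ext
      simp only [this, dif_pos]
      exact h3

theorem surj {x : ℂ} (h0 : x ≠ 0) (h1 : x ≠ 1) : ∃ t : ℂ, 0 < t.im ∧ lam t = x := by
  have hc : IsPreconnected ({0, 1}ᶜ : Set ℂ) :=
    (((Set.toFinite ({0, 1} : Set ℂ)).countable).isConnected_compl_of_one_lt_rank
      (by simp)).isPreconnected
  have hI : 0 < (I : ℂ).im := by simp
  refine hc.induction₂' (fun x y => (∃ t : ℂ, 0 < t.im ∧ lam t = x) →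
    ∃ t : ℂ, 0 < t.im ∧ lam t = y) ?_ ?_ (x := lam I) (y := x) ?_ ?_ ⟨I, hI, rfl⟩
  · intro x₀ hx₀
    simp only [mem_compl_iff, mem_insert_iff, mem_singleton_iff, not_or] at hx₀
    obtain ⟨r, hr, -, hsec⟩ := h.local_sections hx₀.1 hx₀.2
    filter_upwards [nhdsWithin_le_nhds (ball_mem_nhds x₀ hr)] with y hy
    constructor
    · rintro ⟨t, ht, rfl⟩
      obtain ⟨σ, -, h2, -⟩ := hsec t ht (mem_ball_self hr)
      exact ⟨σ y, h2 y hy⟩
    · rintro ⟨t, ht, rfl⟩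
      obtain ⟨σ, -, h2, -⟩ := hsec t ht hy
      exact ⟨σ x₀, h2 x₀ (mem_ball_self hr)⟩
  · intro x y z _ _ _ hxy hyz hx
    exact hyz (hxy hx)
  · simp [h.ne_zero I hI, h.ne_one I hI]
  · simp [h0, h1]

/-- Holomorphic maps from a convex domain to the twice punctured plane lift. -/
theorem lift {U : Set ℂ} (hU : Convex ℝ U) (hUo : IsOpen U) {f : ℂ → ℂ}
    (hf : DifferentiableOn ℂ f U) (h0 : ∀ z ∈ U, f z ≠ 0) (h1 : ∀ z ∈ U, f z ≠ 1)
    {z₀ s₀ : ℂ} (hz₀ : z₀ ∈ U) (hs₀ : 0 < s₀.im) (he : lam s₀ = f z₀) :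
    ∃ σ : ℂ → ℂ, DifferentiableOn ℂ σ U ∧ (∀ z ∈ U, 0 < (σ z).im ∧ lam (σ z) = f z) ∧
      σ z₀ = s₀ := by
  classical
  have := (isSimplyConnected_of_convex hU ⟨z₀, hz₀⟩).simplyConnectedSpace
  have := hUo.locallyPathConnectedSpace
  obtain ⟨F, ⟨hF0, hF⟩, -⟩ := h.isCoveringMapOn.existsUnique_continuousMap_lifts
    ⟨U.domRestrict f, continuousOn_iff_continuous_domRestrict.mp hf.continuousOn⟩
    (a₀ := ⟨z₀, hz₀⟩) (e₀ := ⟨s₀, hs₀⟩) he (fun z => ⟨h0 z z.2, h1 z z.2⟩)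
  obtain ⟨σ, hσ⟩ : ∃ σ : ℂ → ℂ, ∀ z : U, σ z = F z :=
    ⟨fun z => if hz : z ∈ U then F ⟨z, hz⟩ else 0, by simp⟩
  have hc : ContinuousOn σ U := by
    rw [continuousOn_iff_continuous_domRestrict]
    have : U.domRestrict σ = fun z => (F z : ℂ) := funext hσ
    rw [this]
    exact continuous_subtype_val.comp F.continuous
  have hp : ∀ z ∈ U, 0 < (σ z).im ∧ lam (σ z) = f z := by
    intro z hz
    rw [hσ ⟨z, hz⟩]
    exact ⟨(F ⟨z, hz⟩).2, congrFun hF ⟨z, hz⟩⟩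
  refine ⟨σ, fun z hz => ?_, hp, ?_⟩
  · refine (differentiableAt_of_comp_eq (p := lam) (f := f) (analyticAt_H h.diff (hp z hz).1)
      (h.deriv_ne _ (hp z hz).1) (hc.continuousAt (hUo.mem_nhds hz))
      (hf.differentiableAt (hUo.mem_nhds hz)) ?_).differentiableWithinAt
    filter_upwards [hUo.mem_nhds hz] with s hs using (hp s hs).2
  · rw [hσ ⟨z₀, hz₀⟩, hF0]

end IsLam

end MPb1b13a.Disc
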