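import Pool.Agent.Lib.MP_940f24_an.Holo

/-!
The Weierstrass function as a function of the point and of the period.
-/

set_option autoImplicit false

noncomputable section

namespace MPb1b13a.Disc

open Set Filter Topology Metric Pool.Agent.Lib.MP_940f24_an

theorem analyticAt_tsum {E ι : Type} [NormedAddCommGroup E] [NormedSpace ℂ E]
    [FiniteDimensional ℂ E] {f : ι → E → ℂ} {x : E} {u : ι → ℝ} (hu : Summable u)
    (h1 : ∀ k, AnalyticAt ℂ (f k) x) {V : Set E} (hV : V ∈ 𝓝 x)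
    (h2 : ∀ᶠ k in cofinite, ∀ y ∈ V, DifferentiableAt ℂ (f k) y ∧ ‖f k y‖ ≤ u k) :
    AnalyticAt ℂ (fun y => ∑' k, f k y) x := by
  classical
  have h3 : ∀ᶠ y in 𝓝 x, ∀ k ∈ h2.toFinset, DifferentiableAt ℂ (f k) y ∧ ‖f k y‖ ≤ ‖f k x‖ + 1 :=
    (eventually_all_finset _).2 fun k _ =>
      ((h1 k).eventually_analyticAt.mono fun y hy => hy.differentiableAt).and
        (((h1 k).continuousAt.norm.eventually (gt_mem_nhds (lt_add_one _))).mono fun y hy => hy.le)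
  obtain ⟨r, hr, h4⟩ := Metric.mem_nhds_iff.1 (inter_mem hV h3)
  let v : ι → ℝ := fun k => if k ∈ h2.toFinset then ‖f k x‖ + 1 else u k
  have hv : Summable v := hu.congr_cofinite (h2.mono fun k hk => (if_neg (by simpa using hk)).symm)
  have h5 : ∀ k, ∀ y ∈ ball x r, DifferentiableAt ℂ (f k) y ∧ ‖f k y‖ ≤ v k := fun k y hy => by
    by_cases hk : k ∈ h2.toFinset
    · simpa only [v, if_pos hk] using (h4 hy).2 k hk
    · have h6 : ∀ y ∈ V, DifferentiableAt ℂ (f k) y ∧ ‖f k y‖ ≤ u k := by simpa using hk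
      simpa only [v, if_neg hk] using h6 y (h4 hy).1
  have hr2 : 0 < r / 2 := half_pos hr
  have h6 : ∀ y ∈ ball x (r / 2), ball y (r / 2) ⊆ ball x r := fun y hy =>
    ball_subset_ball' (by linarith [mem_ball.1 hy])
  refine analyticOnNhd_of_differentiableOn (O := ball x (r / 2)) isOpen_ball (fun y hy => ?_) x
    (mem_ball_self hr2)
  exact (hasFDerivAt_tsum_of_isPreconnected (f' := fun k y => fderiv ℂ (f k) y)
    ((hv.mul_left 2).div_const (r / 2)) isOpen_ball (convex_ball _ _).isPreconnected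
    (fun k z hz => (h5 k z (h6 z hz (mem_ball_self hr2))).1.hasFDerivAt)
    (fun k z hz => norm_fderiv_le_of_ball hr2
      (fun s hs => (h5 k s (h6 z hz hs)).1.differentiableWithinAt) fun s hs => (h5 k s (h6 z hz hs)).2)
    (mem_ball_self hr2) (hv.of_norm_bounded fun k => (h5 k x (mem_ball_self hr)).2)
    hy).differentiableAt.differentiableWithinAt

/-- The family of the lattices spanned by `1` and `t`. -/
def IsFam (L : ℂ → PeriodPair) : Prop := ∀ t : ℂ, 0 < t.im → (L t).ω₁ = 1 ∧ (L t).ω₂ = t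

variable {L : ℂ → PeriodPair} {t w : ℂ}

theorem IsFam.mem (h : IsFam L) (ht : 0 < t.im) :
    w ∈ (L t).lattice ↔ ∃ m n : ℤ, m + n * t = w := by
  rw [PeriodPair.mem_lattice, (h t ht).1, (h t ht).2]
  simp only [mul_one]

theorem IsFam.tsum_eq (h : IsFam L) (ht : 0 < t.im) (g : ℂ → ℂ) :
    ∑' l : (L t).lattice, g l = ∑' k : ℤ × ℤ, g (k.1 + k.2 * t) := by
  rw [← (L t).latticeEquivProd.symm.toEquiv.tsum_eq]
  refine tsum_congr fun k => congrArg g ?_
  have h1 := (L t).latticeEquiv_symm_apply k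
  rw [(h t ht).1, (h t ht).2, mul_one] at h1
  exact h1

theorem IsFam.summable (h : IsFam L) (ht : 0 < t.im) :
    Summable fun k : ℤ × ℤ => ‖(k.1 + k.2 * t : ℂ)‖ ^ (-3 : ℝ) := by
  have h1 := ((L t).latticeEquivProd.symm.toEquiv.summable_iff).2
    (ZLattice.summable_norm_rpow (L t).lattice (-3) (by simp; norm_num))
  refine h1.congr fun k => ?_
  have h2 := (L t).latticeEquiv_symm_apply k
  rw [(h t ht).1, (h t ht).2, mul_one] at h2
  exact congrArg (fun z : ℂ => ‖z‖ ^ (-3 : ℝ)) h2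

theorem lp_ne (ht : 0 < t.im) {k : ℤ × ℤ} (hk : k ≠ 0) : (k.1 + k.2 * t : ℂ) ≠ 0 := fun h => by
  have h1 := congrArg Complex.im h
  have h2 : k.2 = 0 := by simpa [ht.ne'] using h1
  rw [h2] at h
  exact hk (Prod.ext (by simpa using h) h2)

theorem lp_ge (ht : 0 < t.im) {s : ℂ} (hs : ‖s - t‖ < t.im / 2) (k : ℤ × ℤ) :
    ‖(k.1 + k.2 * t : ℂ)‖ / 2 ≤ ‖(k.1 + k.2 * s : ℂ)‖ := by
  have h1 : |(k.2 : ℝ)| * t.im ≤ ‖(k.1 + k.2 * t : ℂ)‖ := by
    simpa [abs_mul, abs_of_pos ht] using Complex.abs_im_le_norm (k.1 + k.2 * t : ℂ)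
  have h2 := norm_sub_le (k.1 + k.2 * s : ℂ) (k.2 * (s - t))
  rw [show (k.1 + k.2 * s : ℂ) - k.2 * (s - t) = k.1 + k.2 * t by ring, norm_mul,
    Complex.norm_intCast] at h2
  nlinarith [mul_le_mul_of_nonneg_left hs.le (abs_nonneg (k.2 : ℝ))]

theorem IsFam.large (h : IsFam L) (ht : 0 < t.im) {R : ℝ} (hR : 0 < R) :
    ∀ᶠ k : ℤ × ℤ in cofinite, R ≤ ‖(k.1 + k.2 * t : ℂ)‖ := by
  filter_upwards [(h.summable ht).tendsto_cofinite_zero.eventually
    (gt_mem_nhds (Real.rpow_pos_of_pos hR (-3))), eventually_cofinite_ne 0] with k h1 h2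
  by_contra h3
  exact h1.not_ge (Real.rpow_le_rpow_of_nonpos (norm_pos_iff.2 (lp_ne ht h2)) (not_le.1 h3).le
    (by norm_num))

theorem nhds_pt (ht : 0 < t.im) (w : ℂ) :
    {q : ℂ × ℂ | ‖q.1 - t‖ < t.im / 2 ∧ ‖q.2‖ < ‖w‖ + 1} ∈ 𝓝 (t, w) :=
  ((isOpen_lt (f := fun q : ℂ × ℂ => ‖q.1 - t‖) (by fun_prop) continuous_const).inter
    (isOpen_lt (f := fun q : ℂ × ℂ => ‖q.2‖) (by fun_prop) continuous_const)).mem_nhds
      ⟨by simpa using ht, lt_add_one ‖w‖⟩

theorem ev_im (ht : 0 < t.im) (w : ℂ) : ∀ᶠ q : ℂ × ℂ in 𝓝 (t, w), 0 < q.1.im :=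
  (isOpen_lt continuous_const (by fun_prop)).mem_nhds ht

/-- The complement of the nonzero lattice points is open. -/
theorem IsFam.ev_ne (h : IsFam L) (ht : 0 < t.im) {S : Set (ℤ × ℤ)}
    (hw : ∀ k ∈ S, w ≠ k.1 + k.2 * t) :
    ∀ᶠ q : ℂ × ℂ in 𝓝 (t, w), ∀ k ∈ S, q.2 ≠ k.1 + k.2 * q.1 := by
  have h1 := h.large ht (R := 2 * (‖w‖ + 1)) (by positivity)
  have h2 : ∀ᶠ q : ℂ × ℂ in 𝓝 (t, w), ∀ k ∈ h1.toFinset, k ∈ S → q.2 ≠ k.1 + k.2 * q.1 :=
    (eventually_all_finset _).2 fun k _ => by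
      by_cases hk : k ∈ S
      · exact ((isOpen_ne_fun continuous_snd (by fun_prop)).eventually_mem (hw k hk)).mono
          fun q hq _ => hq
      · exact .of_forall fun q h => absurd h hk
  filter_upwards [h2, nhds_pt ht w] with q h3 h4 k hk e
  refine h3 k (by_contra fun h5 => ?_) hk e
  have h6 : 2 * (‖w‖ + 1) ≤ ‖(k.1 + k.2 * t : ℂ)‖ := by simpa using h5
  have h7 := lp_ge ht h4.1 k
  rw [← e] at h7
  linarith [h4.2]

theorem IsFam.ev_notMem (h : IsFam L) (ht : 0 < t.im) (hw : w ∉ (L t).lattice) :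
    ∀ᶠ q : ℂ × ℂ in 𝓝 (t, w), 0 < q.1.im ∧ q.2 ∉ (L q.1).lattice := by
  filter_upwards [ev_im ht w, h.ev_ne ht (S := univ) (w := w)
    fun k _ e => hw ((h.mem ht).2 ⟨k.1, k.2, e.symm⟩)] with q h1 h2
  refine ⟨h1, fun h3 => ?_⟩
  obtain ⟨m, n, e⟩ := (h.mem h1).1 h3
  exact h2 (m, n) trivial e.symm

theorem term_an {q : ℂ × ℂ} {k : ℤ × ℤ} (h1 : q.2 - (k.1 + k.2 * q.1) ≠ 0)
    (h2 : (k.1 + k.2 * q.1 : ℂ) ≠ 0) : AnalyticAt ℂ (fun q : ℂ × ℂ =>
      (1 / (q.2 - (k.1 + k.2 * q.1)) ^ 2 - 1 / (k.1 + k.2 * q.1) ^ 2 : ℂ)) q := by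
  have h3 : AnalyticAt ℂ (fun q : ℂ × ℂ => (k.1 + k.2 * q.1 : ℂ)) q :=
    analyticAt_const.add (analyticAt_const.mul analyticAt_fst)
  exact (analyticAt_const.fun_div ((analyticAt_snd.fun_sub h3).fun_pow 2) (pow_ne_zero 2 h1)).fun_sub
    (analyticAt_const.fun_div (h3.fun_pow 2) (pow_ne_zero 2 h2))

theorem IsFam.analyticAt_except (h : IsFam L) (ht : 0 < t.im) (hw : w ∈ (L t).lattice → w = 0) :
    AnalyticAt ℂ (fun q : ℂ × ℂ => (L q.1).weierstrassPExcept 0 q.2) (t, w) := by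
  have h0 : ∀ k : ℤ × ℤ, k ≠ 0 → w - (k.1 + k.2 * t) ≠ 0 := fun k hk e => by
    rw [sub_eq_zero] at e
    exact lp_ne ht hk (e ▸ hw ((h.mem ht).2 ⟨k.1, k.2, e.symm⟩))
  have h1 := analyticAt_tsum (x := (t, w)) (f := fun (k : ℤ × ℤ) (q : ℂ × ℂ) => if k = 0 then 0 else
      (1 / (q.2 - (k.1 + k.2 * q.1)) ^ 2 - 1 / (k.1 + k.2 * q.1) ^ 2 : ℂ))
    ((h.summable ht).mul_left (80 * (‖w‖ + 1))) (fun k => ?_) (nhds_pt ht w) ?_
  · refine h1.congr ((ev_im ht w).mono fun q hq => ?_)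
    refine Eq.trans (tsum_congr fun k => ?_) (h.tsum_eq hq
      fun l => if l = 0 then 0 else (1 / (q.2 - l) ^ 2 - 1 / l ^ 2)).symm
    by_cases hk : k = 0
    · simp [hk]
    · simp only [if_neg hk, if_neg (lp_ne hq hk)]
  · by_cases hk : k = 0
    · simp only [if_pos hk]
      exact analyticAt_const
    · simp only [if_neg hk]
      exact term_an (h0 k hk) (lp_ne ht hk)
  · filter_upwards [h.large ht (R := 4 * (‖w‖ + 1)) (by positivity), eventually_cofinite_ne 0]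
      with k h2 hk q hq
    have h3 := lp_ge ht hq.1 k
    have h4 := norm_nonneg q.2
    have h5 := hq.2
    have h6 : (k.1 + k.2 * q.1 : ℂ) ≠ 0 := norm_pos_iff.1 (by linarith)
    have h7 : q.2 - (k.1 + k.2 * q.1) ≠ 0 := fun e => by
      rw [← sub_eq_zero.1 e] at h3
      linarith
    simp only [if_neg hk]
    refine ⟨(term_an h7 h6).differentiableAt,
      (PeriodPair.weierstrassP_bound _ (by positivity) _ h5 _ (by linarith)).trans ?_⟩
    have h8 := Real.rpow_le_rpow_of_nonpos (by linarith) h3 (by norm_num : (-3 : ℝ) ≤ 0)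
    rw [Real.div_rpow (norm_nonneg _) zero_le_two,
      show (2 : ℝ) ^ (-3 : ℝ) = 1 / 8 by rw [Real.rpow_neg zero_le_two]; norm_num] at h8
    nlinarith

theorem wp_eq (Λ : PeriodPair) (w : ℂ) :
    Λ.weierstrassP w = Λ.weierstrassPExcept 0 w + 1 / w ^ 2 := by
  simpa using (Λ.weierstrassPExcept_add 0 w).symm

/-- The Weierstrass function is analytic in both variables. -/
theorem IsFam.analyticAt_wp (h : IsFam L) (ht : 0 < t.im) (hw : w ∉ (L t).lattice) :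
    AnalyticAt ℂ (fun q : ℂ × ℂ => (L q.1).weierstrassP q.2) (t, w) := by
  simp only [wp_eq]
  exact (h.analyticAt_except ht fun e => absurd e hw).fun_add (analyticAt_const.fun_div
    (analyticAt_snd.fun_pow 2)
    (pow_ne_zero 2 fun e => hw (by rw [show w = 0 from e]; exact zero_mem _)))

theorem fderiv_inr {F : ℂ × ℂ → ℂ} (hF : DifferentiableAt ℂ F (t, w)) :
    fderiv ℂ F (t, w) (0, 1) = deriv (fun z => F (t, z)) w :=
  (hF.hasFDerivAt.comp_hasDerivAt w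
    ((hasDerivAt_const w t).prodMk (hasDerivAt_id w))).deriv.symm

/-- The derivative of the Weierstrass function is analytic in both variables. -/
theorem IsFam.analyticAt_wp' (h : IsFam L) (ht : 0 < t.im) (hw : w ∉ (L t).lattice) :
    AnalyticAt ℂ (fun q : ℂ × ℂ => (L q.1).derivWeierstrassP q.2) (t, w) := by
  have h1 := h.analyticAt_wp ht hw
  refine (((ContinuousLinearMap.apply ℂ ℂ ((0, 1) : ℂ × ℂ)).analyticAt _).comp h1.fderiv).congr
    (h1.eventually_analyticAt.mono fun q hq => ?_)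
  exact (fderiv_inr (t := q.1) (w := q.2) hq.differentiableAt).trans
    (congrFun (L q.1).deriv_weierstrassP q.2)

variable {u : ℂ → ℂ}

theorem IsFam.comp_except (h : IsFam L) (ht : 0 < t.im) (hu : AnalyticAt ℂ u t)
    (hw : u t ∈ (L t).lattice → u t = 0) :
    AnalyticAt ℂ (fun s => (L s).weierstrassPExcept 0 (u s)) t :=
  (h.analyticAt_except ht hw).comp_of_eq (f := fun s => (s, u s)) (analyticAt_id.prod hu) rfl

theorem IsFam.comp_wp (h : IsFam L) (ht : 0 < t.im) (hu : AnalyticAt ℂ u t)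
    (hw : u t ∉ (L t).lattice) : AnalyticAt ℂ (fun s => (L s).weierstrassP (u s)) t :=
  (h.analyticAt_wp ht hw).comp_of_eq (f := fun s => (s, u s)) (analyticAt_id.prod hu) rfl

theorem IsFam.comp_wp' (h : IsFam L) (ht : 0 < t.im) (hu : AnalyticAt ℂ u t)
    (hw : u t ∉ (L t).lattice) : AnalyticAt ℂ (fun s => (L s).derivWeierstrassP (u s)) t :=
  (h.analyticAt_wp' ht hw).comp_of_eq (f := fun s => (s, u s)) (analyticAt_id.prod hu) rfl

/-- The implicit function theorem for analytic functions of two variables. -/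
theorem exists_implicit {F : ℂ × ℂ → ℂ} (hF : AnalyticAt ℂ F (t, w))
    (h0 : deriv (fun z => F (t, z)) w ≠ 0) : ∃ u : ℂ → ℂ, AnalyticAt ℂ u t ∧ u t = w ∧
      ∀ᶠ q in 𝓝 (t, w), F q = F (t, w) ↔ u q.1 = q.2 := by
  have h1 : ContDiffAt ℂ ⊤ F (t, w) := hF.contDiffAt
  have h2 : (fderiv ℂ F (t, w) ∘L .inr ℂ ℂ ℂ).IsInvertible := by
    refine ⟨ContinuousLinearEquiv.unitsEquivAut ℂ (Units.mk0 _ h0), ?_⟩
    ext
    simpa using (fderiv_inr hF.differentiableAt).symm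
  exact ⟨h1.implicitFunction (by simp) h2, (h1.contDiffAt_implicitFunction _ h2).analyticAt,
    h1.implicitFunction_apply_self _ h2, h1.eventually_apply_eq_iff_implicitFunction _ h2⟩

/-- Local lifts through the Weierstrass function. -/
theorem IsFam.local_lift (h : IsFam L) (ht : 0 < t.im) (hw : w ∉ (L t).lattice)
    (h0 : (L t).derivWeierstrassP w ≠ 0) {x : ℂ → ℂ} (hx : AnalyticAt ℂ x t)
    (h1 : (L t).weierstrassP w = x t) : ∃ u : ℂ → ℂ, AnalyticAt ℂ u t ∧ u t = w ∧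
      ∀ᶠ q : ℂ × ℂ in 𝓝 (t, w), (L q.1).weierstrassP q.2 = x q.1 ↔ u q.1 = q.2 := by
  obtain ⟨u, h2, h3, h4⟩ := exists_implicit (F := fun q => (L q.1).weierstrassP q.2 - x q.1)
    ((h.analyticAt_wp ht hw).sub (hx.comp_of_eq (f := Prod.fst) analyticAt_fst rfl))
    (by simpa only [deriv_sub_const, PeriodPair.deriv_weierstrassP] using h0)
  refine ⟨u, h2, h3, h4.mono fun q hq => ?_⟩
  rwa [h1, sub_self, sub_eq_zero] at hq

end MPb1b13a.Disc
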