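import Pool.Agent.Lib.MP_b1b13a_lc.Disc.Fam

/-!
Global lifts through the Weierstrass parametrisation on the upper half plane.
-/

set_option autoImplicit false

noncomputable section

namespace MPb1b13a.Disc

open Set Filter Topology Metric

theorem ev_const {f : ℂ → ℂ} {t : ℂ} (hf : AnalyticAt ℂ f t) (h : ∀ᶠ s in 𝓝 t, deriv f s = 0) :
    ∃ c, ∀ᶠ s in 𝓝 t, f s = c := by
  obtain ⟨r, hr, h1⟩ := Metric.mem_nhds_iff.1 (hf.eventually_analyticAt.and h)
  obtain ⟨c, hc⟩ := isOpen_ball.exists_is_const_of_deriv_eq_zero (convex_ball t r).isPreconnected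
    (fun s hs => (h1 hs).1.differentiableAt.differentiableWithinAt) fun s hs => (h1 hs).2
  exact ⟨c, mem_of_superset (ball_mem_nhds t hr) hc⟩

theorem deriv_sub_lin {f : ℂ → ℂ} {s : ℂ} (hf : DifferentiableAt ℂ f s) (a b : ℂ) :
    deriv (fun z => f z + a + b * z) s = deriv f s + b :=
  ((hf.hasDerivAt.add_const a).add (by simpa using (hasDerivAt_id s).const_mul b)).deriv

theorem ev_affine {f : ℂ → ℂ} {t : ℂ} (hf : AnalyticAt ℂ f t)
    (h : ∀ᶠ s in 𝓝 t, deriv (deriv f) s = 0) : ∃ a b, ∀ᶠ s in 𝓝 t, f s = a + b * s := by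
  obtain ⟨b, hb⟩ := ev_const hf.deriv h
  obtain ⟨a, ha⟩ := ev_const (f := fun z => f z + 0 + -b * z)
    ((hf.add analyticAt_const).add (analyticAt_const.mul analyticAt_id))
    ((hf.eventually_analyticAt.and hb).mono fun s hs => by
      rw [deriv_sub_lin hs.1.differentiableAt, hs.2, add_neg_cancel])
  exact ⟨a, b, ha.mono fun s hs => by linear_combination hs⟩

theorem deriv2_eq {u v : ℂ → ℂ} {t a b : ℂ} (hv : AnalyticAt ℂ v t)
    (h : ∀ᶠ s in 𝓝 t, u s = v s + a + b * s) : deriv (deriv u) t = deriv (deriv v) t := by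
  have h1 : deriv u =ᶠ[𝓝 t] fun s => deriv v s + b :=
    ((EventuallyEq.deriv h).and hv.eventually_analyticAt).mono fun s hs =>
      hs.1.trans (deriv_sub_lin hs.2.differentiableAt a b)
  rw [h1.deriv_eq, deriv_add_const]

theorem exists_prim {g : ℂ → ℂ} (hg : ∀ t : ℂ, 0 < t.im → AnalyticAt ℂ g t) :
    ∃ G : ℂ → ℂ, ∀ t : ℂ, 0 < t.im → AnalyticAt ℂ G t ∧ deriv G t = g t := by
  have ho : IsOpen {t : ℂ | 0 < t.im} := isOpen_lt continuous_const Complex.continuous_im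
  obtain ⟨G, hG⟩ := (convex_halfSpace_im_gt 0).exists_forall_hasDerivWithinAt (𝕜 := ℂ)
    fun t ht => (hg t ht).differentiableAt.differentiableWithinAt
  exact ⟨G, fun t ht => ⟨DifferentiableOn.analyticAt (fun s hs => (hG s hs).differentiableWithinAt)
    (ho.mem_nhds ht), ((hG t ht).hasDerivAt (ho.mem_nhds ht)).deriv⟩⟩

/-- Local sections that differ by periods glue to a global section. -/
theorem glue_lift {Q : ℂ → ℂ → Prop} (h1 : ∀ (t w : ℂ) (m n : ℤ), Q t w → Q t (w + m + n * t))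
    (h2 : ∀ t : ℂ, 0 < t.im → ∃ u, AnalyticAt ℂ u t ∧ ∀ᶠ s in 𝓝 t, Q s (u s))
    (h3 : ∀ t : ℂ, 0 < t.im → ∀ u v : ℂ → ℂ, AnalyticAt ℂ u t → AnalyticAt ℂ v t →
      (∀ᶠ s in 𝓝 t, Q s (u s)) → (∀ᶠ s in 𝓝 t, Q s (v s)) →
        ∃ m n : ℤ, ∀ᶠ s in 𝓝 t, u s = v s + m + n * s) :
    ∃ w : ℂ → ℂ, ∀ t : ℂ, 0 < t.im → AnalyticAt ℂ w t ∧ Q t (w t) := by
  have ho : IsOpen {t : ℂ | 0 < t.im} := isOpen_lt continuous_const Complex.continuous_im
  choose! u hu hQ using h2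
  have h4 : ∀ t : ℂ, 0 < t.im →
      ∀ᶠ s in 𝓝 t, deriv (deriv (u t)) s = deriv (deriv (u s)) s := fun t ht => by
    filter_upwards [ho.mem_nhds ht, (hu t ht).eventually_analyticAt,
      (hQ t ht).eventually_nhds] with s a1 a2 a3
    obtain ⟨m, n, h⟩ := h3 s a1 _ _ a2 (hu s a1) a3 (hQ s a1)
    exact deriv2_eq (hu s a1) h
  obtain ⟨G, hG⟩ := exists_prim fun t ht => (hu t ht).deriv.deriv.congr (h4 t ht)
  obtain ⟨F, hF⟩ := exists_prim fun t ht => (hG t ht).1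
  have h5 : ∀ t : ℂ, 0 < t.im → ∃ a b, ∀ᶠ s in 𝓝 t, F s - u t s = a + b * s := fun t ht => by
    refine ev_affine ((hF t ht).1.sub (hu t ht)) ?_
    have a1 : ∀ᶠ s in 𝓝 t, deriv (fun s => F s - u t s) s = G s - deriv (u t) s := by
      filter_upwards [ho.mem_nhds ht, (hu t ht).eventually_analyticAt] with s a1 a2
      rw [deriv_fun_sub (hF s a1).1.differentiableAt a2.differentiableAt, (hF s a1).2]
    filter_upwards [ho.mem_nhds ht, (hu t ht).eventually_analyticAt, EventuallyEq.deriv a1,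
      h4 t ht] with s a1 a2 a3 a4
    rw [a3, deriv_fun_sub (hG s a1).1.differentiableAt a2.deriv.differentiableAt, (hG s a1).2, a4,
      sub_self]
  have hI : (0 : ℝ) < Complex.I.im := by simp
  obtain ⟨a₀, b₀, h6⟩ := h5 _ hI
  have h7 : ∀ t : ℂ, 0 < t.im → AnalyticAt ℂ (fun s => F s - (a₀ + b₀ * s)) t := fun t ht =>
    (hF t ht).1.sub (analyticAt_const.add (analyticAt_const.mul analyticAt_id))
  refine ⟨fun s => F s - (a₀ + b₀ * s), fun t ht => ⟨h7 t ht, Eventually.self_of_nhds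
    (p := fun s => Q s (F s - (a₀ + b₀ * s))) ((convex_halfSpace_im_gt 0).isPreconnected.subset_of_closure_inter_subset
      (u := {t | ∀ᶠ s in 𝓝 t, Q s (F s - (a₀ + b₀ * s))}) isOpen_setOfPred_eventually_nhds
      ⟨_, hI, (h6.and (hQ _ hI)).mono fun s hs => ?_⟩ ?_ ht)⟩⟩
  · rw [← hs.1, sub_sub_cancel]
    exact hs.2
  · rintro z ⟨c1, c2⟩
    obtain ⟨a, b, c3⟩ := h5 z c2
    obtain ⟨s, ⟨⟨d1, d2⟩, d3, d4⟩, d5⟩ := mem_closure_iff_nhds.1 c1 _
      (((hu z c2).eventually_analyticAt.and (hQ z c2).eventually_nhds).and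
        (c3.eventually_nhds.and (ho.mem_nhds c2)))
    obtain ⟨m, n, d6⟩ := h3 s d4 _ _ (h7 s d4) d1 d5 d2
    have d7 : (fun y => a - a₀ - m + (b - b₀ - n) * y) =ᶠ[𝓝 s] fun _ => 0 :=
      (d3.and d6).mono fun y hy => by linear_combination hy.2 - hy.1
    have d8 : b - b₀ - n = 0 := by
      have := d7.deriv_eq
      simpa using this
    have d9 : a - a₀ - m = 0 := by simpa [d8] using d7.self_of_nhds
    filter_upwards [c3, hQ z c2] with y e1 e2
    rw [show F y - (a₀ + b₀ * y) = u z y + m + n * y by linear_combination e1 + d9 + y * d8]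
    exact h1 _ _ m n e2

variable {L : ℂ → PeriodPair}

/-- The global lift of a section that avoids the two torsion points. -/
theorem IsFam.global_lift (h : IsFam L)
    (inj : ∀ (Λ : PeriodPair) (z w : ℂ), z ∉ Λ.lattice → w ∉ Λ.lattice →
      Λ.weierstrassP z = Λ.weierstrassP w → Λ.derivWeierstrassP z = Λ.derivWeierstrassP w →
        z - w ∈ Λ.lattice)
    {x y : ℂ → ℂ} (hx : ∀ t : ℂ, 0 < t.im → AnalyticAt ℂ x t)
    (hy : ∀ t : ℂ, 0 < t.im → ContinuousAt y t) (h0 : ∀ t : ℂ, 0 < t.im → y t ≠ 0)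
    (hs : ∀ t : ℂ, 0 < t.im → ∃ w, w ∉ (L t).lattice ∧ (L t).weierstrassP w = x t ∧
      (L t).derivWeierstrassP w = y t) :
    ∃ w : ℂ → ℂ, ∀ t : ℂ, 0 < t.im → AnalyticAt ℂ w t ∧ w t ∉ (L t).lattice ∧
      (L t).weierstrassP (w t) = x t ∧ (L t).derivWeierstrassP (w t) = y t := by
  have ho : IsOpen {t : ℂ | 0 < t.im} := isOpen_lt continuous_const Complex.continuous_im
  have h1 : ∀ (t w : ℂ) (m n : ℤ), (0 < t.im ∧ w ∉ (L t).lattice ∧ (L t).weierstrassP w = x t ∧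
      (L t).derivWeierstrassP w = y t) → 0 < t.im ∧ w + m + n * t ∉ (L t).lattice ∧
      (L t).weierstrassP (w + m + n * t) = x t ∧ (L t).derivWeierstrassP (w + m + n * t) = y t := by
    rintro t w m n ⟨a1, a2, a3, a4⟩
    have a5 : (m + n * t : ℂ) ∈ (L t).lattice := (h.mem a1).2 ⟨m, n, rfl⟩
    rw [add_assoc]
    exact ⟨a1, fun e => a2 (by simpa using sub_mem e a5),
      ((L t).weierstrassP_add_coe w ⟨_, a5⟩).trans a3,
      ((L t).derivWeierstrassP_add_coe w ⟨_, a5⟩).trans a4⟩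
  have tq : ∀ {t : ℂ} {u : ℂ → ℂ}, AnalyticAt ℂ u t →
      Tendsto (fun s => (s, u s)) (𝓝 t) (𝓝 (t, u t)) := fun hu =>
    (continuousAt_id.prodMk hu.continuousAt).tendsto
  refine (glue_lift h1 (fun t ht => ?_) fun t ht u v hu hv a1 a2 => ?_).imp
    fun w hw t ht => ⟨(hw t ht).1, (hw t ht).2.2⟩
  · obtain ⟨w, a1, a2, a3⟩ := hs t ht
    obtain ⟨u, b1, rfl, b2⟩ := h.local_lift ht a1 (a3 ▸ h0 t ht) (hx t ht) a2
    have b3 : ∀ᶠ s in 𝓝 t, (L s).derivWeierstrassP (u s) + y s ≠ 0 :=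
      ((h.comp_wp' ht b1 a1).continuousAt.add (hy t ht)).eventually_ne (by
        rw [Pi.add_apply, a3, ← two_mul]
        exact mul_ne_zero two_ne_zero (h0 t ht))
    refine ⟨u, b1, ?_⟩
    filter_upwards [(tq b1).eventually b2, (tq b1).eventually (h.ev_notMem ht a1), b3]
      with s c1 c2 c3
    obtain ⟨z, d1, d2, d3⟩ := hs s c2.1
    have d4 := c1.2 rfl
    have d5 := (L s).derivWeierstrassP_sq _ c2.2
    have d6 := (L s).derivWeierstrassP_sq _ d1
    rw [d4] at d5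
    rw [d2, d3] at d6
    exact ⟨c2.1, c2.2, d4, sub_eq_zero.1 ((mul_eq_zero.1
      (by linear_combination d5 - d6)).resolve_left c3)⟩
  · obtain ⟨-, b1, b2, b3⟩ := a1.self_of_nhds
    obtain ⟨-, c1, c2, c3⟩ := a2.self_of_nhds
    obtain ⟨m, n, e⟩ := (h.mem ht).1 (inj _ _ _ b1 c1 (b2.trans c2.symm) (b3.trans c3.symm))
    obtain ⟨φ, -, -, d⟩ := h.local_lift ht b1 (b3 ▸ h0 t ht) (hx t ht) b2
    have hv' : AnalyticAt ℂ (fun s => v s + m + n * s) t :=
      (hv.add analyticAt_const).add (analyticAt_const.mul analyticAt_id)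
    have d2 := tq hv'
    rw [show v t + m + n * t = u t by linear_combination e] at d2
    refine ⟨m, n, ?_⟩
    filter_upwards [(tq hu).eventually d, d2.eventually d, a1, a2] with s e1 e2 e3 e4
    exact (e1.1 e3.2.2.1).symm.trans (e2.1 (h1 _ _ m n e4).2.2.1)

end MPb1b13a.Disc
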