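import Mathlib

/-!
Flatness of holomorphic functions on the upper half plane that avoid the moving lattice
`ℤ + ℤ t`, from the sharp Landau inequality for functions that omit the integers.
-/

namespace MPb1b13a.Disc

open Complex Set Filter Topology Metric

theorem isOpen_H : IsOpen {t : ℂ | 0 < t.im} := isOpen_lt continuous_const continuous_im

theorem convex_H : Convex ℝ {t : ℂ | 0 < t.im} := convex_halfSpace_im_gt 0

theorem diffAt_H {f : ℂ → ℂ} (hf : DifferentiableOn ℂ f {t | 0 < t.im}) {t : ℂ} (ht : 0 < t.im) :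
    DifferentiableAt ℂ f t := hf.differentiableAt (isOpen_H.mem_nhds ht)

theorem cayley_im {z : ℂ} (hz : ‖z‖ < 1) : 0 < (I * (1 + z) / (1 - z)).im := by
  have h1 : (1 : ℂ) - z ≠ 0 := by
    intro h
    have : z = 1 := by linear_combination -h
    simp [this] at hz
  have hn : 0 < normSq (1 - z) := normSq_pos.mpr h1
  have hz2 : z.re ^ 2 + z.im ^ 2 < 1 := by
    have h2 : ‖z‖ ^ 2 < 1 := by nlinarith [norm_nonneg z]
    rw [Complex.sq_norm, normSq_apply] at h2
    nlinarith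
  have : (I * (1 + z) / (1 - z)).im = (1 - (z.re ^ 2 + z.im ^ 2)) / normSq (1 - z) := by
    rw [div_im]
    simp
    field_simp
    ring
  rw [this]
  exact div_pos (by linarith) hn

theorem norm_sub_lt_norm_sub_conj {w w₀ : ℂ} (hw : 0 < w.im) (hw₀ : 0 < w₀.im) :
    ‖w - w₀‖ < ‖w - (starRingEnd ℂ) w₀‖ := by
  rw [← sq_lt_sq₀ (norm_nonneg _) (norm_nonneg _), Complex.sq_norm, Complex.sq_norm,
    normSq_apply, normSq_apply]
  simp
  nlinarith [mul_pos hw hw₀]

theorem sub_conj_ne_zero {w w₀ : ℂ} (hw : 0 < w.im) (hw₀ : 0 < w₀.im) :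
    w - (starRingEnd ℂ) w₀ ≠ 0 := by
  intro h
  have := congrArg Complex.im h
  simp at this
  linarith

/-- Schwarz-Pick inequality on the upper half plane. -/
theorem schwarz_pick_H {f : ℂ → ℂ} (hf : DifferentiableOn ℂ f {t | 0 < t.im})
    (hm : ∀ t : ℂ, 0 < t.im → 0 < (f t).im) {t : ℂ} (ht : 0 < t.im) :
    ‖deriv f t‖ * t.im ≤ (f t).im := by
  set φ : ℂ → ℂ := fun z => t.re + t.im * (I * (1 + z) / (1 - z)) with hφ
  have hφ0 : φ 0 = t := by
    simp only [hφ]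
    apply Complex.ext <;> simp
  have hφm : ∀ z ∈ ball (0 : ℂ) 1, 0 < (φ z).im := by
    intro z hz
    have := cayley_im (mem_ball_zero_iff.mp hz)
    simp only [hφ, add_im, ofReal_im, mul_im, ofReal_re, zero_mul, add_zero, zero_add]
    exact mul_pos ht this
  have hne : ∀ z ∈ ball (0 : ℂ) 1, (1 : ℂ) - z ≠ 0 := by
    intro z hz h
    have : z = 1 := by linear_combination -h
    simp [this] at hz
  have hφd : ∀ z ∈ ball (0 : ℂ) 1, DifferentiableAt ℂ φ z := by
    intro z hz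
    have := hne z hz
    simp only [hφ]
    fun_prop (disch := assumption)
  have hφ' : HasDerivAt φ (t.im * (2 * I)) 0 := by
    have h1 : HasDerivAt (fun z : ℂ => I * (1 + z) / (1 - z))
        ((I * 1 * (1 - 0) - I * (1 + 0) * (-1)) / (1 - 0) ^ 2) 0 := by
      refine HasDerivAt.div (c := fun z : ℂ => I * (1 + z)) (d := fun z : ℂ => 1 - z) ?_ ?_ (by simp)
      · exact ((hasDerivAt_id (0 : ℂ)).const_add 1).const_mul I
      · exact (hasDerivAt_id (0 : ℂ)).const_sub 1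
    have h2 := (h1.const_mul (t.im : ℂ)).const_add (t.re : ℂ)
    have e : (t.im : ℂ) * ((I * 1 * (1 - 0) - I * (1 + 0) * (-1)) / (1 - 0) ^ 2)
        = t.im * (2 * I) := by ring
    rw [e] at h2
    exact h2
  set w₀ := f t with hw₀
  have hw₀i : 0 < w₀.im := hm t ht
  set g : ℂ → ℂ := fun z => (f (φ z) - w₀) / (f (φ z) - (starRingEnd ℂ) w₀) with hg
  have hg0 : g 0 = 0 := by simp [hg, hφ0, hw₀]
  have hgd : DifferentiableOn ℂ g (ball 0 1) := by
    intro z hz
    have h1 : DifferentiableAt ℂ (fun z => f (φ z)) z :=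
      (diffAt_H hf (hφm z hz)).comp z (hφd z hz)
    exact ((h1.sub_const _).div (h1.sub_const _)
      (sub_conj_ne_zero (hm _ (hφm z hz)) hw₀i)).differentiableWithinAt
  have hgm : MapsTo g (ball 0 1) (closedBall (g 0) 1) := by
    intro z hz
    rw [hg0, mem_closedBall_zero_iff]
    simp only [hg, norm_div]
    exact div_le_one_of_le₀ (norm_sub_lt_norm_sub_conj (hm _ (hφm z hz)) hw₀i).le (norm_nonneg _)
  have hle := Complex.norm_deriv_le_one_of_mapsTo_ball hgd hgm one_pos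
  have hfd : HasDerivAt (fun z => f (φ z)) (deriv f t * (t.im * (2 * I))) 0 := by
    have h1 : HasDerivAt f (deriv f t) (φ 0) := by
      rw [hφ0]; exact (diffAt_H hf ht).hasDerivAt
    exact h1.comp 0 hφ'
  have hc : w₀ - (starRingEnd ℂ) w₀ = w₀.im * (2 * I) := by
    apply Complex.ext <;> simp
    ring
  have hc0 : w₀ - (starRingEnd ℂ) w₀ ≠ 0 := sub_conj_ne_zero hw₀i hw₀i
  have hgd' : HasDerivAt g (deriv f t * (t.im * (2 * I)) / (w₀.im * (2 * I))) 0 := by
    have h1 := (hfd.sub_const w₀).div (hfd.sub_const ((starRingEnd ℂ) w₀))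
      (by simp only [hφ0]; exact hc0)
    simp only [hφ0, ← hw₀, sub_self, zero_mul, sub_zero] at h1
    have e : deriv f t * (t.im * (2 * I)) * (w₀ - (starRingEnd ℂ) w₀) /
        (w₀ - (starRingEnd ℂ) w₀) ^ 2 = deriv f t * (t.im * (2 * I)) / (w₀.im * (2 * I)) := by
      rw [← hc]; field_simp
    rw [e] at h1
    exact h1
  rw [hgd'.deriv] at hle
  simp only [norm_div, norm_mul, norm_real, Real.norm_eq_abs, abs_of_pos ht, abs_of_pos hw₀i,
    norm_I, Complex.norm_ofNat, mul_one] at hle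
  rw [div_le_one (by positivity)] at hle
  linarith

theorem le_of_sq_le_sq_aux (a b : ℝ) (hb : 0 ≤ b) (h : a ^ 2 ≤ b ^ 2) : a ≤ b :=
  (abs_le_of_sq_le_sq' h hb).2

/-- The deviation from flatness. -/
noncomputable def dev (u : ℂ → ℂ) (t : ℂ) : ℂ := t.im * deriv u t - (u t).im

/-- Holomorphic on the upper half plane and avoiding the moving lattice. -/
def Avoid (u : ℂ → ℂ) : Prop :=
  DifferentiableOn ℂ u {t | 0 < t.im} ∧ ∀ t : ℂ, 0 < t.im → ∀ m n : ℤ, u t ≠ m + n * t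

theorem lens {w : ℂ} {b e : ℝ} (he : 0 ≤ e) (h : ∀ n : ℤ, ‖w - n‖ ≤ |b - n| + e) :
    ‖w - b‖ ^ 2 ≤ 2 * e + e ^ 2 := by
  have key : ∀ n : ℤ, |b - n| ≤ 1 → 0 ≤ (w.re - b) * (b - n) → ‖w - b‖ ^ 2 ≤ 2 * e + e ^ 2 := by
    intro n h1 h2
    have h3 : ‖w - n‖ ^ 2 ≤ (|b - n| + e) ^ 2 := pow_le_pow_left₀ (norm_nonneg _) (h n) 2
    rw [Complex.sq_norm, normSq_apply] at h3 ⊢
    simp only [sub_re, intCast_re, sub_im, intCast_im, sub_zero, ofReal_re, ofReal_im] at h3 ⊢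
    have h4 : |b - n| ^ 2 = (b - n) ^ 2 := sq_abs _
    nlinarith [mul_le_mul_of_nonneg_right h1 he]
  rcases le_total 0 (w.re - b) with hp | hp
  · refine key ⌊b⌋ ?_ (mul_nonneg hp (by linarith [Int.floor_le b]))
    rw [abs_le]; constructor <;> linarith [Int.floor_le b, Int.lt_floor_add_one b]
  · refine key ⌈b⌉ ?_ (mul_nonneg_of_nonpos_of_nonpos hp (by linarith [Int.le_ceil b]))
    rw [abs_le]; constructor <;> linarith [Int.le_ceil b, Int.ceil_lt_add_one b]

theorem dev_sq_le {A : ℝ} (hA : 0 ≤ A)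
    (hL : ∀ v : ℂ → ℂ, DifferentiableOn ℂ v {t | 0 < t.im} →
      (∀ t : ℂ, 0 < t.im → ∀ n : ℤ, v t ≠ n) →
      ∀ t : ℂ, 0 < t.im → ‖deriv v t‖ * t.im ≤ |(v t).im| + A)
    {u : ℂ → ℂ} (hu : Avoid u) {t : ℂ} (ht : 0 < t.im) :
    ‖dev u t‖ ^ 2 ≤ 2 * A * t.im + A ^ 2 := by
  have h1 : ∀ n : ℤ, ‖deriv u t - n‖ ≤ |(u t).im / t.im - n| + A / t.im := by
    intro n
    have hv : DifferentiableOn ℂ (fun s => u s - n * s) {t | 0 < t.im} :=
      hu.1.sub (differentiableOn_id.const_mul _)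
    have h2 := hL _ hv (fun s hs m h => hu.2 s hs m n (by linear_combination h)) t ht
    have h3 : deriv (fun s => u s - n * s) t = deriv u t - n := by
      have := ((diffAt_H hu.1 ht).hasDerivAt.sub ((hasDerivAt_id t).const_mul (n : ℂ))).deriv
      rw [mul_one] at this
      exact this
    rw [h3] at h2
    simp only [sub_im, mul_im, intCast_re, intCast_im, zero_mul, add_zero] at h2
    have h4 : |(u t).im / t.im - n| = |(u t).im - n * t.im| / t.im := by
      rw [← abs_of_pos ht, ← abs_div, abs_of_pos ht]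
      congr 1
      field_simp
    rw [h4, ← add_div, le_div_iff₀ ht]
    exact h2
  have h2 := lens (div_nonneg hA ht.le) h1
  have h3 : dev u t = t.im * (deriv u t - ((u t).im / t.im : ℝ)) := by
    have : (t.im : ℂ) ≠ 0 := by exact_mod_cast ht.ne'
    simp only [dev]
    push_cast
    field_simp
  rw [h3, norm_mul, mul_pow, norm_real, Real.norm_eq_abs, sq_abs]
  calc t.im ^ 2 * ‖deriv u t - ((u t).im / t.im : ℝ)‖ ^ 2
      ≤ t.im ^ 2 * (2 * (A / t.im) + (A / t.im) ^ 2) := by gcongr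
    _ = 2 * A * t.im + A ^ 2 := by field_simp

theorem denom_ne_zero {a b c d : ℤ} (h : a * d - b * c = 1) {s : ℂ} (hs : 0 < s.im) :
    (c : ℂ) * s + d ≠ 0 := by
  intro h0
  have h1 := congrArg Complex.im h0
  have h2 := congrArg Complex.re h0
  simp only [add_im, mul_im, intCast_re, intCast_im, zero_mul, add_zero, zero_im, add_re, mul_re,
    sub_zero, zero_re] at h1 h2
  have hc : (c : ℝ) = 0 := by
    rcases mul_eq_zero.mp h1 with h | h
    · exact h
    · exact absurd h hs.ne'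
  have hd : (d : ℝ) = 0 := by rw [hc] at h2; simpa using h2
  have hc' : c = 0 := by exact_mod_cast hc
  have hd' : d = 0 := by exact_mod_cast hd
  rw [hc', hd'] at h
  simp at h

theorem moebius_im {a b c d : ℤ} (h : a * d - b * c = 1) {s : ℂ} (hs : 0 < s.im) :
    (((a : ℂ) * s + b) / (c * s + d)).im = s.im / normSq ((c : ℂ) * s + d) := by
  have hn : normSq ((c : ℂ) * s + d) ≠ 0 := (normSq_pos.mpr (denom_ne_zero h hs)).ne'
  have h' : (a : ℝ) * d - b * c = 1 := by exact_mod_cast h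
  rw [div_im]
  simp only [add_im, mul_im, intCast_re, intCast_im, zero_mul, add_zero, add_re, mul_re, sub_zero]
  field_simp
  linear_combination h'

theorem moebius_im_pos {a b c d : ℤ} (h : a * d - b * c = 1) {s : ℂ} (hs : 0 < s.im) :
    0 < (((a : ℂ) * s + b) / (c * s + d)).im := by
  rw [moebius_im h hs]
  exact div_pos hs (normSq_pos.mpr (denom_ne_zero h hs))

theorem moebius_hasDerivAt {a b c d : ℤ} (h : a * d - b * c = 1) {s : ℂ} (hs : 0 < s.im) :
    HasDerivAt (fun s : ℂ => ((a : ℂ) * s + b) / (c * s + d)) (1 / ((c : ℂ) * s + d) ^ 2) s := by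
  have h' : (a : ℂ) * d - b * c = 1 := by exact_mod_cast h
  have h1 := (((hasDerivAt_id s).const_mul (a : ℂ)).add_const (b : ℂ)).div
    (((hasDerivAt_id s).const_mul (c : ℂ)).add_const (d : ℂ)) (denom_ne_zero h hs)
  have e : ((a : ℂ) * 1 * (c * id s + d) - (a * id s + b) * (c * 1)) / (c * id s + d) ^ 2
      = 1 / ((c : ℂ) * s + d) ^ 2 := by
    simp only [id]
    congr 1
    linear_combination h'
  rw [e] at h1
  exact h1

/-- The weight `-1` action. -/
noncomputable def act (a b c d : ℤ) (u : ℂ → ℂ) (s : ℂ) : ℂ :=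
  ((c : ℂ) * s + d) * u (((a : ℂ) * s + b) / (c * s + d))

theorem act_hasDerivAt {a b c d : ℤ} (h : a * d - b * c = 1) {u : ℂ → ℂ}
    (hu : DifferentiableOn ℂ u {t | 0 < t.im}) {s : ℂ} (hs : 0 < s.im) :
    HasDerivAt (act a b c d u) (c * u (((a : ℂ) * s + b) / (c * s + d)) +
      deriv u (((a : ℂ) * s + b) / (c * s + d)) / ((c : ℂ) * s + d)) s := by
  have h1 := (diffAt_H hu (moebius_im_pos h hs)).hasDerivAt.comp s (moebius_hasDerivAt h hs)
  have h2 := (((hasDerivAt_id s).const_mul (c : ℂ)).add_const (d : ℂ)).mul h1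
  have hne := denom_ne_zero h hs
  refine HasDerivAt.congr_deriv h2 ?_
  simp only [id, Function.comp]
  field_simp

theorem Avoid.act {a b c d : ℤ} (h : a * d - b * c = 1) {u : ℂ → ℂ} (hu : Avoid u) :
    Avoid (act a b c d u) := by
  refine ⟨fun s hs => (act_hasDerivAt h hu.1 hs).differentiableAt.differentiableWithinAt, ?_⟩
  intro s hs m n h0
  have hne := denom_ne_zero h hs
  have h' : (a : ℂ) * d - b * c = 1 := by exact_mod_cast h
  refine hu.2 _ (moebius_im_pos h hs) (m * a - n * b) (n * d - m * c) ?_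
  simp only [MPb1b13a.Disc.act] at h0
  apply mul_left_cancel₀ hne
  rw [h0]
  push_cast
  have e : ((c : ℂ) * s + d) * (((a : ℂ) * s + b) / (c * s + d)) = a * s + b :=
    mul_div_cancel₀ _ hne
  linear_combination (-(m : ℂ) - n * s) * h' - ((n : ℂ) * d - m * c) * e

theorem dev_act {a b c d : ℤ} (h : a * d - b * c = 1) {u : ℂ → ℂ}
    (hu : DifferentiableOn ℂ u {t | 0 < t.im}) {s : ℂ} (hs : 0 < s.im) :
    dev (act a b c d u) s =
      (starRingEnd ℂ) ((c : ℂ) * s + d) * dev u (((a : ℂ) * s + b) / (c * s + d)) := by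
  have hne := denom_ne_zero h hs
  simp only [dev]
  rw [(act_hasDerivAt h hu hs).deriv, moebius_im h hs]
  simp only [act]
  generalize u (((a : ℂ) * s + b) / (c * s + d)) = U
  generalize deriv u (((a : ℂ) * s + b) / (c * s + d)) = V
  have hj : ((c : ℂ) * s + d).im = c * s.im := by simp
  generalize (c : ℂ) * s + d = j at *
  have h1 : (starRingEnd ℂ) j * ((s.im / normSq j : ℝ) : ℂ) = s.im / j := by
    have hc : (starRingEnd ℂ) j ≠ 0 := by simpa using hne
    push_cast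
    rw [normSq_eq_conj_mul_self]
    field_simp
  have h2 : (s.im : ℂ) * (c * U) - ((j * U).im : ℂ) = -((starRingEnd ℂ) j * U.im) := by
    apply Complex.ext
    · simp [hj]; ring
    · simp [hj]; ring
  linear_combination h2 - V * h1

theorem exists_moebius {t : ℂ} (ht : 0 < t.im) :
    ∃ (a b c d : ℤ) (s : ℂ), a * d - b * c = 1 ∧ 1 / 2 ≤ s.im ∧
      t = ((a : ℂ) * s + b) / (c * s + d) := by
  obtain ⟨g, hg⟩ := ModularGroup.exists_one_half_le_im_smul (⟨t, ht⟩ : UpperHalfPlane)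
  refine ⟨g⁻¹ 0 0, g⁻¹ 0 1, g⁻¹ 1 0, g⁻¹ 1 1, (g • (⟨t, ht⟩ : UpperHalfPlane) : UpperHalfPlane),
    ?_, hg, ?_⟩
  · have := (g⁻¹).det_coe
    rw [Matrix.det_fin_two] at this
    exact this
  · have h1 := UpperHalfPlane.coe_specialLinearGroup_apply g⁻¹ (g • (⟨t, ht⟩ : UpperHalfPlane))
    rw [inv_smul_smul] at h1
    simpa using h1

theorem dev_le {A : ℝ} (hA : 0 ≤ A)
    (hL : ∀ v : ℂ → ℂ, DifferentiableOn ℂ v {t | 0 < t.im} →
      (∀ t : ℂ, 0 < t.im → ∀ n : ℤ, v t ≠ n) →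
      ∀ t : ℂ, 0 < t.im → ‖deriv v t‖ * t.im ≤ |(v t).im| + A)
    {u : ℂ → ℂ} (hu : Avoid u) {t : ℂ} (ht : 0 < t.im) :
    ‖dev u t‖ ^ 2 ≤ (2 * A + 2 * A ^ 2) * t.im := by
  obtain ⟨a, b, c, d, s, h, hs, rfl⟩ := exists_moebius ht
  have hs0 : 0 < s.im := by linarith
  have h1 := dev_sq_le hA hL (hu.act h) hs0
  rw [dev_act h hu.1 hs0, norm_mul, mul_pow, Complex.norm_conj, Complex.sq_norm] at h1
  have hn : 0 < normSq ((c : ℂ) * s + d) := normSq_pos.mpr (denom_ne_zero h hs0)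
  rw [moebius_im h hs0, ← mul_div_assoc, le_div_iff₀ hn]
  nlinarith [mul_nonneg (sq_nonneg A) (sub_nonneg.mpr hs)]

theorem vertical {u : ℂ → ℂ} (hu : DifferentiableOn ℂ u {t | 0 < t.im}) {C : ℝ}
    (hN : ∀ t : ℂ, 0 < t.im → ‖dev u t‖ ^ 2 ≤ C ^ 2 * t.im) (hC : 0 ≤ C) (x : ℝ) {s S : ℝ}
    (hs : 0 < s) (hS : s ≤ S) :
    |(u (x + (s : ℂ) ^ 2 * I)).im / s ^ 2 - (u (x + (S : ℂ) ^ 2 * I)).im / S ^ 2| ≤ 2 * C / s := by
  set φ : ℝ → ℝ := fun r => (u (x + (r : ℂ) ^ 2 * I)).im / r ^ 2 with hφ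
  have him : ∀ r : ℝ, ((x : ℂ) + (r : ℂ) ^ 2 * I).im = r ^ 2 := by
    intro r
    simp [pow_two]
  have hd : ∀ r : ℝ, 0 < r → ∃ D : ℝ, HasDerivAt φ D r ∧ |D| ≤ 2 * C / r ^ 2 := by
    intro r hr
    have ht : 0 < ((x : ℂ) + (r : ℂ) ^ 2 * I).im := by rw [him]; positivity
    have h1 : HasDerivAt (fun w : ℂ => (x : ℂ) + w ^ 2 * I) (2 * (r : ℂ) * I) (r : ℂ) := by
      have := (((hasDerivAt_id (r : ℂ)).pow 2).mul_const I).const_add (x : ℂ)
      refine HasDerivAt.congr_deriv this ?_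
      simp
    have h2 := ((diffAt_H hu ht).hasDerivAt.comp (r : ℂ) h1).comp_ofReal
    have h3 : HasDerivAt (fun y : ℝ => (u (x + (y : ℂ) ^ 2 * I)).im)
        (deriv u (x + (r : ℂ) ^ 2 * I) * (2 * (r : ℂ) * I)).im r :=
      imCLM.hasFDerivAt.comp_hasDerivAt r h2
    have h4 := h3.div ((hasDerivAt_id r).pow 2) (by simpa using hr.ne')
    refine ⟨_, h4, ?_⟩
    have h5 := hN _ ht
    rw [him] at h5
    have h6 : ‖dev u (x + (r : ℂ) ^ 2 * I)‖ ≤ C * r := by
      apply le_of_sq_le_sq_aux _ _ (by positivity)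
      nlinarith
    have h7 : |(dev u (x + (r : ℂ) ^ 2 * I)).re| ≤ C * r := (abs_re_le_norm _).trans h6
    have h8 : (dev u (x + (r : ℂ) ^ 2 * I)).re = r ^ 2 * (deriv u (x + (r : ℂ) ^ 2 * I)).re
        - (u (x + (r : ℂ) ^ 2 * I)).im := by
      simp only [dev, him, sub_re, mul_re, ofReal_re, ofReal_im, zero_mul, sub_zero]
    rw [h8] at h7
    generalize deriv u (x + (r : ℂ) ^ 2 * I) = V at *
    generalize (u (x + (r : ℂ) ^ 2 * I)).im = Y at *
    have e : ((V * (2 * (r : ℂ) * I)).im * (id ^ 2) r - Y * (((2 : ℕ) : ℝ) * id r ^ (2 - 1) * 1)) /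
        (id ^ 2) r ^ 2 = (2 / r ^ 3) * (r ^ 2 * V.re - Y) := by
      simp
      field_simp
    rw [e, abs_mul, abs_of_pos (by positivity : 0 < 2 / r ^ 3)]
    calc 2 / r ^ 3 * |r ^ 2 * V.re - Y| ≤ 2 / r ^ 3 * (C * r) := by gcongr
      _ = 2 * C / r ^ 2 := by field_simp
  have hψ : ∀ r : ℝ, 0 < r → HasDerivAt (fun r : ℝ => -(2 * C) * r⁻¹) (2 * C / r ^ 2) r := by
    intro r hr
    have := (hasDerivAt_inv hr.ne').const_mul (-(2 * C))
    refine HasDerivAt.congr_deriv this ?_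
    field_simp
  have mono : ∀ e : ℝ, |e| = 1 → MonotoneOn (fun r : ℝ => -(2 * C) * r⁻¹ + e * φ r) (Ioi 0) := by
    intro e he
    have hh : ∀ r : ℝ, 0 < r → ∃ D : ℝ,
        HasDerivAt (fun r : ℝ => -(2 * C) * r⁻¹ + e * φ r) D r ∧ 0 ≤ D := by
      intro r hr
      obtain ⟨D, hD, hb⟩ := hd r hr
      refine ⟨_, (hψ r hr).add (hD.const_mul e), ?_⟩
      have : |e * D| ≤ 2 * C / r ^ 2 := by rw [abs_mul, he, one_mul]; exact hb
      linarith [neg_abs_le (e * D)]
    refine monotoneOn_of_deriv_nonneg (convex_Ioi 0) ?_ ?_ ?_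
    · intro r hr
      obtain ⟨D, hD, -⟩ := hh r hr
      exact hD.continuousAt.continuousWithinAt
    · intro r hr
      rw [interior_Ioi] at hr
      obtain ⟨D, hD, -⟩ := hh r hr
      exact hD.differentiableAt.differentiableWithinAt
    · intro r hr
      rw [interior_Ioi] at hr
      obtain ⟨D, hD, h0⟩ := hh r hr
      rw [hD.deriv]
      exact h0
  have hS0 : 0 < S := lt_of_lt_of_le hs hS
  have h1 := mono 1 (by simp) hs hS0 hS
  have h2 := mono (-1) (by simp) hs hS0 hS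
  simp only at h1 h2
  have h3 : 0 ≤ 2 * C * S⁻¹ := by positivity
  change |φ s - φ S| ≤ 2 * C / s
  rw [abs_le, div_eq_mul_inv]
  constructor <;> linarith

theorem horizontal {u : ℂ → ℂ} (hu : DifferentiableOn ℂ u {t | 0 < t.im}) {C : ℝ}
    (hN : ∀ t : ℂ, 0 < t.im → ‖dev u t‖ ^ 2 ≤ C ^ 2 * t.im) (hC : 0 ≤ C) (x : ℝ) {S : ℝ}
    (hS : 0 < S) :
    |(u (x + (S : ℂ) ^ 2 * I)).im / S ^ 2 - (u ((0 : ℝ) + (S : ℂ) ^ 2 * I)).im / S ^ 2|
      ≤ C * |x| / S ^ 3 := by
  have him : ∀ r : ℝ, ((r : ℂ) + (S : ℂ) ^ 2 * I).im = S ^ 2 := by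
    intro r
    simp [pow_two]
  have hd : ∀ r : ℝ, HasDerivAt (fun y : ℝ => (u (y + (S : ℂ) ^ 2 * I)).im)
      (deriv u (r + (S : ℂ) ^ 2 * I)).im r := by
    intro r
    have ht : 0 < ((r : ℂ) + (S : ℂ) ^ 2 * I).im := by rw [him]; positivity
    have h1 : HasDerivAt (fun w : ℂ => w + (S : ℂ) ^ 2 * I) 1 (r : ℂ) :=
      (hasDerivAt_id (r : ℂ)).add_const _
    have h2 := ((diffAt_H hu ht).hasDerivAt.comp (r : ℂ) h1).comp_ofReal
    rw [mul_one] at h2
    exact imCLM.hasFDerivAt.comp_hasDerivAt r h2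
  have hb : ∀ r : ℝ, ‖(deriv u (r + (S : ℂ) ^ 2 * I)).im‖ ≤ C / S := by
    intro r
    have ht : 0 < ((r : ℂ) + (S : ℂ) ^ 2 * I).im := by rw [him]; positivity
    have h5 := hN _ ht
    rw [him] at h5
    have h6 : ‖dev u (r + (S : ℂ) ^ 2 * I)‖ ≤ C * S := by
      apply le_of_sq_le_sq_aux _ _ (by positivity)
      nlinarith
    have h7 : |(dev u (r + (S : ℂ) ^ 2 * I)).im| ≤ C * S := (abs_im_le_norm _).trans h6
    have h8 : (dev u (r + (S : ℂ) ^ 2 * I)).im = S ^ 2 * (deriv u (r + (S : ℂ) ^ 2 * I)).im := by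
      simp only [dev, him, sub_im, mul_im, ofReal_re, ofReal_im, zero_mul, add_zero, sub_zero]
    rw [h8, abs_mul, abs_of_pos (by positivity : 0 < S ^ 2)] at h7
    rw [Real.norm_eq_abs, le_div_iff₀ hS]
    nlinarith
  have h1 := (convex_univ (𝕜 := ℝ) (E := ℝ)).norm_image_sub_le_of_norm_hasDerivWithin_le
    (f := fun y : ℝ => (u (y + (S : ℂ) ^ 2 * I)).im)
    (f' := fun r : ℝ => (deriv u (r + (S : ℂ) ^ 2 * I)).im) (C := C / S)
    (fun r _ => (hd r).hasDerivWithinAt) (fun r _ => hb r) (mem_univ 0) (mem_univ x)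
  rw [Real.norm_eq_abs, Real.norm_eq_abs, sub_zero] at h1
  rw [← sub_div, abs_div, abs_of_pos (by positivity : 0 < S ^ 2), div_le_iff₀ (by positivity)]
  calc _ ≤ C / S * |x| := h1
    _ = C * |x| / S ^ 3 * S ^ 2 := by field_simp

theorem exists_slope {u : ℂ → ℂ} (hu : DifferentiableOn ℂ u {t | 0 < t.im}) {C : ℝ}
    (hN : ∀ t : ℂ, 0 < t.im → ‖dev u t‖ ^ 2 ≤ C ^ 2 * t.im) (hC : 0 ≤ C) :
    ∃ b : ℝ, ∀ t : ℂ, 0 < t.im → ((u t).im - b * t.im) ^ 2 ≤ 4 * C ^ 2 * t.im := by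
  set q : ℕ → ℝ := fun n =>
    (u ((0 : ℝ) + (((n : ℝ) + 1 : ℝ) : ℂ) ^ 2 * I)).im / ((n : ℝ) + 1) ^ 2 with hq
  have hlim : Tendsto (fun n : ℕ => 1 / ((n : ℝ) + 1)) atTop (𝓝 0) :=
    tendsto_one_div_add_atTop_nhds_zero_nat
  have hc : CauchySeq q := by
    refine cauchySeq_of_le_tendsto_0' (fun n : ℕ => 2 * C * (1 / ((n : ℝ) + 1))) ?_ ?_
    · intro n m hnm
      have h1 := vertical hu hN hC 0 (s := (n : ℝ) + 1) (S := (m : ℝ) + 1) (by positivity)
        (by exact_mod_cast Nat.succ_le_succ hnm)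
      rw [Real.dist_eq, mul_one_div]
      exact h1
    · simpa using hlim.const_mul (2 * C)
  obtain ⟨b, hb⟩ := cauchySeq_tendsto_of_complete hc
  refine ⟨b, fun t ht => ?_⟩
  set s := Real.sqrt t.im with hs
  have hs0 : 0 < s := Real.sqrt_pos.mpr ht
  have hs2 : s ^ 2 = t.im := Real.sq_sqrt ht.le
  have hts : (t.re : ℂ) + (s : ℂ) ^ 2 * I = t := by
    rw [← ofReal_pow, hs2]; exact re_add_im t
  have h1 : ∀ᶠ n : ℕ in atTop, |(u t).im / s ^ 2 - q n|
      ≤ 2 * C / s + C * |t.re| * (1 / ((n : ℝ) + 1)) ^ 3 := by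
    filter_upwards [eventually_ge_atTop ⌈s⌉₊] with n hn
    have hsn : s ≤ (n : ℝ) + 1 := by
      have : (⌈s⌉₊ : ℝ) ≤ n := by exact_mod_cast hn
      linarith [Nat.le_ceil s]
    have h2 := vertical hu hN hC t.re hs0 hsn
    have h3 := horizontal hu hN hC t.re (S := (n : ℝ) + 1) (by positivity)
    rw [hts] at h2
    have e : C * |t.re| * (1 / ((n : ℝ) + 1)) ^ 3 = C * |t.re| / ((n : ℝ) + 1) ^ 3 := by
      field_simp
    rw [e]
    exact (abs_sub_le _ _ _).trans (add_le_add h2 h3)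
  have h2 : |(u t).im / s ^ 2 - b| ≤ 2 * C / s + C * |t.re| * 0 ^ 3 :=
    le_of_tendsto_of_tendsto ((tendsto_const_nhds.sub hb).abs)
      (tendsto_const_nhds.add ((hlim.pow 3).const_mul _)) h1
  have h3 : |(u t).im / s ^ 2 - b| ≤ 2 * C / s := by simpa using h2
  have h4 : (u t).im - b * t.im = ((u t).im / s ^ 2 - b) * s ^ 2 := by
    rw [← hs2]; field_simp
  rw [h4, mul_pow, ← sq_abs ((u t).im / s ^ 2 - b), ← hs2]
  calc |(u t).im / s ^ 2 - b| ^ 2 * (s ^ 2) ^ 2 ≤ (2 * C / s) ^ 2 * (s ^ 2) ^ 2 := by gcongr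
    _ = 4 * C ^ 2 * s ^ 2 := by field_simp; ring

theorem dev_re_eq_zero {u : ℂ → ℂ} (hu : DifferentiableOn ℂ u {t | 0 < t.im}) {C : ℝ}
    (hN : ∀ t : ℂ, 0 < t.im → ‖dev u t‖ ^ 2 ≤ C ^ 2 * t.im) (hC : 0 ≤ C) {t : ℂ}
    (ht : 0 < t.im) : (dev u t).re = 0 := by
  obtain ⟨b, hb⟩ := exists_slope hu hN hC
  have key : ∀ e : ℝ, |e| = 1 → ∀ d : ℝ, 0 < d → e * (dev u t).re ≤ d := by
    intro e he d hd
    have he2 : e ^ 2 = 1 := by rw [← sq_abs, he]; norm_num
    set K : ℝ := C ^ 2 / d + 1 with hK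
    have hKd : K * d = C ^ 2 + d := by rw [hK]; field_simp
    have hK0 : 0 < K := by positivity
    set g : ℂ → ℂ := fun s => (e : ℂ) * u s + ((K - e * b : ℝ) : ℂ) * s + (d : ℂ) * I with hg
    have hgi : ∀ s : ℂ, (g s).im = e * ((u s).im - b * s.im) + K * s.im + d := by
      intro s
      simp only [hg, add_im, mul_im, ofReal_re, ofReal_im, zero_mul, add_zero, I_im, I_re, mul_one]
      ring
    have hgd : DifferentiableOn ℂ g {t | 0 < t.im} :=
      ((hu.const_mul _).add (differentiableOn_id.const_mul _)).add_const _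
    have hgm : ∀ s : ℂ, 0 < s.im → 0 < (g s).im := by
      intro s hs
      rw [hgi]
      have h1 := hb s hs
      have h2 : (e * ((u s).im - b * s.im)) ^ 2 < (K * s.im + d) ^ 2 := by
        rw [mul_pow, he2, one_mul]
        have h3 : 4 * (K * d) * s.im ≤ (K * s.im + d) ^ 2 := by
          nlinarith [sq_nonneg (K * s.im - d)]
        rw [hKd] at h3
        nlinarith [mul_pos hd hs]
      have h4 := abs_lt_of_sq_lt_sq h2 (by positivity)
      linarith [neg_abs_le (e * ((u s).im - b * s.im))]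
    have h1 := schwarz_pick_H hgd hgm ht
    have h2 : HasDerivAt g ((e : ℂ) * deriv u t + ((K - e * b : ℝ) : ℂ) * 1) t :=
      (((diffAt_H hu ht).hasDerivAt.const_mul _).add ((hasDerivAt_id t).const_mul _)).add_const _
    rw [h2.deriv, hgi] at h1
    have h3 := mul_le_mul_of_nonneg_right
      (re_le_norm ((e : ℂ) * deriv u t + ((K - e * b : ℝ) : ℂ) * 1)) ht.le
    simp only [add_re, mul_re, ofReal_re, ofReal_im, zero_mul, sub_zero, mul_one] at h3
    have h4 : (dev u t).re = t.im * (deriv u t).re - (u t).im := by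
      simp only [dev, sub_re, mul_re, ofReal_re, ofReal_im, zero_mul, sub_zero]
    rw [mul_one] at h1
    rw [h4]
    nlinarith
  have h1 : (dev u t).re ≤ 0 := by
    refine le_of_forall_pos_le_add fun d hd => ?_
    have := key 1 (by simp) d hd
    linarith
  have h2 : -(dev u t).re ≤ 0 := by
    refine le_of_forall_pos_le_add fun d hd => ?_
    have := key (-1) (by simp) d hd
    linarith
  linarith

/-- Flatness: a holomorphic function on the upper half plane that avoids `ℤ + ℤ t` is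
`a + b t` with real constants `a, b`. -/
theorem flat_of_landau (A : ℝ)
    (hL : ∀ v : ℂ → ℂ, DifferentiableOn ℂ v {t | 0 < t.im} →
      (∀ t : ℂ, 0 < t.im → ∀ n : ℤ, v t ≠ n) →
      ∀ t : ℂ, 0 < t.im → ‖deriv v t‖ * t.im ≤ |(v t).im| + A)
    (u : ℂ → ℂ) (hu : DifferentiableOn ℂ u {t | 0 < t.im})
    (h0 : ∀ t : ℂ, 0 < t.im → ∀ m n : ℤ, u t ≠ m + n * t) :
    ∃ a b : ℝ, ∀ t : ℂ, 0 < t.im → u t = a + b * t := by
  have hA : 0 ≤ A := by
    have h2 := hL (fun _ => (1 / 2 : ℂ)) (differentiableOn_const _) (fun t _ n h => by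
      have h3 : (2 * n : ℂ) = 1 := by rw [← h]; norm_num
      have h4 : 2 * n = 1 := by exact_mod_cast h3
      omega) I (by simp)
    simpa using h2
  set C := Real.sqrt (2 * A + 2 * A ^ 2) with hC
  have hC0 : 0 ≤ C := Real.sqrt_nonneg _
  have hC2 : C ^ 2 = 2 * A + 2 * A ^ 2 := Real.sq_sqrt (by positivity)
  have hre : ∀ v : ℂ → ℂ, Avoid v → ∀ t : ℂ, 0 < t.im → (dev v t).re = 0 := by
    intro v hv t ht
    exact dev_re_eq_zero hv.1 (fun s hs => by rw [hC2]; exact dev_le hA hL hv hs) hC0 ht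
  have hav : Avoid u := ⟨hu, h0⟩
  have hz : ∀ t : ℂ, 0 < t.im → dev u t = 0 := by
    intro t ht
    have hdet : (0 : ℤ) * 0 - (-1) * 1 = 1 := by norm_num
    have hdet' : (0 : ℤ) * 0 - 1 * (-1) = 1 := by norm_num
    have hs := moebius_im_pos hdet' ht
    have ht0 : t ≠ 0 := by rintro rfl; simp at ht
    set s : ℂ := (((0 : ℤ) : ℂ) * t + (1 : ℤ)) / ((-1 : ℤ) * t + (0 : ℤ)) with hsd
    have hst : (((0 : ℤ) : ℂ) * s + (-1 : ℤ)) / ((1 : ℤ) * s + (0 : ℤ)) = t := by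
      rw [hsd]
      push_cast
      simp [div_neg]
    have h1 := hre _ (hav.act hdet) s hs
    rw [dev_act hdet hu hs, hst] at h1
    have h2 := hre u hav t ht
    simp only [Int.cast_one, one_mul, Int.cast_zero, add_zero, mul_re, conj_re, conj_im, h2,
      mul_zero, neg_mul, zero_sub, neg_neg] at h1
    have h3 : (dev u t).im = 0 := by
      rcases mul_eq_zero.mp h1 with h | h
      · exact absurd h hs.ne'
      · exact h
    exact Complex.ext h2 h3
  obtain ⟨b, hb⟩ := exists_slope (C := 0) hu (fun t ht => by simp [hz t ht]) le_rfl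
  have hb' : ∀ t : ℂ, 0 < t.im → (u t).im = b * t.im := by
    intro t ht
    have := hb t ht
    nlinarith [sq_nonneg ((u t).im - b * t.im)]
  have hder : ∀ t : ℂ, 0 < t.im → HasDerivAt (fun s => u s - b * s) 0 t := by
    intro t ht
    have h1 := (diffAt_H hu ht).hasDerivAt.sub ((hasDerivAt_id t).const_mul (b : ℂ))
    refine HasDerivAt.congr_deriv h1 ?_
    have h2 := hz t ht
    simp only [dev, hb' t ht] at h2
    have h3 : (t.im : ℂ) ≠ 0 := by exact_mod_cast ht.ne'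
    apply mul_left_cancel₀ h3
    push_cast at h2
    linear_combination h2
  have hconst : ∀ t : ℂ, 0 < t.im → u t - b * t = u I - b * I := by
    intro t ht
    have h1 := convex_H.norm_image_sub_le_of_norm_hasDerivWithin_le (𝕜 := ℂ)
      (f := fun s => u s - b * s) (f' := fun _ => 0) (C := 0)
      (fun s hs => (hder s hs).hasDerivWithinAt) (fun _ _ => by simp)
      (show I ∈ {t : ℂ | 0 < t.im} by simp) ht
    rw [zero_mul, norm_le_zero_iff, sub_eq_zero] at h1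
    exact h1
  refine ⟨(u I).re, b, fun t ht => ?_⟩
  have h1 := hconst t ht
  have h2 := hb' I (by simp)
  have h3 : u I - b * I = (u I).re := by
    apply Complex.ext
    · simp
    · simp [h2]
  linear_combination h1 + h3

end MPb1b13a.Disc
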