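import Pool.Agent.Lib.MP_b1b13a_lc.Disc.Landau

/-!
Flatness with one exceptional point.
-/

namespace MPb1b13a.Disc

open Complex Set Filter Topology Metric

theorem flat_of_dev {u : ℂ → ℂ} (hu : DifferentiableOn ℂ u {t | 0 < t.im}) {C : ℝ} (hC : 0 ≤ C)
    (hN : ∀ t : ℂ, 0 < t.im → ‖dev u t‖ ^ 2 ≤ C ^ 2 * t.im) :
    ∃ a b : ℝ, ∀ t : ℂ, 0 < t.im → u t = a + b * t := by
  have hdet : (0 : ℤ) * 0 - (-1) * 1 = 1 := by norm_num
  have hdet' : (0 : ℤ) * 0 - 1 * (-1) = 1 := by norm_num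
  have hS : DifferentiableOn ℂ (act 0 (-1) 1 0 u) {t | 0 < t.im} := fun s hs =>
    (act_hasDerivAt hdet hu hs).differentiableAt.differentiableWithinAt
  have hN' : ∀ s : ℂ, 0 < s.im → ‖dev (act 0 (-1) 1 0 u) s‖ ^ 2 ≤ C ^ 2 * s.im := by
    intro s hs
    have h1 := hN _ (moebius_im_pos hdet hs)
    have hn := normSq_pos.mpr (denom_ne_zero hdet hs)
    rw [moebius_im hdet hs, ← mul_div_assoc, le_div_iff₀ hn] at h1
    rw [dev_act hdet hu hs, norm_mul, mul_pow, Complex.norm_conj, Complex.sq_norm, mul_comm]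
    exact h1
  have hz : ∀ t : ℂ, 0 < t.im → dev u t = 0 := by
    intro t ht
    have hs := moebius_im_pos hdet' ht
    have ht0 : t ≠ 0 := by rintro rfl; simp at ht
    set s : ℂ := (((0 : ℤ) : ℂ) * t + (1 : ℤ)) / ((-1 : ℤ) * t + (0 : ℤ)) with hsd
    have hst : (((0 : ℤ) : ℂ) * s + (-1 : ℤ)) / ((1 : ℤ) * s + (0 : ℤ)) = t := by
      rw [hsd]
      push_cast
      simp [div_neg]
    have h1 := dev_re_eq_zero hS hN' hC hs
    rw [dev_act hdet hu hs, hst] at h1
    have h2 := dev_re_eq_zero hu hN hC ht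
    simp only [Int.cast_one, one_mul, Int.cast_zero, add_zero, mul_re, conj_re, conj_im, h2,
      mul_zero, neg_mul, zero_sub, neg_neg] at h1
    have h3 : (dev u t).im = 0 := by
      rcases mul_eq_zero.mp h1 with h | h
      · exact absurd h hs.ne'
      · exact h
    exact Complex.ext h2 h3
  obtain ⟨b, hb⟩ := exists_slope (C := 0) hu (fun t ht => by simp [hz t ht]) le_rfl
  have hb' : ∀ t : ℂ, 0 < t.im → (u t).im = b * t.im := by
    intro t ht
    have := hb t ht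
    nlinarith [sq_nonneg ((u t).im - b * t.im)]
  have hder : ∀ t : ℂ, 0 < t.im → HasDerivAt (fun s => u s - b * s) 0 t := by
    intro t ht
    have h1 := (diffAt_H hu ht).hasDerivAt.sub ((hasDerivAt_id t).const_mul (b : ℂ))
    refine HasDerivAt.congr_deriv h1 ?_
    have h2 := hz t ht
    simp only [dev, hb' t ht] at h2
    have h3 : (t.im : ℂ) ≠ 0 := by exact_mod_cast ht.ne'
    apply mul_left_cancel₀ h3
    push_cast at h2
    linear_combination h2
  have hconst : ∀ t : ℂ, 0 < t.im → u t - b * t = u I - b * I := by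
    intro t ht
    have h1 := convex_H.norm_image_sub_le_of_norm_hasDerivWithin_le (𝕜 := ℂ)
      (f := fun s => u s - b * s) (f' := fun _ => 0) (C := 0)
      (fun s hs => (hder s hs).hasDerivWithinAt) (fun _ _ => by simp)
      (show I ∈ {t : ℂ | 0 < t.im} by simp) ht
    rw [zero_mul, norm_le_zero_iff, sub_eq_zero] at h1
    exact h1
  refine ⟨(u I).re, b, fun t ht => ?_⟩
  have h1 := hconst t ht
  have h2 := hb' I (by simp)
  have h3 : u I - b * I = (u I).re := by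
    apply Complex.ext
    · simp
    · simp [h2]
  linear_combination h1 + h3

/-- The Landau inequality on a hyperbolic disc. -/
theorem landau_disc {A : ℝ}
    (hL : ∀ v : ℂ → ℂ, DifferentiableOn ℂ v {t | 0 < t.im} →
      (∀ t : ℂ, 0 < t.im → ∀ n : ℤ, v t ≠ n) →
      ∀ t : ℂ, 0 < t.im → ‖deriv v t‖ * t.im ≤ |(v t).im| + A)
    {v : ℂ → ℂ} (hv : DifferentiableOn ℂ v {t | 0 < t.im}) {s : ℂ} (hs : 0 < s.im) {r : ℝ}
    (hr0 : 0 < r) (hr1 : r ≤ 1)
    (h : ∀ t : ℂ, 0 < t.im → ‖t - s‖ < r * ‖t - (starRingEnd ℂ) s‖ → ∀ n : ℤ, v t ≠ n) :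
    r * (‖deriv v s‖ * s.im) ≤ |(v s).im| + A := by
  set z : ℂ → ℂ := fun w => r * ((w - I) / (w + I)) with hz
  have hzr : ∀ w : ℂ, 0 < w.im → ‖z w‖ < r := by
    intro w hw
    simp only [hz, norm_mul, norm_real, Real.norm_eq_abs, abs_of_pos hr0]
    exact mul_lt_of_lt_one_right hr0 (norm_cay_lt_one hw)
  have hne : ∀ w : ℂ, 0 < w.im → 1 - z w ≠ 0 := by
    intro w hw h0
    have h1 : z w = 1 := by linear_combination -h0
    have := hzr w hw
    rw [h1, norm_one] at this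
    linarith
  set ψ : ℂ → ℂ := fun w => s.re + s.im * (I * (1 + z w) / (1 - z w)) with hψ
  have hψm : ∀ w : ℂ, 0 < w.im → 0 < (ψ w).im := by
    intro w hw
    have := cayley_im ((hzr w hw).trans_le hr1)
    simp only [hψ, add_im, ofReal_im, mul_im, ofReal_re, zero_mul, add_zero, zero_add]
    exact mul_pos hs this
  have hψd : ∀ w : ℂ, 0 < w.im → DifferentiableAt ℂ ψ w := by
    intro w hw
    have h1 := hne w hw
    have h2 := add_I_ne_zero hw
    have h3 : DifferentiableAt ℂ z w := by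
      simp only [hz]
      fun_prop (disch := assumption)
    simp only [hψ]
    fun_prop (disch := assumption)
  have hψr : ∀ w : ℂ, 0 < w.im → ‖ψ w - s‖ < r * ‖ψ w - (starRingEnd ℂ) s‖ := by
    intro w hw
    have h1 := hne w hw
    have e0 : s = s.re + s.im * I := (re_add_im s).symm
    have e0' : (starRingEnd ℂ) s = s.re - s.im * I := by apply Complex.ext <;> simp
    have e1 : ψ w - s = z w * (ψ w - (starRingEnd ℂ) s) := by
      rw [e0']
      nth_rewrite 1 [e0]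
      simp only [hψ]
      field_simp
      ring
    rw [e1, norm_mul]
    exact mul_lt_mul_of_pos_right (hzr w hw)
      (norm_pos_iff.mpr (sub_conj_ne_zero (hψm w hw) hs))
  have hI : 0 < (I : ℂ).im := by simp
  have hz0 : z I = 0 := by simp [hz]
  have hψ0 : ψ I = s := by
    simp only [hψ, hz0]
    apply Complex.ext <;> simp
  have hz' : HasDerivAt z (r * ((1 * (I + I) - (I - I) * 1) / (I + I) ^ 2)) I :=
    (((hasDerivAt_id I).sub_const I).div ((hasDerivAt_id I).add_const I)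
      (add_I_ne_zero hI)).const_mul _
  have hψ' : HasDerivAt ψ (s.im * r) I := by
    have h1 := ((((hz'.const_add 1).const_mul I).div (hz'.const_sub 1) (hne I hI)).const_mul
      (s.im : ℂ)).const_add (s.re : ℂ)
    refine HasDerivAt.congr_deriv h1 ?_
    rw [hz0]
    have : (I + I : ℂ) ≠ 0 := add_I_ne_zero hI
    field_simp
    ring
  have h1 := hL (fun w => v (ψ w)) (fun w hw =>
    ((diffAt_H hv (hψm w hw)).comp w (hψd w hw)).differentiableWithinAt)
    (fun w hw => h _ (hψm w hw) (hψr w hw)) I hI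
  have h2 : HasDerivAt (fun w => v (ψ w)) (deriv v s * (s.im * r)) I := by
    have h3 : HasDerivAt v (deriv v s) (ψ I) := by
      rw [hψ0]; exact (diffAt_H hv hs).hasDerivAt
    exact h3.comp I hψ'
  rw [h2.deriv] at h1
  simp only [hψ0, norm_mul, norm_real, Real.norm_eq_abs, abs_of_pos hs, abs_of_pos hr0, I_im,
    mul_one] at h1
  linarith

theorem lens' {w : ℂ} {b e : ℝ} (he : 0 ≤ e)
    (h : ∀ n : ℤ, |b - n| ≤ 1 → ‖w - n‖ ≤ |b - n| + e) : ‖w - b‖ ^ 2 ≤ 2 * e + e ^ 2 := by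
  have key : ∀ n : ℤ, |b - n| ≤ 1 → 0 ≤ (w.re - b) * (b - n) → ‖w - b‖ ^ 2 ≤ 2 * e + e ^ 2 := by
    intro n h1 h2
    have h3 : ‖w - n‖ ^ 2 ≤ (|b - n| + e) ^ 2 := pow_le_pow_left₀ (norm_nonneg _) (h n h1) 2
    rw [Complex.sq_norm, normSq_apply] at h3 ⊢
    simp only [sub_re, intCast_re, sub_im, intCast_im, sub_zero, ofReal_re, ofReal_im] at h3 ⊢
    have h4 : |b - n| ^ 2 = (b - n) ^ 2 := sq_abs _
    nlinarith [mul_le_mul_of_nonneg_right h1 he]
  rcases le_total 0 (w.re - b) with hp | hp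
  · refine key ⌊b⌋ ?_ (mul_nonneg hp (by linarith [Int.floor_le b]))
    rw [abs_le]; constructor <;> linarith [Int.floor_le b, Int.lt_floor_add_one b]
  · refine key ⌈b⌉ ?_ (mul_nonneg_of_nonpos_of_nonpos hp (by linarith [Int.le_ceil b]))
    rw [abs_le]; constructor <;> linarith [Int.le_ceil b, Int.ceil_lt_add_one b]

theorem normSq_sub_conj (s c : ℂ) :
    ‖s - (starRingEnd ℂ) c‖ ^ 2 = ‖s - c‖ ^ 2 + 4 * s.im * c.im := by
  rw [Complex.sq_norm, Complex.sq_norm, normSq_apply, normSq_apply]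
  simp
  ring

theorem dev_sq_le_far {A M : ℝ} (hA : 0 ≤ A)
    (hL : ∀ v : ℂ → ℂ, DifferentiableOn ℂ v {t | 0 < t.im} →
      (∀ t : ℂ, 0 < t.im → ∀ n : ℤ, v t ≠ n) →
      ∀ t : ℂ, 0 < t.im → ‖deriv v t‖ * t.im ≤ |(v t).im| + A)
    {u : ℂ → ℂ} (hu : DifferentiableOn ℂ u {t | 0 < t.im}) {c : ℂ} (hc : 0 < c.im) (hM : c.im ≤ M)
    (h0 : ∀ t : ℂ, 0 < t.im → t ≠ c → ∀ m n : ℤ, u t ≠ m + n * t) {s : ℂ} (hs : 1 / 2 ≤ s.im)
    (hfar : ‖s - (starRingEnd ℂ) c‖ ≤ 2 * ‖s - c‖) :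
    ‖dev u s‖ ^ 2 ≤ (A + 8 * M * (1 + 2 * A)) * (3 + 4 * A) * s.im := by
  have hs0 : 0 < s.im := by linarith
  have hp : 0 < ‖s - (starRingEnd ℂ) c‖ := norm_pos_iff.mpr (sub_conj_ne_zero hs0 hc)
  set r : ℝ := ‖s - c‖ / ‖s - (starRingEnd ℂ) c‖ with hr
  have hr2 : 1 / 2 ≤ r := by rw [hr, le_div_iff₀ hp]; linarith
  have hr0 : 0 < r := by linarith
  have hr1 : r ≤ 1 := by rw [hr, div_le_one hp]; exact (norm_sub_lt_norm_sub_conj hs0 hc).le
  have hrr : (1 - r ^ 2) * s.im ≤ 4 * M := by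
    have e1 := normSq_sub_conj s c
    have e2 : s.im ≤ ‖s - (starRingEnd ℂ) c‖ := by
      have := (le_abs_self _).trans (abs_im_le_norm (s - (starRingEnd ℂ) c))
      simp only [sub_im, conj_im] at this
      linarith
    have e3 : 1 - r ^ 2 = 4 * s.im * c.im / ‖s - (starRingEnd ℂ) c‖ ^ 2 := by
      rw [hr, div_pow, eq_div_iff (by positivity), sub_mul, div_mul_cancel₀ _ (by positivity), e1]
      ring
    rw [e3, div_mul_eq_mul_div, div_le_iff₀ (by positivity)]
    have e4 : s.im ^ 2 ≤ ‖s - (starRingEnd ℂ) c‖ ^ 2 := pow_le_pow_left₀ hs0.le e2 2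
    have hM0 : 0 ≤ M := hc.le.trans hM
    calc 4 * s.im * c.im * s.im = 4 * c.im * s.im ^ 2 := by ring
      _ ≤ 4 * M * ‖s - (starRingEnd ℂ) c‖ ^ 2 := by gcongr
  set η : ℝ := 1 / r - 1 with hη
  have hη0 : 0 ≤ η := by rw [hη, sub_nonneg, le_div_iff₀ hr0]; linarith
  have hη1 : η ≤ 1 := by rw [hη, sub_le_iff_le_add, div_le_iff₀ hr0]; linarith
  have hη2 : η * s.im ≤ 8 * M := by
    have : η ≤ 2 * (1 - r ^ 2) := by
      rw [hη, sub_le_iff_le_add, div_le_iff₀ hr0]
      nlinarith [mul_nonneg (sub_nonneg.mpr hr1) (sub_nonneg.mpr hr2),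
        mul_nonneg (mul_nonneg (sub_nonneg.mpr hr1) hr0.le) hr0.le]
    nlinarith
  have hε0 : 0 ≤ A / s.im := div_nonneg hA hs0.le
  have hε1 : A / s.im ≤ 2 * A := by rw [div_le_iff₀ hs0]; nlinarith
  set e : ℝ := A / s.im + η * (1 + 2 * A) with he
  have he0 : 0 ≤ e := by positivity
  have h1 : ∀ n : ℤ, |(u s).im / s.im - n| ≤ 1 →
      ‖deriv u s - n‖ ≤ |(u s).im / s.im - n| + e := by
    intro n hn
    have hv : DifferentiableOn ℂ (fun t => u t - n * t) {t | 0 < t.im} :=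
      hu.sub (differentiableOn_id.const_mul _)
    have h2 := landau_disc hL hv hs0 hr0 hr1 (fun t ht hlt m h => by
      refine h0 t ht ?_ m n (by linear_combination h)
      rintro rfl
      have e1 : ‖t - (starRingEnd ℂ) s‖ = ‖s - (starRingEnd ℂ) t‖ := by
        rw [← Complex.norm_conj, map_sub, conj_conj, norm_sub_rev]
      rw [e1, hr, div_mul_cancel₀ _ hp.ne', norm_sub_rev] at hlt
      exact lt_irrefl _ hlt)
    have h3 : deriv (fun t => u t - n * t) s = deriv u s - n := by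
      have := ((diffAt_H hu hs0).hasDerivAt.sub ((hasDerivAt_id s).const_mul (n : ℂ))).deriv
      rw [mul_one] at this
      exact this
    rw [h3] at h2
    simp only [sub_im, mul_im, intCast_re, intCast_im, zero_mul, add_zero] at h2
    have h4 : |(u s).im - n * s.im| = |(u s).im / s.im - n| * s.im := by
      rw [← abs_of_pos hs0, ← abs_mul, abs_of_pos hs0]
      congr 1
      field_simp
    rw [h4] at h2
    have h5 : ‖deriv u s - n‖ ≤ (|(u s).im / s.im - n| + A / s.im) * (1 + η) := by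
      have e1 : (|(u s).im / s.im - n| + A / s.im) * (1 + η)
          = (|(u s).im / s.im - n| * s.im + A) / (r * s.im) := by
        rw [hη]
        field_simp
        ring
      rw [e1, le_div_iff₀ (by positivity)]
      linarith
    have h6 : (|(u s).im / s.im - n| + A / s.im) * η ≤ η * (1 + 2 * A) := by
      rw [mul_comm]
      gcongr
    rw [he]
    linarith
  have h2 := lens' he0 h1
  have h3 : dev u s = s.im * (deriv u s - ((u s).im / s.im : ℝ)) := by
    have : (s.im : ℂ) ≠ 0 := by exact_mod_cast hs0.ne'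
    simp only [dev]
    push_cast
    field_simp
  have h4 : e * s.im ≤ A + 8 * M * (1 + 2 * A) := by
    rw [he, add_mul, div_mul_cancel₀ _ hs0.ne', mul_right_comm]
    gcongr
  have h5 : 2 + e ≤ 3 + 4 * A := by
    rw [he]
    nlinarith
  rw [h3, norm_mul, mul_pow, norm_real, Real.norm_eq_abs, sq_abs]
  calc s.im ^ 2 * ‖deriv u s - ((u s).im / s.im : ℝ)‖ ^ 2
      ≤ s.im ^ 2 * (2 * e + e ^ 2) := by gcongr
    _ = e * s.im * (2 + e) * s.im := by ring
    _ ≤ (A + 8 * M * (1 + 2 * A)) * (3 + 4 * A) * s.im := by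
      have : 0 ≤ A + 8 * M * (1 + 2 * A) := (by positivity : 0 ≤ e * s.im).trans h4
      gcongr

theorem moebius_im_le {a b c d : ℤ} (h : a * d - b * c = 1) {s : ℂ} (hs : 0 < s.im) :
    (((a : ℂ) * s + b) / (c * s + d)).im ≤ s.im + 1 / s.im := by
  have hn := normSq_pos.mpr (denom_ne_zero h hs)
  rw [moebius_im h hs, div_le_iff₀ hn]
  have e : normSq ((c : ℂ) * s + d) = (c * s.re + d) ^ 2 + (c * s.im) ^ 2 := by
    rw [normSq_apply]
    simp
    ring
  have p1 : 0 < 1 / s.im := by positivity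
  rcases eq_or_ne c 0 with rfl | hc
  · have hd : d ≠ 0 := by rintro rfl; simp at h
    have h1 : (1 : ℝ) ≤ (d : ℝ) ^ 2 := by
      have : 0 < d ^ 2 := by positivity
      exact_mod_cast this
    have h2 : 1 ≤ normSq (((0 : ℤ) : ℂ) * s + d) := by rw [e]; simpa using h1
    nlinarith [mul_le_mul_of_nonneg_left h2 (add_pos hs p1).le]
  · have h1 : (1 : ℝ) ≤ (c : ℝ) ^ 2 := by
      have : 0 < c ^ 2 := by positivity
      exact_mod_cast this
    have h2 : s.im ^ 2 ≤ normSq ((c : ℂ) * s + d) := by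
      rw [e]
      nlinarith [sq_nonneg (c * s.re + d), sq_nonneg s.im]
    have h3 : s.im = 1 / s.im * s.im ^ 2 := by field_simp
    nlinarith [mul_le_mul_of_nonneg_left h2 p1.le]

theorem moebius_sub {a b c d : ℤ} (h : a * d - b * c = 1) {s w : ℂ} (hs : (c : ℂ) * s + d ≠ 0)
    (hw : (c : ℂ) * w + d ≠ 0) : ((a : ℂ) * s + b) / (c * s + d) - (a * w + b) / (c * w + d)
      = (s - w) / ((c * s + d) * (c * w + d)) := by
  have h' : (a : ℂ) * d - b * c = 1 := by exact_mod_cast h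
  rw [div_sub_div _ _ hs hw]
  congr 1
  linear_combination (s - w) * h'

theorem exists_dev_bound {A : ℝ} (hA : 0 ≤ A)
    (hL : ∀ v : ℂ → ℂ, DifferentiableOn ℂ v {t | 0 < t.im} →
      (∀ t : ℂ, 0 < t.im → ∀ n : ℤ, v t ≠ n) →
      ∀ t : ℂ, 0 < t.im → ‖deriv v t‖ * t.im ≤ |(v t).im| + A)
    {u : ℂ → ℂ} (hu : DifferentiableOn ℂ u {t | 0 < t.im}) {p : ℂ} (hp : 0 < p.im)
    (h0 : ∀ t : ℂ, 0 < t.im → t ≠ p → ∀ m n : ℤ, u t ≠ m + n * t) :
    ∃ B : ℝ, 0 ≤ B ∧ ∀ t : ℂ, 0 < t.im → ‖dev u t‖ ^ 2 ≤ B * t.im := by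
  set K : Set ℂ := {t | 2 * ‖t - p‖ ≤ ‖t - (starRingEnd ℂ) p‖} with hK
  have hKH : ∀ t ∈ K, 0 < t.im := by
    intro t ht
    have h1 : (2 * ‖t - p‖) ^ 2 ≤ ‖t - (starRingEnd ℂ) p‖ ^ 2 :=
      pow_le_pow_left₀ (by positivity) ht 2
    rw [normSq_sub_conj] at h1
    by_contra hc
    have h2 : t.im * p.im ≤ 0 := mul_nonpos_of_nonpos_of_nonneg (not_lt.mp hc) hp.le
    have h3 : ‖t - p‖ ^ 2 ≤ 0 := by nlinarith
    have h4 : t = p := sub_eq_zero.mp (norm_eq_zero.mp (pow_eq_zero_iff two_ne_zero |>.mp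
      (le_antisymm h3 (sq_nonneg _))))
    exact hc (h4 ▸ hp)
  have hKc : IsCompact K := by
    refine Metric.isCompact_of_isClosed_isBounded (isClosed_le (by fun_prop) (by fun_prop)) ?_
    refine (isBounded_closedBall (x := p) (r := ‖p - (starRingEnd ℂ) p‖)).subset fun t ht => ?_
    rw [mem_closedBall, dist_eq_norm]
    have h1 : ‖t - (starRingEnd ℂ) p‖ ≤ ‖t - p‖ + ‖p - (starRingEnd ℂ) p‖ :=
      norm_sub_le_norm_sub_add_norm_sub _ _ _
    have h2 : 2 * ‖t - p‖ ≤ ‖t - (starRingEnd ℂ) p‖ := ht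
    linarith
  obtain ⟨B₁, hB₁⟩ := hKc.exists_bound_of_continuousOn (f := fun t => ‖dev u t‖ ^ 2 / t.im)
    fun t ht => by
      have h1 := hKH t ht
      have h2 : ContinuousAt (dev u) t :=
        ((continuous_ofReal.comp continuous_im).continuousAt.mul
          (analyticAt_H hu h1).deriv.continuousAt).sub
          ((continuous_ofReal.comp continuous_im).continuousAt.comp (diffAt_H hu h1).continuousAt)
      exact ((h2.norm.pow 2).div continuous_im.continuousAt h1.ne').continuousWithinAt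
  set M : ℝ := p.im + 1 / p.im with hM
  set B₂ : ℝ := (A + 8 * M * (1 + 2 * A)) * (3 + 4 * A) with hB₂
  have hB0 : 0 ≤ B₂ := by positivity
  refine ⟨max B₁ B₂, hB0.trans (le_max_right _ _), fun t ht => ?_⟩
  by_cases htK : t ∈ K
  · have h1 := (le_abs_self _).trans (hB₁ t htK)
    rw [div_le_iff₀ ht] at h1
    exact h1.trans (mul_le_mul_of_nonneg_right (le_max_left _ _) ht.le)
  refine le_trans ?_ (mul_le_mul_of_nonneg_right (le_max_right _ _) ht.le)
  obtain ⟨a, b, c, d, s, h, hs, rfl⟩ := exists_moebius ht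
  have hs0 : 0 < s.im := by linarith
  have h' : d * a - -b * -c = 1 := by linear_combination h
  have hC : (a : ℂ) * d - b * c = 1 := by exact_mod_cast h
  set q : ℂ := ((d : ℂ) * p + (-b : ℤ)) / ((-c : ℤ) * p + a) with hq
  have hq0 : 0 < q.im := moebius_im_pos h' hp
  have hqM : q.im ≤ M := moebius_im_le h' hp
  have hden := denom_ne_zero h' hp
  have hqp : ((a : ℂ) * q + b) / (c * q + d) = p := by
    rw [div_eq_iff (denom_ne_zero h hq0)]
    have e : q * (((-c : ℤ) : ℂ) * p + a) = d * p + (-b : ℤ) := div_mul_cancel₀ _ hden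
    push_cast at e
    linear_combination e
  have hact : DifferentiableOn ℂ (act a b c d u) {t | 0 < t.im} := fun w hw =>
    (act_hasDerivAt h hu hw).differentiableAt.differentiableWithinAt
  have hav : ∀ w : ℂ, 0 < w.im → w ≠ q → ∀ m n : ℤ, act a b c d u w ≠ m + n * w := by
    intro w hw hwq m n k
    have hne := denom_ne_zero h hw
    refine h0 _ (moebius_im_pos h hw) (fun k2 => hwq ?_) (m * a - n * b) (n * d - m * c) ?_
    · have e := moebius_sub h hne (denom_ne_zero h hq0)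
      rw [k2, hqp, sub_self, eq_comm, div_eq_zero_iff] at e
      exact sub_eq_zero.mp (e.resolve_right (mul_ne_zero hne (denom_ne_zero h hq0)))
    · simp only [act] at k
      apply mul_left_cancel₀ hne
      rw [k]
      push_cast
      have e : ((c : ℂ) * w + d) * (((a : ℂ) * w + b) / (c * w + d)) = a * w + b :=
        mul_div_cancel₀ _ hne
      linear_combination (-(m : ℂ) - n * w) * hC - ((n : ℂ) * d - m * c) * e
  have hfar : ‖s - (starRingEnd ℂ) q‖ ≤ 2 * ‖s - q‖ := by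
    have d1 := denom_ne_zero h hs0
    have d2 := denom_ne_zero h hq0
    have ec : (c : ℂ) * (starRingEnd ℂ) q + d = (starRingEnd ℂ) ((c : ℂ) * q + d) := by simp
    have d3 : (c : ℂ) * (starRingEnd ℂ) q + d ≠ 0 := by
      rw [ec]; exact (map_ne_zero _).mpr d2
    have e1 := moebius_sub h d1 d2
    have e2 := moebius_sub h d1 d3
    have e3 : ((a : ℂ) * (starRingEnd ℂ) q + b) / (c * (starRingEnd ℂ) q + d)
        = (starRingEnd ℂ) p := by rw [← hqp]; simp
    rw [hqp] at e1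
    rw [e3] at e2
    have k : ¬ 2 * ‖((a : ℂ) * s + b) / (c * s + d) - p‖
        ≤ ‖((a : ℂ) * s + b) / (c * s + d) - (starRingEnd ℂ) p‖ := htK
    rw [e1, e2, norm_div, norm_div, norm_mul, norm_mul, ec, Complex.norm_conj, ← mul_div_assoc,
      div_le_div_iff_of_pos_right (mul_pos (norm_pos_iff.mpr d1) (norm_pos_iff.mpr d2))] at k
    exact (not_le.mp k).le
  have h1 := dev_sq_le_far hA hL hact hq0 hqM hav hs hfar
  rw [dev_act h hu hs0, norm_mul, mul_pow, Complex.norm_conj, Complex.sq_norm] at h1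
  have hn : 0 < normSq ((c : ℂ) * s + d) := normSq_pos.mpr (denom_ne_zero h hs0)
  rw [moebius_im h hs0, ← mul_div_assoc, le_div_iff₀ hn, mul_comm]
  exact h1

/-- Flatness with one exceptional point. -/
theorem IsLam.flat_p {lam : ℂ → ℂ} (h : IsLam lam) {u : ℂ → ℂ}
    (hu : DifferentiableOn ℂ u {t | 0 < t.im}) {p : ℂ} (hp : 0 < p.im)
    (h0 : ∀ t : ℂ, 0 < t.im → t ≠ p → ∀ m n : ℤ, u t ≠ m + n * t) :
    ∃ a b : ℝ, ∀ t : ℂ, 0 < t.im → u t = a + b * t := by
  obtain ⟨A, hA⟩ := h.landau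
  obtain ⟨B, hB0, hB⟩ := exists_dev_bound (A := max A 0) (le_max_right _ _)
    (fun v hv hn t ht => (hA v hv hn t ht).trans (by gcongr; exact le_max_left _ _)) hu hp h0
  exact flat_of_dev hu (Real.sqrt_nonneg B) (by rw [Real.sq_sqrt hB0]; exact hB)

end MPb1b13a.Disc
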