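import Pool.Agent.Lib.MP_b1b13a_lc.Disc.WpInj

/-!
The cross ratio of the half period values of a lattice determines the lattice with its level two
structure up to a scalar.
-/

namespace MPb1b13a.Disc

open Filter Topology PeriodPair

/-- Two lattices with the same `g₂` and a common point of the cubic: one inclusion, shifted. -/
theorem add_mem_of_g₂_eq {L L' : PeriodPair} (hg : L.g₂ = L'.g₂) {z w : ℂ} (hz : z ∉ L.lattice)
    (hw : w ∉ L'.lattice) (h0 : L.weierstrassP z = L'.weierstrassP w)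
    (h1 : L.derivWeierstrassP z = L'.derivWeierstrassP w) {x : ℂ} (hx : x ∈ L.lattice) :
    x + (w - z) ∈ L'.lattice := by
  by_contra hne
  have hz' : z + (w - z) ∉ L'.lattice := by simpa using hw
  obtain ⟨s1, s2, -⟩ := shift_facts L' (w - z) hz'
  have loc : L.weierstrassP =ᶠ[𝓝 z] fun t => L'.weierstrassP (t + (w - z)) := by
    refine ode_unique (c := L.g₂ / 2) (wp_analyticAt L hz) s1 (by simpa using h0) ?_ ?_ ?_
    · rw [s2, L.deriv_weierstrassP]; simpa using h1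
    · filter_upwards [eventually_notMem_lattice L z] with s hs
      rw [L.deriv_weierstrassP, deriv_wp' L hs]
    · filter_upwards [eventually_add_notMem L' (w - z) z] with s hs
      rw [hg]
      exact (shift_facts L' (w - z) hs).2.2
  set S : Set ℂ := (L.lattice : Set ℂ) ∪ {s : ℂ | s + (w - z) ∈ L'.lattice} with hS
  have hc : S.Countable := (countable_lattice L).union (countable_shift L' _)
  have mem : ∀ s, s ∈ Sᶜ ↔ s ∉ L.lattice ∧ s + (w - z) ∉ L'.lattice := by
    intro s; simp [hS]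
  have glob : Set.EqOn L.weierstrassP (fun t => L'.weierstrassP (t + (w - z))) Sᶜ :=
    AnalyticOnNhd.eqOn_of_preconnected_of_eventuallyEq
      (fun s hs => wp_analyticAt L ((mem s).mp hs).1)
      (fun s hs => (shift_facts L' (w - z) ((mem s).mp hs).2).1)
      (preconnected_compl hc) ((mem z).mpr ⟨hz, hz'⟩) loc
  refine not_eventuallyEq_wp L hx (shift_facts L' (w - z) hne).1.continuousAt ?_
  filter_upwards [eventually_notMem_lattice L x, eventually_add_notMem L' (w - z) x] with s a b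
  exact (glob ((mem s).mpr ⟨a, b⟩)).symm

theorem mem_of_g₂_eq {L L' : PeriodPair} (hg : L.g₂ = L'.g₂) {z w : ℂ} (hz : z ∉ L.lattice)
    (hw : w ∉ L'.lattice) (h0 : L.weierstrassP z = L'.weierstrassP w)
    (h1 : L.derivWeierstrassP z = L'.derivWeierstrassP w) {x : ℂ} (hx : x ∈ L.lattice) :
    x ∈ L'.lattice := by
  have a := add_mem_of_g₂_eq hg hz hw h0 h1 hx
  have b := add_mem_of_g₂_eq hg hz hw h0 h1 L.lattice.zero_mem
  simpa using L'.lattice.sub_mem a b

/-- The period pair multiplied by a nonzero scalar. -/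
noncomputable def scalePair (L : PeriodPair) (c : ℂ) (hc : c ≠ 0) : PeriodPair where
  ω₁ := c * L.ω₁
  ω₂ := c * L.ω₂
  indep := LinearIndependent.pair_iff.mpr fun s t h =>
    LinearIndependent.pair_iff.mp L.indep s t (mul_left_cancel₀ hc (by
      simp only [Complex.real_smul] at h ⊢
      linear_combination h))

theorem mem_scalePair (L : PeriodPair) {c : ℂ} (hc : c ≠ 0) (x : ℂ) :
    c * x ∈ (scalePair L c hc).lattice ↔ x ∈ L.lattice := by
  simp only [mem_lattice, scalePair]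
  refine exists_congr fun m => exists_congr fun n => ⟨fun h => mul_left_cancel₀ hc ?_, fun h => ?_⟩
  · linear_combination h
  · linear_combination c * h

/-- The cross ratio of the half period values. -/
noncomputable def lamP (L : PeriodPair) : ℂ :=
  (L.weierstrassP ((L.ω₁ + L.ω₂) / 2) - L.weierstrassP (L.ω₂ / 2)) /
    (L.weierstrassP (L.ω₁ / 2) - L.weierstrassP (L.ω₂ / 2))

theorem lamP_ne_zero (L : PeriodPair) : lamP L ≠ 0 :=
  div_ne_zero (sub_ne_zero.mpr (e2_ne_e3 L).symm) (sub_ne_zero.mpr (e1_ne_e2 L))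

theorem lamP_ne_one (L : PeriodPair) : lamP L ≠ 1 := by
  intro h
  rw [lamP, div_eq_one_iff_eq (sub_ne_zero.mpr (e1_ne_e2 L))] at h
  exact e1_ne_e3 L (by linear_combination -h)

theorem sub_half_mem {L : PeriodPair} {z l : ℂ} (hz : z ∉ L.lattice) (hl : l ∈ L.lattice)
    (hl' : l / 2 ∉ L.lattice) (h : L.weierstrassP z = L.weierstrassP (l / 2)) :
    z - l / 2 ∈ L.lattice := by
  rcases (wp_eq_iff L hz hl').mp h with h | h
  · exact h
  · have := L.lattice.sub_mem h hl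
    rwa [show z + l / 2 - l = z - l / 2 by ring] at this

theorem half_wp'_zero (L : PeriodPair) : L.derivWeierstrassP (L.ω₁ / 2) = 0 :=
  (wp'_eq_zero_iff L L.ω₁_div_two_notMem_lattice).mpr
    (by rw [mul_div_cancel₀ _ two_ne_zero]; exact L.ω₁_mem_lattice)

/-- Lattices with the same half period values are equal. -/
theorem mem_iff_of_e_eq {L L' : PeriodPair}
    (h1 : L.weierstrassP (L.ω₁ / 2) = L'.weierstrassP (L'.ω₁ / 2))
    (h2 : L.weierstrassP (L.ω₂ / 2) = L'.weierstrassP (L'.ω₂ / 2)) (x : ℂ) :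
    x ∈ L.lattice ↔ x ∈ L'.lattice := by
  have h3 : L.weierstrassP ((L.ω₁ + L.ω₂) / 2) = L'.weierstrassP ((L'.ω₁ + L'.ω₂) / 2) := by
    linear_combination (e_symm L).1 - (e_symm L').1 - h1 - h2
  have hg : L.g₂ = L'.g₂ := by
    have a := (e_symm L).2 0
    have b := (e_symm L).2 1
    rw [h1, h2, h3] at a b
    linear_combination a - b - (e_symm L').2 0 + (e_symm L').2 1
  have hd : L.derivWeierstrassP (L.ω₁ / 2) = L'.derivWeierstrassP (L'.ω₁ / 2) := by
    rw [half_wp'_zero, half_wp'_zero]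
  exact ⟨mem_of_g₂_eq hg L.ω₁_div_two_notMem_lattice L'.ω₁_div_two_notMem_lattice h1 hd,
    mem_of_g₂_eq hg.symm L'.ω₁_div_two_notMem_lattice L.ω₁_div_two_notMem_lattice h1.symm hd.symm⟩

/-- Equal cross ratios: the lattices are homothetic, compatibly with the half periods. -/
theorem exists_scale_of_lamP_eq {L L' : PeriodPair} (h : lamP L = lamP L') :
    ∃ μ : ℂ, μ ≠ 0 ∧ (∀ x, μ * x ∈ L'.lattice ↔ x ∈ L.lattice) ∧
      μ * (L.ω₁ / 2) - L'.ω₁ / 2 ∈ L'.lattice ∧ μ * (L.ω₂ / 2) - L'.ω₂ / 2 ∈ L'.lattice := by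
  have n := sub_ne_zero.mpr (e1_ne_e2 L)
  have n' := sub_ne_zero.mpr (e1_ne_e2 L')
  obtain ⟨μ, hμ⟩ := IsAlgClosed.exists_pow_nat_eq
    ((L.weierstrassP (L.ω₁ / 2) - L.weierstrassP (L.ω₂ / 2)) /
      (L'.weierstrassP (L'.ω₁ / 2) - L'.weierstrassP (L'.ω₂ / 2))) two_pos
  have μ0 : μ ≠ 0 := by
    rintro rfl
    exact div_ne_zero n n' (by rw [← hμ]; simp)
  have s := (e_symm L).1
  have s' := (e_symm L').1
  rw [lamP, lamP, div_eq_div_iff n n'] at h
  rw [eq_div_iff n'] at hμ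
  have k2 : L.weierstrassP (L.ω₂ / 2) = μ ^ 2 * L'.weierstrassP (L'.ω₂ / 2) :=
    mul_right_cancel₀ n' (by
      linear_combination (-1 / 3 : ℂ) * h + (1 / 3 : ℂ) *
        (L'.weierstrassP (L'.ω₁ / 2) - L'.weierstrassP (L'.ω₂ / 2)) * s -
        (1 / 3 : ℂ) * (L.weierstrassP (L.ω₁ / 2) - L.weierstrassP (L.ω₂ / 2)) * s' -
        L'.weierstrassP (L'.ω₂ / 2) * hμ)
  have k1 : L.weierstrassP (L.ω₁ / 2) = μ ^ 2 * L'.weierstrassP (L'.ω₁ / 2) := by
    linear_combination k2 - hμ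
  have i0 : μ⁻¹ ≠ 0 := inv_ne_zero μ0
  have sc := wp_scale i0 (mem_scalePair L' i0)
  have e : ∀ x, x ∈ L.lattice ↔ x ∈ (scalePair L' μ⁻¹ i0).lattice := by
    refine mem_iff_of_e_eq ?_ ?_
    · rw [k1, show (scalePair L' μ⁻¹ i0).ω₁ / 2 = μ⁻¹ * (L'.ω₁ / 2) by simp only [scalePair]; ring,
        sc, inv_pow, inv_inv]
    · rw [k2, show (scalePair L' μ⁻¹ i0).ω₂ / 2 = μ⁻¹ * (L'.ω₂ / 2) by simp only [scalePair]; ring,
        sc, inv_pow, inv_inv]
  have hm : ∀ x, μ * x ∈ L'.lattice ↔ x ∈ L.lattice := fun x => by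
    rw [e x, ← mem_scalePair L' i0, inv_mul_cancel_left₀ μ0]
  have p0 : μ ^ 2 ≠ 0 := pow_ne_zero 2 μ0
  refine ⟨μ, μ0, hm, ?_, ?_⟩
  · refine sub_half_mem ((hm _).not.mpr L.ω₁_div_two_notMem_lattice) L'.ω₁_mem_lattice
      L'.ω₁_div_two_notMem_lattice ?_
    rw [wp_scale μ0 hm, k1, inv_mul_cancel_left₀ p0]
  · refine sub_half_mem ((hm _).not.mpr L.ω₂_div_two_notMem_lattice) L'.ω₂_mem_lattice
      L'.ω₂_div_two_notMem_lattice ?_
    rw [wp_scale μ0 hm, k2, inv_mul_cancel_left₀ p0]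

end MPb1b13a.Disc
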