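import Pool.Agent.Lib.MP_b1b13a_lc.Disc.Cover

/-!
The sharp Landau inequality, flatness, and the characterisation of the modular function by its
values at three points.
-/

namespace MPb1b13a.Disc

open Complex Set Filter Topology Metric

/-- Growth of the imaginary part of a self map of the half plane along vertical lines. -/
theorem im_le_mul {g : ℂ → ℂ} (hg : DifferentiableOn ℂ g {t | 0 < t.im})
    (hm : ∀ t : ℂ, 0 < t.im → 0 < (g t).im) (x : ℝ) {y : ℝ} (hy : 1 ≤ y) :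
    (g (x + y * I)).im ≤ (g (x + I)).im * y := by
  have him : ∀ r : ℝ, ((x : ℂ) + (r : ℂ) * I).im = r := by
    intro r
    simp
  have hd : ∀ r : ℝ, 0 < r → ∃ D : ℝ,
      HasDerivAt (fun r : ℝ => (g (x + r * I)).im / r) D r ∧ D ≤ 0 := by
    intro r hr
    have ht : 0 < ((x : ℂ) + (r : ℂ) * I).im := by rw [him]; exact hr
    have h1 : HasDerivAt (fun w : ℂ => (x : ℂ) + w * I) (1 * I) (r : ℂ) :=
      ((hasDerivAt_id (r : ℂ)).mul_const I).const_add (x : ℂ)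
    have h2 := ((diffAt_H hg ht).hasDerivAt.comp (r : ℂ) h1).comp_ofReal
    have h3 : HasDerivAt (fun y : ℝ => (g (x + (y : ℂ) * I)).im)
        (deriv g (x + (r : ℂ) * I) * (1 * I)).im r :=
      imCLM.hasFDerivAt.comp_hasDerivAt r h2
    refine ⟨_, h3.div (hasDerivAt_id r) hr.ne', div_nonpos_of_nonpos_of_nonneg ?_ (sq_nonneg _)⟩
    have h4 := schwarz_pick_H hg hm ht
    rw [him] at h4
    have h5 := mul_le_mul_of_nonneg_right (re_le_norm (deriv g (x + (r : ℂ) * I))) hr.le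
    simp only [one_mul, mul_im, I_im, mul_one, I_re, mul_zero, add_zero]
    linarith
  have anti : AntitoneOn (fun r : ℝ => (g (x + r * I)).im / r) (Ioi 0) := by
    refine antitoneOn_of_deriv_nonpos (convex_Ioi 0) ?_ ?_ ?_
    · intro r hr
      obtain ⟨D, hD, -⟩ := hd r hr
      exact hD.continuousAt.continuousWithinAt
    · intro r hr
      rw [interior_Ioi] at hr
      obtain ⟨D, hD, -⟩ := hd r hr
      exact hD.differentiableAt.differentiableWithinAt
    · intro r hr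
      rw [interior_Ioi] at hr
      obtain ⟨D, hD, h0⟩ := hd r hr
      rw [hD.deriv]
      exact h0
  have hy0 : 0 < y := by linarith
  have h1 := anti (show (1 : ℝ) ∈ Ioi 0 by simp) hy0 hy
  simp only [ofReal_one, one_mul, div_one] at h1
  rwa [div_le_iff₀ hy0] at h1

theorem anh_deriv (k : Fin 6) {x : ℂ} (h0 : x ≠ 0) (h1 : x ≠ 1) :
    ∃ D : ℂ, HasDerivAt (anh k) D x ∧ ∃ e : ℝ, 0 ≤ e ∧ e ≤ 1 ∧
      ‖D‖ ≤ ‖anh k x‖ * (e / ‖x‖ + 1 / ‖1 - x‖) ∧
      e * |Real.log ‖x‖| - |Real.log ‖1 - x‖| ≤ |Real.log ‖anh k x‖| := by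
  have h2 : x - 1 ≠ 0 := sub_ne_zero.mpr h1
  have h3 : 1 - x ≠ 0 := sub_ne_zero.mpr h1.symm
  have n0 : 0 < ‖x‖ := norm_pos_iff.mpr h0
  have n1 : 0 < ‖1 - x‖ := norm_pos_iff.mpr h3
  have n2 : ‖x - 1‖ = ‖1 - x‖ := norm_sub_rev x 1
  have tri : 1 ≤ ‖x‖ + ‖1 - x‖ := by
    have := norm_add_le x (1 - x)
    simpa using this
  have a0 := abs_nonneg (Real.log ‖x‖)
  have a1 := abs_nonneg (Real.log ‖1 - x‖)
  fin_cases k
  · refine ⟨1, hasDerivAt_id x, 1, zero_le_one, le_rfl, ?_, ?_⟩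
    · change ‖(1 : ℂ)‖ ≤ ‖x‖ * _
      rw [norm_one, mul_add, mul_one_div_cancel n0.ne']
      exact le_add_of_nonneg_right (by positivity)
    · change _ ≤ |Real.log ‖x‖|
      linarith
  · refine ⟨-1, (hasDerivAt_id x).const_sub 1, 0, le_rfl, zero_le_one, ?_, ?_⟩
    · change ‖(-1 : ℂ)‖ ≤ ‖1 - x‖ * _
      rw [norm_neg, norm_one, zero_div, zero_add, mul_one_div_cancel n1.ne']
    · change _ ≤ |Real.log ‖1 - x‖|
      linarith
  · refine ⟨(0 * x - 1 * 1) / x ^ 2, (hasDerivAt_const x (1 : ℂ)).div (hasDerivAt_id x) h0,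
      1, zero_le_one, le_rfl, ?_, ?_⟩
    · change _ ≤ ‖1 / x‖ * _
      simp only [zero_mul, mul_one, zero_sub, norm_div, norm_neg, norm_one, norm_pow]
      have : 1 / ‖x‖ ^ 2 = 1 / ‖x‖ * (1 / ‖x‖) := by field_simp
      rw [this, mul_add]
      exact le_add_of_nonneg_right (by positivity)
    · change _ ≤ |Real.log ‖1 / x‖|
      rw [one_div, norm_inv, Real.log_inv, abs_neg]
      linarith
  · refine ⟨(0 * (1 - x) - 1 * (-1)) / (1 - x) ^ 2,
      (hasDerivAt_const x (1 : ℂ)).div ((hasDerivAt_id x).const_sub 1) h3,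
      0, le_rfl, zero_le_one, ?_, ?_⟩
    · change _ ≤ ‖1 / (1 - x)‖ * _
      simp only [zero_mul, mul_neg, mul_one, sub_neg_eq_add, zero_add, norm_div, norm_one, norm_pow,
        zero_div]
      exact le_of_eq (by field_simp)
    · have := abs_nonneg (Real.log ‖anh 3 x‖)
      change _ ≤ |Real.log ‖anh 3 x‖|
      linarith
  · refine ⟨(1 * (x - 1) - x * 1) / (x - 1) ^ 2,
      (hasDerivAt_id x).div ((hasDerivAt_id x).sub_const 1) h2, 1, zero_le_one, le_rfl, ?_, ?_⟩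
    · change _ ≤ ‖x / (x - 1)‖ * _
      have e : 1 * (x - 1) - x * 1 = -1 := by ring
      rw [e]
      simp only [norm_div, norm_neg, norm_one, norm_pow, n2]
      have : ‖x‖ / ‖1 - x‖ * (1 / ‖x‖ + 1 / ‖1 - x‖) = (‖x‖ + ‖1 - x‖) / ‖1 - x‖ ^ 2 := by
        field_simp
        ring
      rw [this]
      gcongr
    · change _ ≤ |Real.log ‖x / (x - 1)‖|
      rw [norm_div, n2, Real.log_div n0.ne' n1.ne', one_mul]
      exact abs_sub_abs_le_abs_sub _ _
  · refine ⟨(1 * x - (x - 1) * 1) / x ^ 2,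
      ((hasDerivAt_id x).sub_const 1).div (hasDerivAt_id x) h0, 1, zero_le_one, le_rfl, ?_, ?_⟩
    · change _ ≤ ‖(x - 1) / x‖ * _
      have e : 1 * x - (x - 1) * 1 = 1 := by ring
      rw [e]
      simp only [norm_div, norm_one, norm_pow, n2]
      have : ‖1 - x‖ / ‖x‖ * (1 / ‖x‖ + 1 / ‖1 - x‖) = (‖x‖ + ‖1 - x‖) / ‖x‖ ^ 2 := by
        field_simp
        ring
      rw [this]
      gcongr
    · change _ ≤ |Real.log ‖(x - 1) / x‖|
      rw [norm_div, n2, Real.log_div n1.ne' n0.ne', one_mul, abs_sub_comm]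
      exact abs_sub_abs_le_abs_sub _ _

theorem norm_mul_abs_log_le {r : ℝ} (h0 : 0 < r) (h1 : r ≤ 1) : r * |Real.log r| ≤ 1 := by
  rw [abs_of_nonpos (Real.log_nonpos h0.le h1), ← Real.log_inv]
  have := Real.log_le_sub_one_of_pos (inv_pos.mpr h0)
  calc r * Real.log r⁻¹ ≤ r * (r⁻¹ - 1) := by gcongr
    _ = 1 - r := by field_simp
    _ ≤ 1 := by linarith

theorem box_bound {φ : ℂ → ℝ} (hφ : ∀ s : ℂ, 0 < s.im → ContinuousAt φ s) (Y : ℝ) :
    ∃ M : ℝ, 0 ≤ M ∧ ∀ s ∈ box Y, φ s ≤ M := by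
  obtain ⟨M, hM⟩ := (isCompact_box Y).exists_bound_of_continuousOn (f := φ)
    fun s hs => (hφ s (box_im_pos hs)).continuousWithinAt
  exact ⟨max M 0, le_max_right _ _, fun s hs =>
    ((le_abs_self _).trans (hM s hs)).trans (le_max_left _ _)⟩

theorem add_I_ne_zero {t : ℂ} (ht : 0 < t.im) : t + I ≠ 0 := by
  have := sub_conj_ne_zero ht (w₀ := I) (by simp)
  simpa using this

theorem norm_cay_lt_one {t : ℂ} (ht : 0 < t.im) : ‖(t - I) / (t + I)‖ < 1 := by
  have h1 := norm_sub_lt_norm_sub_conj ht (w₀ := I) (by simp)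
  rw [conj_I, sub_neg_eq_add] at h1
  rw [norm_div, div_lt_one (norm_pos_iff.mpr (add_I_ne_zero ht))]
  exact h1

theorem cay_cay {t : ℂ} (ht : 0 < t.im) :
    I * (1 + (t - I) / (t + I)) / (1 - (t - I) / (t + I)) = t := by
  have h1 := add_I_ne_zero ht
  have h2 : 1 - (t - I) / (t + I) = 2 * I / (t + I) := by field_simp; ring
  have h3 : 1 + (t - I) / (t + I) = 2 * t / (t + I) := by field_simp; ring
  rw [h2, h3]
  field_simp

/-- The Schwarz lemma at the point `I`, with the case of equality. -/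
theorem schwarz_I {σ : ℂ → ℂ} (hσ : DifferentiableOn ℂ σ {t | 0 < t.im})
    (hm : ∀ t : ℂ, 0 < t.im → 0 < (σ t).im) (h0 : σ I = I) :
    (∀ t : ℂ, 0 < t.im → ‖(σ t - I) / (σ t + I)‖ ≤ ‖(t - I) / (t + I)‖) ∧
    ∀ t₀ : ℂ, 0 < t₀.im → t₀ ≠ I → ‖(σ t₀ - I) / (σ t₀ + I)‖ = ‖(t₀ - I) / (t₀ + I)‖ →
      ∃ r : ℂ, ∀ t : ℂ, 0 < t.im → (σ t - I) / (σ t + I) = r * ((t - I) / (t + I)) := by
  set g : ℂ → ℂ := fun z => (σ (I * (1 + z) / (1 - z)) - I) / (σ (I * (1 + z) / (1 - z)) + I)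
    with hg
  have hg0 : g 0 = 0 := by simp [hg, h0]
  have hgd : DifferentiableOn ℂ g (ball 0 1) := by
    intro z hz
    have hz' := mem_ball_zero_iff.mp hz
    have hne : (1 : ℂ) - z ≠ 0 := by
      intro h
      have : z = 1 := by linear_combination -h
      simp [this] at hz'
    have h1 : DifferentiableAt ℂ (fun z : ℂ => I * (1 + z) / (1 - z)) z := by
      fun_prop (disch := assumption)
    have h2 : DifferentiableAt ℂ (fun z => σ (I * (1 + z) / (1 - z))) z :=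
      (diffAt_H hσ (cayley_im hz')).comp z h1
    exact ((h2.sub_const _).div (h2.add_const _)
      (add_I_ne_zero (hm _ (cayley_im hz')))).differentiableWithinAt
  have hgm : MapsTo g (ball 0 1) (closedBall 0 1) := fun z hz =>
    mem_closedBall_zero_iff.mpr (norm_cay_lt_one (hm _ (cayley_im (mem_ball_zero_iff.mp hz)))).le
  have hgt : ∀ t : ℂ, 0 < t.im → g ((t - I) / (t + I)) = (σ t - I) / (σ t + I) := by
    intro t ht
    simp only [hg, cay_cay ht]
  refine ⟨fun t ht => ?_, fun t₀ ht₀ hne he => ?_⟩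
  · rw [← hgt t ht]
    exact Complex.norm_le_norm_of_mapsTo_ball hgd hgm hg0 (norm_cay_lt_one ht)
  · have hz : (t₀ - I) / (t₀ + I) ≠ 0 := div_ne_zero (sub_ne_zero.mpr hne) (add_I_ne_zero ht₀)
    have h1 := Complex.affine_of_mapsTo_ball_of_norm_dslope_eq_div (R₂ := 1) hgd
      (by rw [hg0]; exact hgm) (mem_ball_zero_iff.mpr (norm_cay_lt_one ht₀)) (by
        rw [dslope_of_ne _ hz, slope_def_module, hg0, hgt t₀ ht₀, sub_zero, sub_zero, norm_smul,
          norm_inv, he, inv_mul_cancel₀ (norm_ne_zero_iff.mpr hz), div_one])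
    refine ⟨dslope g 0 ((t₀ - I) / (t₀ + I)), fun t ht => ?_⟩
    rw [← hgt t ht, h1 (mem_ball_zero_iff.mpr (norm_cay_lt_one ht))]
    simp only [hg0, zero_add, sub_zero, smul_eq_mul]
    ring

theorem small_norm {a b c d : ℤ} (hd : a * d - b * c = 1) (hb : Even b) (hc : Even c)
    (hN : a ^ 2 + (a + b) ^ 2 + c ^ 2 + (c + d) ^ 2 ≤ 3) :
    c = 0 ∧ ((a = 1 ∧ d = 1) ∨ (a = -1 ∧ d = -1)) ∧ (a + b = 1 ∨ a + b = -1) := by
  obtain ⟨b', rfl⟩ := hb
  obtain ⟨c', rfl⟩ := hc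
  have hodd : Odd (a * d) := ⟨2 * b' * c', by linear_combination hd⟩
  obtain ⟨⟨a', ha⟩, ⟨d', hd'⟩⟩ := Int.odd_mul.mp hodd
  have h1 : a ≠ 0 := by omega
  have h2 : a + (b' + b') ≠ 0 := by omega
  have h3 : c' + c' + d ≠ 0 := by omega
  have q1 : 0 < a ^ 2 := by positivity
  have q2 : 0 < (a + (b' + b')) ^ 2 := by positivity
  have q3 : 0 < (c' + c' + d) ^ 2 := by positivity
  have q4 := sq_nonneg (c' + c')
  have c0 : c' + c' = 0 := pow_eq_zero_iff (two_ne_zero) |>.mp (by omega)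
  have a1 : a ^ 2 = 1 := by omega
  have b1 : (a + (b' + b')) ^ 2 = 1 := by omega
  rw [c0, mul_zero, sub_zero] at hd
  exact ⟨c0, Int.mul_eq_one_iff_eq_one_or_neg_one.mp hd, sq_eq_one_iff.mp b1⟩

namespace IsLam

variable {lam : ℂ → ℂ} (h : IsLam lam)
include h

theorem contAt {s : ℂ} (hs : 0 < s.im) : ContinuousAt lam s := (diffAt_H h.diff hs).continuousAt

theorem contAt_deriv {s : ℂ} (hs : 0 < s.im) : ContinuousAt (deriv lam) s :=
  (analyticAt_H h.diff hs).deriv.continuousAt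

theorem cusp_bound : ∃ Y M : ℝ, 0 ≤ M ∧ ∀ s : ℂ, |s.re| ≤ 1 / 2 → Y ≤ s.im →
    ‖lam s‖ ≤ 1 / 2 ∧ ‖deriv lam s‖ * s.im ≤ ‖lam s‖ * (|Real.log ‖lam s‖| + M) := by
  obtain ⟨Y₀, hY₀⟩ := h.cusp (1 / 2) (by norm_num)
  set Y : ℝ := max Y₀ 1 with hY
  have hY1 : 1 ≤ Y := le_max_right _ _
  have hYY : Y₀ ≤ Y := le_max_left _ _
  have hup : ∀ t : ℂ, 0 < t.im → 0 < (t + Y * I).im := by
    intro t ht
    simp only [add_im, mul_im, ofReal_re, I_im, mul_one, ofReal_im, I_re, mul_zero, add_zero]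
    linarith
  have hsm : ∀ t : ℂ, 0 < t.im → ‖lam (t + Y * I)‖ ≤ 1 / 2 := by
    intro t ht
    apply hY₀
    simp only [add_im, mul_im, ofReal_re, I_im, mul_one, ofReal_im, I_re, mul_zero, add_zero]
    linarith
  have hd : DifferentiableOn ℂ (fun t => lam (t + Y * I)) {t | 0 < t.im} := fun t ht =>
    ((diffAt_H h.diff (hup t ht)).comp t (differentiableAt_id.add_const _)).differentiableWithinAt
  obtain ⟨f, hf, hfe⟩ := exists_log convex_H isOpen_H ⟨I, by simp⟩ hd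
    (fun t ht => h.ne_zero _ (hup t ht))
  set G : ℂ → ℂ := fun t => -I * f t with hG
  have hGi : ∀ t : ℂ, 0 < t.im → (G t).im = |Real.log ‖lam (t + Y * I)‖| := by
    intro t ht
    have h1 : Real.log ‖lam (t + Y * I)‖ ≤ 0 :=
      Real.log_nonpos (norm_nonneg _) (by linarith [hsm t ht])
    rw [abs_of_nonpos h1, ← hfe t ht, Complex.norm_exp, Real.log_exp]
    simp [hG]
  have hGm : ∀ t : ℂ, 0 < t.im → 0 < (G t).im := by
    intro t ht
    rw [hGi t ht, abs_pos]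
    exact (Real.log_neg (norm_pos_iff.mpr (h.ne_zero _ (hup t ht))) (by linarith [hsm t ht])).ne
  have hGd : DifferentiableOn ℂ G {t | 0 < t.im} := hf.const_mul _
  obtain ⟨M, hM0, hM⟩ := box_bound (φ := fun s => |Real.log ‖lam s‖|) (fun s hs =>
    ((h.contAt hs).norm.log (norm_ne_zero_iff.mpr (h.ne_zero s hs))).abs) (Y + 1)
  refine ⟨Y + 1, M * Y, by positivity, fun s hs1 hs2 => ?_⟩
  set t : ℂ := s - Y * I with ht
  have hti : t.im = s.im - Y := by simp [ht]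
  have ht1 : 1 ≤ t.im := by linarith
  have ht0 : 0 < t.im := by linarith
  have hst : t + Y * I = s := by rw [ht]; ring
  have hs0 : 0 < s.im := by linarith
  refine ⟨by rw [← hst]; exact hsm t ht0, ?_⟩
  have h1 := schwarz_pick_H hGd hGm ht0
  have h2 := im_le_mul hGd hGm t.re ht1
  rw [re_add_im] at h2
  have h3 : (G (t.re + I)).im ≤ M := by
    rw [hGi _ (by simp)]
    refine hM _ ⟨?_, ?_, ?_⟩
    · simpa [ht] using hs1
    · simp only [add_im, ofReal_im, I_im, zero_add, mul_im, ofReal_re, mul_one, I_re, mul_zero,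
        add_zero]
      linarith
    · simp only [add_im, ofReal_im, I_im, zero_add, mul_im, ofReal_re, mul_one, I_re, mul_zero,
        add_zero]
      linarith
  have h4 : ‖deriv G t‖ ≤ M := by
    have : ‖deriv G t‖ * t.im ≤ M * t.im := h1.trans (h2.trans (by gcongr))
    exact le_of_mul_le_mul_right this ht0
  have h5 : ‖deriv lam s‖ = ‖lam s‖ * ‖deriv G t‖ := by
    have e1 : HasDerivAt (fun w => lam (w + Y * I)) (deriv lam s * 1) t := by
      have := (diffAt_H h.diff hs0).hasDerivAt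
      rw [← hst] at this
      rw [← hst]
      exact this.comp t ((hasDerivAt_id t).add_const _)
    have e2 : HasDerivAt (fun w => exp (f w)) (exp (f t) * deriv f t) t :=
      (diffAt_H hf ht0).hasDerivAt.cexp
    have e3 : (fun w => lam (w + Y * I)) =ᶠ[𝓝 t] fun w => exp (f w) := by
      filter_upwards [isOpen_H.mem_nhds ht0] with w hw using (hfe w hw).symm
    have e4 := e1.unique (e2.congr_of_eventuallyEq e3)
    have e5 : deriv G t = -I * deriv f t := ((diffAt_H hf ht0).hasDerivAt.const_mul _).deriv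
    rw [mul_one, hfe t ht0, hst] at e4
    rw [e4, e5]
    simp
  rw [hGi t ht0, hst] at h1
  rw [h5, mul_assoc]
  refine mul_le_mul_of_nonneg_left ?_ (norm_nonneg _)
  have h6 : s.im = t.im + Y := by linarith
  rw [h6, mul_add]
  exact add_le_add h1 (by gcongr)

theorem strip_bound : ∃ A : ℝ, 0 ≤ A ∧ ∀ s : ℂ, |s.re| ≤ 1 / 2 → 1 / 2 ≤ s.im →
    ‖deriv lam s‖ * s.im / ‖lam s‖ ≤ |Real.log ‖lam s‖| + A ∧
    ‖deriv lam s‖ * s.im / ‖1 - lam s‖ ≤ A ∧ |Real.log ‖1 - lam s‖| ≤ A := by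
  obtain ⟨Y, M, hM0, hM⟩ := h.cusp_bound
  have hn1 : ∀ s : ℂ, 0 < s.im → ‖1 - lam s‖ ≠ 0 := fun s hs =>
    norm_ne_zero_iff.mpr (sub_ne_zero.mpr (h.ne_one s hs).symm)
  have hn0 : ∀ s : ℂ, 0 < s.im → ‖lam s‖ ≠ 0 := fun s hs => norm_ne_zero_iff.mpr (h.ne_zero s hs)
  obtain ⟨M₁, h10, h1⟩ := box_bound (φ := fun s => ‖deriv lam s‖ * s.im / ‖lam s‖) (fun s hs =>
    ((h.contAt_deriv hs).norm.mul continuous_im.continuousAt).div (h.contAt hs).norm (hn0 s hs)) Y
  obtain ⟨M₂, h20, h2⟩ := box_bound (φ := fun s => ‖deriv lam s‖ * s.im / ‖1 - lam s‖)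
    (fun s hs => ((h.contAt_deriv hs).norm.mul continuous_im.continuousAt).div
      (continuousAt_const.sub (h.contAt hs)).norm (hn1 s hs)) Y
  obtain ⟨M₃, h30, h3⟩ := box_bound (φ := fun s => |Real.log ‖1 - lam s‖|)
    (fun s hs => ((continuousAt_const.sub (h.contAt hs)).norm.log (hn1 s hs)).abs) Y
  refine ⟨M₁ + M₂ + M₃ + 2 * M + 2, by positivity, fun s hs1 hs2 => ?_⟩
  have hs0 : 0 < s.im := by linarith
  rcases le_total s.im Y with hY | hY
  · have e1 := h1 s ⟨hs1, hs2, hY⟩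
    have e2 := h2 s ⟨hs1, hs2, hY⟩
    have e3 := h3 s ⟨hs1, hs2, hY⟩
    have e4 := abs_nonneg (Real.log ‖lam s‖)
    exact ⟨by linarith, by linarith, by linarith⟩
  · obtain ⟨e1, e2⟩ := hM s hs1 hY
    have p0 : 0 < ‖lam s‖ := norm_pos_iff.mpr (h.ne_zero s hs0)
    have l1 : 1 / 2 ≤ ‖1 - lam s‖ := by
      have := norm_sub_norm_le (1 : ℂ) (lam s)
      rw [norm_one] at this
      linarith
    have l2 : ‖1 - lam s‖ ≤ 3 / 2 := by
      have := norm_sub_le (1 : ℂ) (lam s)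
      rw [norm_one] at this
      linarith
    have p1 : 0 < ‖1 - lam s‖ := by linarith
    refine ⟨?_, ?_, ?_⟩
    · rw [div_le_iff₀ p0]
      refine e2.trans ?_
      rw [mul_comm]
      gcongr
      linarith
    · rw [div_le_iff₀ p1]
      have e3 := norm_mul_abs_log_le p0 (by linarith)
      have e4 : ‖lam s‖ * M ≤ M := by nlinarith
      have e5 : ‖deriv lam s‖ * s.im ≤ 1 + M := by nlinarith
      nlinarith [mul_nonneg h10 p1.le, mul_nonneg h20 p1.le, mul_nonneg h30 p1.le]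
    · have e3 := Real.log_le_sub_one_of_pos p1
      have e4 := Real.one_sub_inv_le_log_of_pos p1
      have e5 : ‖1 - lam s‖⁻¹ ≤ 2 := by
        rw [inv_le_comm₀ p1 (by norm_num)]
        linarith
      rw [abs_le]
      constructor <;> linarith

theorem hyp_bound : ∃ A : ℝ, ∀ t : ℂ, 0 < t.im →
    ‖deriv lam t‖ * t.im ≤ ‖lam t‖ * (|Real.log ‖lam t‖| + A) := by
  obtain ⟨A, hA0, hA⟩ := h.strip_bound
  refine ⟨3 * A, fun t ht => ?_⟩
  obtain ⟨a, b, c, d, s, hdet, hs1, hs2, rfl⟩ := exists_moebius_fd ht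
  have hs : 0 < s.im := by linarith
  obtain ⟨k, hk⟩ := h.moebius_eq hdet
  obtain ⟨D, hD, e, he0, he1, hD1, hD2⟩ := anh_deriv k (h.ne_zero s hs) (h.ne_one s hs)
  obtain ⟨b1, b2, b3⟩ := hA s hs2 hs1
  have e1 := (diffAt_H h.diff ht).hasDerivAt.comp s (moebius_hasDerivAt hdet hs)
  have e2 := hD.comp s (diffAt_H h.diff hs).hasDerivAt
  have e3 : (lam ∘ fun s : ℂ => ((a : ℂ) * s + b) / (c * s + d)) =ᶠ[𝓝 s] anh k ∘ lam := by
    filter_upwards [isOpen_H.mem_nhds hs] with w hw using hk w hw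
  have e4 := congrArg norm (e1.unique (e2.congr_of_eventuallyEq e3))
  rw [norm_mul, norm_mul, norm_div, norm_one, norm_pow, Complex.sq_norm] at e4
  have e5 : ‖deriv lam ((a * s + b) / (c * s + d))‖ * (((a : ℂ) * s + b) / (c * s + d)).im
      = ‖D‖ * (‖deriv lam s‖ * s.im) := by
    rw [moebius_im hdet hs, ← mul_assoc, ← e4]
    ring
  rw [e5, hk s hs]
  have q0 : 0 ≤ ‖deriv lam s‖ * s.im := by positivity
  calc ‖D‖ * (‖deriv lam s‖ * s.im)
      ≤ ‖anh k (lam s)‖ * (e / ‖lam s‖ + 1 / ‖1 - lam s‖) * (‖deriv lam s‖ * s.im) := by gcongr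
    _ = ‖anh k (lam s)‖ * (e * (‖deriv lam s‖ * s.im / ‖lam s‖) +
          ‖deriv lam s‖ * s.im / ‖1 - lam s‖) := by ring
    _ ≤ ‖anh k (lam s)‖ * (|Real.log ‖anh k (lam s)‖| + 3 * A) := by
      refine mul_le_mul_of_nonneg_left ?_ (norm_nonneg _)
      have := mul_le_mul_of_nonneg_left b1 he0
      nlinarith

/-- The sharp Landau inequality for functions that omit the integers. -/
theorem landau : ∃ A : ℝ, ∀ v : ℂ → ℂ, DifferentiableOn ℂ v {t | 0 < t.im} →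
    (∀ t : ℂ, 0 < t.im → ∀ n : ℤ, v t ≠ n) →
    ∀ t : ℂ, 0 < t.im → ‖deriv v t‖ * t.im ≤ |(v t).im| + A := by
  obtain ⟨A, hA⟩ := h.hyp_bound
  refine ⟨A / (2 * Real.pi), fun v hv hn t ht => ?_⟩
  set f : ℂ → ℂ := fun s => exp (v s * (2 * Real.pi * I)) with hf
  have hfd : DifferentiableOn ℂ f {t | 0 < t.im} := (hv.mul_const _).cexp
  have hf0 : ∀ s ∈ {t : ℂ | 0 < t.im}, f s ≠ 0 := fun s _ => exp_ne_zero _
  have hf1 : ∀ s ∈ {t : ℂ | 0 < t.im}, f s ≠ 1 := by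
    intro s hs h1
    obtain ⟨n, hn'⟩ := Complex.exp_eq_one_iff.mp h1
    exact hn s hs n (mul_right_cancel₀ Complex.two_pi_I_ne_zero hn')
  obtain ⟨s₀, hs₀, he⟩ := h.surj (hf0 t ht) (hf1 t ht)
  obtain ⟨σ, hσ, hσm, -⟩ := h.lift convex_H isOpen_H hfd hf0 hf1 ht hs₀ he
  have h1 := schwarz_pick_H hσ (fun s hs => (hσm s hs).1) ht
  have h2 := hA _ (hσm t ht).1
  have e1 := (diffAt_H h.diff (hσm t ht).1).hasDerivAt.comp t (diffAt_H hσ ht).hasDerivAt
  have e2 : HasDerivAt f (f t * (deriv v t * (2 * Real.pi * I))) t :=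
    ((diffAt_H hv ht).hasDerivAt.mul_const _).cexp
  have e3 : (lam ∘ σ) =ᶠ[𝓝 t] f := by
    filter_upwards [isOpen_H.mem_nhds ht] with w hw using (hσm w hw).2
  have e4 := congrArg norm (e1.unique (e2.congr_of_eventuallyEq e3))
  have hpi : 0 < 2 * Real.pi := Real.two_pi_pos
  have e5 : ‖(2 * Real.pi * I : ℂ)‖ = 2 * Real.pi := by
    simp [abs_of_pos Real.pi_pos]
  rw [norm_mul, norm_mul, norm_mul, e5] at e4
  rw [(hσm t ht).2] at h2
  have e6 : |Real.log ‖f t‖| = |(v t).im| * (2 * Real.pi) := by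
    simp only [hf, Complex.norm_exp, Real.log_exp]
    have : (v t * (2 * Real.pi * I)).re = -((v t).im * (2 * Real.pi)) := by simp
    rw [this, abs_neg, abs_mul, abs_of_pos hpi]
  have p0 : 0 < ‖f t‖ := norm_pos_iff.mpr (hf0 t ht)
  have h3 : ‖f t‖ * (‖deriv v t‖ * t.im * (2 * Real.pi))
      ≤ ‖f t‖ * (|(v t).im| * (2 * Real.pi) + A) := by
    calc ‖f t‖ * (‖deriv v t‖ * t.im * (2 * Real.pi))
        = ‖deriv lam (σ t)‖ * (‖deriv σ t‖ * t.im) := by rw [← mul_assoc (‖deriv lam (σ t)‖), e4]; ring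
      _ ≤ ‖deriv lam (σ t)‖ * (σ t).im := by gcongr
      _ ≤ _ := by rw [← e6]; exact h2
  have h4 := le_of_mul_le_mul_left h3 p0
  have h5 : |(v t).im| + A / (2 * Real.pi) = (|(v t).im| * (2 * Real.pi) + A) / (2 * Real.pi) := by
    field_simp
  rw [h5, le_div_iff₀ hpi]
  exact h4

theorem flat (u : ℂ → ℂ) (hu : DifferentiableOn ℂ u {t | 0 < t.im})
    (h0 : ∀ t : ℂ, 0 < t.im → ∀ m n : ℤ, u t ≠ m + n * t) :
    ∃ a b : ℝ, ∀ t : ℂ, 0 < t.im → u t = a + b * t := by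
  obtain ⟨A, hA⟩ := h.landau
  exact flat_of_landau A hA u hu h0

theorem val_I : lam I = 1 / 2 := by
  have h1 := h.inv I (by simp)
  have h2 : -1 / I = I := by rw [div_I]; simp
  rw [h2] at h1
  linear_combination h1 / 2

theorem val_one_add_I : lam (I + 1) = -1 := by
  rw [h.shift I (by simp), h.val_I]
  norm_num

theorem fibre_near {s : ℂ} (hs : 0 < s.im) (h1 : lam s = -1)
    (h2 : ‖(s - I) / (s + I)‖ ^ 2 ≤ 1 / 5) : s = 1 + I ∨ s = -1 + I := by
  have hI : 0 < (I + 1 : ℂ).im := by simp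
  obtain ⟨a, b, c, d, hd, hb, hc, rfl⟩ := h.fib s (I + 1) hs hI (h1.trans h.val_one_add_I.symm)
  have hne := denom_ne_zero hd hI
  have hd' : (a : ℝ) * d - b * c = 1 := by exact_mod_cast hd
  have e1 : ((a : ℂ) * (I + 1) + b) / (c * (I + 1) + d) - I
      = ((a + b + c : ℝ) + (a - c - d : ℝ) * I) / (c * (I + 1) + d) := by
    rw [eq_div_iff hne, sub_mul, div_mul_cancel₀ _ hne]
    push_cast
    linear_combination (-(c : ℂ)) * I_mul_I
  have e2 : ((a : ℂ) * (I + 1) + b) / (c * (I + 1) + d) + I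
      = ((a + b - c : ℝ) + (a + c + d : ℝ) * I) / (c * (I + 1) + d) := by
    rw [eq_div_iff hne, add_mul, div_mul_cancel₀ _ hne]
    push_cast
    linear_combination (c : ℂ) * I_mul_I
  have h3 := add_I_ne_zero hs
  rw [e2] at h3
  have h4 : ((a + b - c : ℝ) + (a + c + d : ℝ) * I : ℂ) ≠ 0 := (div_ne_zero_iff.mp h3).1
  rw [e1, e2, div_div_div_cancel_right₀ hne, Complex.sq_norm, map_div₀,
    div_le_div_iff₀ (normSq_pos.mpr h4) (by norm_num), normSq_add_mul_I, normSq_add_mul_I] at h2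
  have h5 : (a : ℝ) ^ 2 + (a + b) ^ 2 + c ^ 2 + (c + d) ^ 2 ≤ 3 := by nlinarith
  obtain ⟨rfl, h6, h7⟩ := small_norm hd hb hc (by exact_mod_cast h5)
  rcases h6 with ⟨rfl, rfl⟩ | ⟨rfl, rfl⟩ <;> rcases h7 with h7 | h7
  · left
    obtain rfl : b = 0 := by omega
    simp [add_comm]
  · right
    obtain rfl : b = -2 := by omega
    push_cast
    ring
  · right
    obtain rfl : b = 2 := by omega
    push_cast
    ring
  · left
    obtain rfl : b = 0 := by omega
    push_cast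
    ring

/-- The modular function is the only function that omits `0, 1` and has its values at
`I, 1 + I, -1 + I`. -/
theorem unique {f : ℂ → ℂ} (hf : DifferentiableOn ℂ f {t | 0 < t.im})
    (h0 : ∀ t : ℂ, 0 < t.im → f t ≠ 0 ∧ f t ≠ 1) (h1 : f I = 1 / 2) (h2 : f (1 + I) = -1)
    (h3 : f (-1 + I) = -1) : ∀ t : ℂ, 0 < t.im → f t = lam t := by
  have hI : 0 < (I : ℂ).im := by simp
  obtain ⟨σ, hσ, hσm, hσ0⟩ := h.lift convex_H isOpen_H hf (fun t ht => (h0 t ht).1)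
    (fun t ht => (h0 t ht).2) (z₀ := I) (s₀ := I) hI hI (h.val_I.trans h1.symm)
  obtain ⟨s1, s2⟩ := schwarz_I hσ (fun t ht => (hσm t ht).1) hσ0
  have hp : 0 < (1 + I : ℂ).im := by simp
  have hq : 0 < (-1 + I : ℂ).im := by simp
  have ep : (1 + I - I : ℂ) / (1 + I + I) = (1 - 2 * I) / 5 := by
    rw [div_eq_div_iff (add_I_ne_zero hp) (by norm_num)]
    linear_combination (4 : ℂ) * I_mul_I
  have eq : (-1 + I - I : ℂ) / (-1 + I + I) = (1 + 2 * I) / 5 := by
    rw [div_eq_div_iff (add_I_ne_zero hq) (by norm_num)]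
    linear_combination (-4 : ℂ) * I_mul_I
  have np : ‖(1 - 2 * I : ℂ) / 5‖ ^ 2 = 1 / 5 := by
    rw [Complex.sq_norm, normSq_apply]
    simp
    norm_num
  have nq : ‖(1 + 2 * I : ℂ) / 5‖ ^ 2 = 1 / 5 := by
    rw [Complex.sq_norm, normSq_apply]
    simp
    norm_num
  have npq : ‖(1 + 2 * I : ℂ) / 5‖ = ‖(1 - 2 * I : ℂ) / 5‖ :=
    (pow_left_inj₀ (norm_nonneg _) (norm_nonneg _) two_ne_zero).mp (nq.trans np.symm)
  have f1 : σ (1 + I) = 1 + I ∨ σ (1 + I) = -1 + I := by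
    refine h.fibre_near (hσm _ hp).1 ((hσm _ hp).2.trans h2) ?_
    rw [← np, ← ep]
    exact pow_le_pow_left₀ (norm_nonneg _) (s1 _ hp) 2
  have f2 : σ (-1 + I) = 1 + I ∨ σ (-1 + I) = -1 + I := by
    refine h.fibre_near (hσm _ hq).1 ((hσm _ hq).2.trans h3) ?_
    rw [← nq, ← eq]
    exact pow_le_pow_left₀ (norm_nonneg _) (s1 _ hq) 2
  obtain ⟨r, hr⟩ := s2 (1 + I) hp (by simp) (by
    rcases f1 with f1 | f1
    · rw [f1]
    · rw [f1, ep, eq, npq])
  have r1 := hr _ hp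
  have r2 := hr _ hq
  have zp : (1 - 2 * I : ℂ) ≠ 0 := fun e => by simpa using congrArg Complex.re e
  have zq : (1 + 2 * I : ℂ) ≠ 0 := fun e => by simpa using congrArg Complex.re e
  have hr1 : r = 1 := by
    rcases f1 with f1 | f1
    · rw [f1, ep] at r1
      apply mul_right_cancel₀ zp
      linear_combination (-5 : ℂ) * r1
    · rcases f2 with f2 | f2
      · rw [f1, ep, eq] at r1
        rw [f2, ep, eq] at r2
        have : (8 : ℂ) * I = 0 := by
          linear_combination (5 * (1 + 2 * I)) * r1 - (5 * (1 - 2 * I)) * r2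
        simp at this
      · rw [f2, eq] at r2
        apply mul_right_cancel₀ zq
        linear_combination (-5 : ℂ) * r2
  intro t ht
  have h4 := hr t ht
  rw [hr1, one_mul] at h4
  have h5 := cay_cay (hσm t ht).1
  rw [h4, cay_cay ht] at h5
  rw [← (hσm t ht).2, ← h5]

end IsLam

end MPb1b13a.Disc
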