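import Pool.Agent.Lib.MP_b1b13a_lc.Disc.WpInj

/-!
Weierstrass function of a fixed lattice, part 3: the addition theorem.
-/

namespace MPb1b13a.Disc

open Filter Topology PeriodPair

variable (L : PeriodPair)

/-- Slope of the chord through `(℘ s, ℘' s)` and `(a, b)`. -/
noncomputable def chordM (a b s : ℂ) : ℂ := (L.derivWeierstrassP s - b) / (L.weierstrassP s - a)

/-- First coordinate of the chord sum. -/
noncomputable def chordX (a b s : ℂ) : ℂ := chordM L a b s ^ 2 / 4 - L.weierstrassP s - a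

/-- Second coordinate of the chord sum. -/
noncomputable def chordY (a b s : ℂ) : ℂ :=
  -(chordM L a b s * (chordX L a b s - L.weierstrassP s)) - L.derivWeierstrassP s

variable {L}

theorem chordM_hasDerivAt {a b s : ℂ} (hab : b ^ 2 = 4 * a ^ 3 - L.g₂ * a - L.g₃)
    (hs : s ∉ L.lattice) (hne : L.weierstrassP s ≠ a) :
    HasDerivAt (chordM L a b) (-2 * (chordX L a b s - L.weierstrassP s)) s := by
  have n := sub_ne_zero.mpr hne
  have h := ((wp'_hasDerivAt L hs).sub_const b).fun_div ((wp_hasDerivAt L hs).sub_const a) n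
  refine HasDerivAt.congr_deriv h ?_
  have e := L.derivWeierstrassP_sq s hs
  simp only [chordX, chordM]
  field_simp
  linear_combination (-4) * e + 4 * hab

theorem chordX_hasDerivAt {a b s : ℂ} (hab : b ^ 2 = 4 * a ^ 3 - L.g₂ * a - L.g₃)
    (hs : s ∉ L.lattice) (hne : L.weierstrassP s ≠ a) :
    HasDerivAt (chordX L a b) (chordY L a b s) s := by
  have h := (((((chordM_hasDerivAt hab hs hne).fun_pow 2).div_const 4).fun_sub
    (wp_hasDerivAt L hs))).sub_const a
  refine HasDerivAt.congr_deriv h ?_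
  simp only [chordY]
  push_cast
  ring

theorem chordY_hasDerivAt {a b s : ℂ} (hab : b ^ 2 = 4 * a ^ 3 - L.g₂ * a - L.g₃)
    (hs : s ∉ L.lattice) (hne : L.weierstrassP s ≠ a) :
    HasDerivAt (chordY L a b) (6 * chordX L a b s ^ 2 - L.g₂ / 2) s := by
  have n := sub_ne_zero.mpr hne
  have h := ((chordM_hasDerivAt hab hs hne).fun_mul ((chordX_hasDerivAt hab hs hne).fun_sub
    (wp_hasDerivAt L hs))).fun_neg.fun_sub (wp'_hasDerivAt L hs)
  refine HasDerivAt.congr_deriv h ?_
  have e := L.derivWeierstrassP_sq s hs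
  have m1 : chordM L a b s * (L.weierstrassP s - a) = L.derivWeierstrassP s - b := by
    simp only [chordM]; field_simp
  have m2 : chordM L a b s * (L.derivWeierstrassP s + b) =
      4 * (L.weierstrassP s ^ 2 + a * L.weierstrassP s + a ^ 2) - L.g₂ :=
    mul_left_cancel₀ n (by linear_combination (L.derivWeierstrassP s + b) * m1 + e - hab)
  simp only [chordY, chordX]
  linear_combination m2 - chordM L a b s * m1

theorem eventually_good {a s : ℂ} (hs : s ∉ L.lattice) (hne : L.weierstrassP s ≠ a) :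
    ∀ᶠ t in 𝓝 s, t ∉ L.lattice ∧ L.weierstrassP t ≠ a :=
  (eventually_notMem_lattice' L hs).and ((wp_analyticAt L hs).continuousAt.eventually_ne hne)

theorem chordX_facts {a b s : ℂ} (hab : b ^ 2 = 4 * a ^ 3 - L.g₂ * a - L.g₃)
    (hs : s ∉ L.lattice) (hne : L.weierstrassP s ≠ a) :
    AnalyticAt ℂ (chordX L a b) s ∧
      deriv (deriv (chordX L a b)) s = 6 * chordX L a b s ^ 2 - L.g₂ / 2 := by
  constructor
  · have h1 := wp_analyticAt L hs
    have h2 := wp'_analyticAt L hs
    have h3 : AnalyticAt ℂ (chordM L a b) s :=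
      (h2.sub analyticAt_const).div (h1.sub analyticAt_const) (sub_ne_zero.mpr hne)
    show AnalyticAt ℂ (fun s => chordM L a b s ^ 2 / 4 - L.weierstrassP s - a) s
    fun_prop
  · have e : deriv (chordX L a b) =ᶠ[𝓝 s] chordY L a b := by
      filter_upwards [eventually_good hs hne] with t ht
      exact (chordX_hasDerivAt hab ht.1 ht.2).deriv
    rw [e.deriv_eq, (chordY_hasDerivAt hab hs hne).deriv]

/-- The chord sum extends analytically over the origin with the right initial values. -/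
theorem chordX_zero (a b : ℂ) : ∃ X : ℂ → ℂ, AnalyticAt ℂ X 0 ∧ X 0 = a ∧ deriv X 0 = b ∧
    (∀ᶠ s in 𝓝[≠] (0 : ℂ), L.weierstrassP s ≠ a) ∧ X =ᶠ[𝓝[≠] 0] chordX L a b := by
  set p := L.weierstrassPExcept 0 with hp
  set q := L.derivWeierstrassPExcept 0 with hq
  have pa : AnalyticAt ℂ p 0 := L.analyticAt_weierstrassPExcept 0
  have qa : AnalyticAt ℂ q 0 := L.analyticAt_derivWeierstrassPExcept 0
  have p0 : p 0 = 0 := L.weierstrassPExcept_zero 0
  have q0 : q 0 = 0 := L.derivWeierstrassPExcept_zero_zero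
  have dp : HasDerivAt p 0 0 := by
    have h := pa.differentiableAt.hasDerivAt
    rwa [hp, L.deriv_weierstrassPExcept_same, L.derivWeierstrassPExcept_zero_zero] at h
  set D : ℂ → ℂ := fun s => 1 + s ^ 2 * (p s - a) with hD
  set R : ℂ → ℂ := fun s => s ^ 2 * (q s - b) ^ 2 / 4 - (p s - a) ^ 2 -
    (p s + a) * (p s - a) * (2 + s ^ 2 * (p s - a)) with hR
  set N : ℂ → ℂ := fun s => -(s * (q s - b)) - 3 * p s + a + s * (s * R s) with hN
  have Da : AnalyticAt ℂ D 0 := by rw [hD]; fun_prop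
  have Ra : AnalyticAt ℂ R 0 := by rw [hR]; fun_prop
  have Na : AnalyticAt ℂ N 0 := by rw [hN]; fun_prop
  have D0 : D 0 = 1 := by simp [hD]
  have N0 : N 0 = a := by simp [hN, p0]
  have dD : HasDerivAt D 0 0 := by
    have h := (((hasDerivAt_id' (0 : ℂ)).fun_pow 2).fun_mul (dp.sub_const a)).const_add 1
    exact HasDerivAt.congr_deriv h (by simp)
  have dN : HasDerivAt N b 0 := by
    have hi := hasDerivAt_id' (0 : ℂ)
    have h := (((hi.fun_mul (qa.differentiableAt.hasDerivAt.sub_const b)).fun_neg.fun_sub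
      (dp.const_mul 3)).add_const a).fun_add
      (hi.fun_mul (hi.fun_mul Ra.differentiableAt.hasDerivAt))
    exact HasDerivAt.congr_deriv h (by simp [q0])
  have Dne : ∀ᶠ s in 𝓝 (0 : ℂ), D s ≠ 0 := Da.continuousAt.eventually_ne (by simp [D0])
  have De : ∀ s : ℂ, s ≠ 0 → L.weierstrassP s - a = D s / s ^ 2 := by
    intro s hs
    rw [wp_eq_except, hD, ← hp]
    field_simp
    ring
  refine ⟨fun s => N s / D s ^ 2, Na.div (Da.pow 2) (by simp [D0]), by simp [N0, D0], ?_, ?_, ?_⟩
  · have h := dN.fun_div (dD.fun_pow 2) (by simp [D0])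
    rw [h.deriv]
    simp [D0]
  · filter_upwards [self_mem_nhdsWithin, mem_nhdsWithin_of_mem_nhds Dne] with s (hs : s ≠ 0) hd
    rw [← sub_ne_zero, De s hs]
    exact div_ne_zero hd (pow_ne_zero 2 hs)
  · filter_upwards [self_mem_nhdsWithin, mem_nhdsWithin_of_mem_nhds Dne] with s (hs : s ≠ 0) hd
    simp only [chordX, chordM]
    rw [De s hs, wp_eq_except, wp'_eq_except, ← hp, ← hq]
    field_simp
    simp only [hN, hR, hD]
    ring

/-- The chord sum is the translate of `℘`. -/
theorem chordX_eqOn {w : ℂ} (hw : w ∉ L.lattice) {s : ℂ} (hs : s ∉ L.lattice)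
    (hsw : s + w ∉ L.lattice) (hne : L.weierstrassP s ≠ L.weierstrassP w) :
    L.weierstrassP (s + w) = chordX L (L.weierstrassP w) (L.derivWeierstrassP w) s := by
  have hab := L.derivWeierstrassP_sq w hw
  obtain ⟨X, Xa, X0, X1, ne0, Xe⟩ := chordX_zero (L := L) (L.weierstrassP w) (L.derivWeierstrassP w)
  have h0w : (0 : ℂ) + w ∉ L.lattice := by simpa using hw
  obtain ⟨s1, s2, -⟩ := shift_facts L w h0w
  have Xe' : ∀ᶠ t in 𝓝[≠] (0 : ℂ),
      X =ᶠ[𝓝 t] chordX L (L.weierstrassP w) (L.derivWeierstrassP w) := by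
    have h := eventually_eventually_nhdsWithin.mpr Xe
    filter_upwards [h, self_mem_nhdsWithin] with t ht ht0
    rwa [nhdsWithin_eq_nhds.mpr (isOpen_compl_singleton.mem_nhds ht0)] at ht
  have loc : (fun t => L.weierstrassP (t + w)) =ᶠ[𝓝 0] X := by
    refine ode_unique (c := L.g₂ / 2) s1 Xa (by simp [X0]) (by rw [s2, X1]; simp) ?_ ?_
    · filter_upwards [eventually_add_notMem L w 0] with t ht
      exact (shift_facts L w ht).2.2
    · filter_upwards [Xe', ne0, eventually_notMem_lattice L 0] with t h1 h2 h3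
      rw [h1.deriv.deriv_eq, h1.eq_of_nhds]
      exact (chordX_facts hab h3 h2).2
  set S : Set ℂ := (L.lattice : Set ℂ) ∪ {t : ℂ | t + w ∈ L.lattice} ∪
    {t : ℂ | t + -w ∈ L.lattice} with hS
  have hc : S.Countable :=
    ((countable_lattice L).union (countable_shift L _)).union (countable_shift L _)
  have mem : ∀ t, t ∈ Sᶜ ↔
      t ∉ L.lattice ∧ t + w ∉ L.lattice ∧ L.weierstrassP t ≠ L.weierstrassP w := by
    intro t
    simp only [hS, Set.mem_compl_iff, Set.mem_union, SetLike.mem_coe, Set.mem_ofPred_eq, not_or,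
      ← sub_eq_add_neg]
    constructor
    · rintro ⟨⟨h1, h2⟩, h3⟩
      exact ⟨h1, h2, fun h => ((wp_eq_iff L h1 hw).mp h).elim h3 h2⟩
    · rintro ⟨h1, h2, h3⟩
      exact ⟨⟨h1, h2⟩, fun h => h3 (wp_eq_of_sub_mem L h)⟩
  obtain ⟨t0, g1, g2, g3, g4, g5⟩ := ((eventually_notMem_lattice L 0).and
    ((eventually_add_notMem L w 0).and (ne0.and (Xe'.and
      (mem_nhdsWithin_of_mem_nhds loc.eventually_nhds))))).exists
  have glob : Set.EqOn (fun t => L.weierstrassP (t + w))
      (chordX L (L.weierstrassP w) (L.derivWeierstrassP w)) Sᶜ :=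
    AnalyticOnNhd.eqOn_of_preconnected_of_eventuallyEq
      (fun t ht => (shift_facts L w ((mem t).mp ht).2.1).1)
      (fun t ht => (chordX_facts hab ((mem t).mp ht).1 ((mem t).mp ht).2.2).1)
      (preconnected_compl hc) ((mem t0).mpr ⟨g1, g2, g3⟩) (EventuallyEq.trans g5 g4)
  exact glob ((mem s).mpr ⟨hs, hsw, hne⟩)

variable (L)

theorem add_notMem_of_wp_ne {z w : ℂ} (hne : L.weierstrassP z ≠ L.weierstrassP w) :
    z + w ∉ L.lattice := fun h => hne (wp_eq_of_add_mem L h)

/-- Addition theorem for `℘`. -/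
theorem wp_add {z w : ℂ} (hz : z ∉ L.lattice) (hw : w ∉ L.lattice)
    (hne : L.weierstrassP z ≠ L.weierstrassP w) :
    L.weierstrassP (z + w) = ((L.derivWeierstrassP z - L.derivWeierstrassP w) /
      (L.weierstrassP z - L.weierstrassP w)) ^ 2 / 4 - L.weierstrassP z - L.weierstrassP w :=
  chordX_eqOn hw hz (add_notMem_of_wp_ne L hne) hne

/-- Addition theorem for `℘'`. -/
theorem wp'_add {z w : ℂ} (hz : z ∉ L.lattice) (hw : w ∉ L.lattice)
    (hne : L.weierstrassP z ≠ L.weierstrassP w) :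
    L.derivWeierstrassP (z + w) = -((L.derivWeierstrassP z - L.derivWeierstrassP w) /
      (L.weierstrassP z - L.weierstrassP w) * (L.weierstrassP (z + w) - L.weierstrassP z)) -
      L.derivWeierstrassP z := by
  have e : (fun t => L.weierstrassP (t + w)) =ᶠ[𝓝 z]
      chordX L (L.weierstrassP w) (L.derivWeierstrassP w) := by
    filter_upwards [eventually_good hz hne] with t ht
    exact chordX_eqOn hw ht.1 (add_notMem_of_wp_ne L ht.2) ht.2
  have h := e.deriv_eq
  rw [(shift_facts L w (add_notMem_of_wp_ne L hne)).2.1,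
    (chordX_hasDerivAt (L.derivWeierstrassP_sq w hw) hz hne).deriv] at h
  rw [h, chordX_eqOn hw hz (add_notMem_of_wp_ne L hne) hne]
  rfl

end MPb1b13a.Disc
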