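import Mathlib

/-!
Weierstrass function of a fixed lattice, part 1: the second order equation, its uniqueness
principle, and the pole at the lattice points.
-/

namespace MPb1b13a.Disc

open Filter Topology PeriodPair

/-- Uniqueness for `f'' = 6 f ^ 2 - c` by an order of vanishing argument. -/
theorem ode_unique {f g : ℂ → ℂ} {x c : ℂ} (hf : AnalyticAt ℂ f x) (hg : AnalyticAt ℂ g x)
    (h0 : f x = g x) (h1 : deriv f x = deriv g x)
    (hf2 : ∀ᶠ s in 𝓝[≠] x, deriv (deriv f) s = 6 * f s ^ 2 - c)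
    (hg2 : ∀ᶠ s in 𝓝[≠] x, deriv (deriv g) s = 6 * g s ^ 2 - c) : f =ᶠ[𝓝 x] g := by
  set d : ℂ → ℂ := f - g with hd
  have hda : AnalyticAt ℂ d x := hf.sub hg
  have hd1 : deriv d =ᶠ[𝓝 x] deriv f - deriv g := by
    filter_upwards [hf.eventually_analyticAt, hg.eventually_analyticAt] with s h1 h2
    exact deriv_sub h1.differentiableAt h2.differentiableAt
  have hd2 : deriv (deriv d) =ᶠ[𝓝 x] deriv (deriv f) - deriv (deriv g) := by
    filter_upwards [hd1.deriv, hf.deriv.eventually_analyticAt, hg.deriv.eventually_analyticAt]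
      with s h0 h1 h2
    rw [h0]
    exact deriv_sub h1.differentiableAt h2.differentiableAt
  have hk : AnalyticAt ℂ (fun s => 6 * (f s + g s)) x := by fun_prop
  have h3 : deriv (deriv d) =ᶠ[𝓝[≠] x] (fun s => 6 * (f s + g s)) * d := by
    filter_upwards [hf2, hg2, mem_nhdsWithin_of_mem_nhds hd2] with s e1 e2 e3
    rw [e3]
    simp only [Pi.sub_apply, Pi.mul_apply, e1, e2, hd]
    ring
  have h4 : deriv (deriv d) =ᶠ[𝓝 x] (fun s => 6 * (f s + g s)) * d :=
    (hda.deriv.deriv.continuousAt.eventuallyEq_nhds_iff_eventuallyEq_nhdsNE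
      (hk.mul hda).continuousAt).mp h3
  have o1 := hda.analyticOrderAt_deriv_add_one
  have o2 := hda.deriv.analyticOrderAt_deriv_add_one
  have z0 : d x = 0 := by simp [hd, h0]
  have z1 : deriv d x = 0 := by rw [hd1.eq_of_nhds]; simp [h1]
  simp only [z0, z1, sub_zero] at o1 o2
  rw [analyticOrderAt_congr h4, analyticOrderAt_mul hk hda] at o2
  have o3 : analyticOrderAt d x = ⊤ := by
    by_contra hne
    have e1 : analyticOrderAt (fun s => d s) x = analyticOrderAt d x := rfl
    have e2 : analyticOrderAt (fun s => deriv d s) x = analyticOrderAt (deriv d) x := rfl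
    rw [e1] at o1
    rw [e2] at o2
    rw [← o2] at o1
    obtain ⟨n, hn⟩ := ENat.ne_top_iff_exists.mp hne
    rw [← hn] at o1
    generalize analyticOrderAt (fun s => 6 * (f s + g s)) x = k at o1
    induction k using ENat.recTopCoe with
    | top => simp at o1
    | coe k => norm_cast at o1; omega
  filter_upwards [analyticOrderAt_eq_top.mp o3] with s hs
  simpa [hd, sub_eq_zero] using hs

variable (L : PeriodPair)

theorem countable_lattice : (L.lattice : Set ℂ).Countable := by
  have : (L.lattice : Set ℂ) ⊆ Set.range (fun p : ℤ × ℤ => (p.1 : ℂ) * L.ω₁ + p.2 * L.ω₂) := by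
    intro x hx
    obtain ⟨m, n, e⟩ := mem_lattice.mp hx
    exact ⟨(m, n), e⟩
  exact (Set.countable_range _).mono this

theorem preconnected_compl {s : Set ℂ} (hs : s.Countable) : IsPreconnected sᶜ :=
  (hs.isConnected_compl_of_one_lt_rank (by simp)).isPreconnected

theorem wp_analyticAt {z : ℂ} (hz : z ∉ L.lattice) : AnalyticAt ℂ L.weierstrassP z :=
  L.analyticOnNhd_weierstrassP z hz

theorem wp'_analyticAt {z : ℂ} (hz : z ∉ L.lattice) : AnalyticAt ℂ L.derivWeierstrassP z :=
  L.analyticOnNhd_derivWeierstrassP z hz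

theorem wp_hasDerivAt {z : ℂ} (hz : z ∉ L.lattice) :
    HasDerivAt L.weierstrassP (L.derivWeierstrassP z) z := by
  have h := (wp_analyticAt L hz).differentiableAt.hasDerivAt
  rwa [L.deriv_weierstrassP] at h

theorem eventually_notMem_lattice (x : ℂ) : ∀ᶠ s in 𝓝[≠] x, s ∉ L.lattice := by
  filter_upwards [self_mem_nhdsWithin,
    mem_nhdsWithin_of_mem_nhds (L.compl_lattice_sdiff_singleton_mem_nhds x)] with s h1 h2
  intro h
  exact h2 ⟨h, h1⟩

theorem eventually_notMem_lattice' {x : ℂ} (hx : x ∉ L.lattice) : ∀ᶠ s in 𝓝 x, s ∉ L.lattice :=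
  L.isClosed_lattice.isOpen_compl.mem_nhds hx

theorem wp_eq_except (z : ℂ) : L.weierstrassP z = L.weierstrassPExcept 0 z + 1 / z ^ 2 := by
  simpa using (L.weierstrassPExcept_add 0 z).symm

theorem wp'_eq_except (z : ℂ) :
    L.derivWeierstrassP z = L.derivWeierstrassPExcept 0 z - 2 / z ^ 3 := by
  simpa using (L.derivWeierstrassPExcept_sub 0 z).symm

/-- `z ^ 2 ℘ z → 1` at the origin. -/
theorem tendsto_sq_mul_wp : Tendsto (fun z => z ^ 2 * L.weierstrassP z) (𝓝[≠] 0) (𝓝 1) := by
  have h : ContinuousAt (fun z : ℂ => z ^ 2 * L.weierstrassPExcept 0 z + 1) 0 := by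
    have := (L.analyticAt_weierstrassPExcept 0).continuousAt
    fun_prop
  have h2 := h.tendsto.mono_left (nhdsWithin_le_nhds (s := {0}ᶜ))
  simp only [ne_eq, OfNat.ofNat_ne_zero, not_false_eq_true, zero_pow, zero_mul, zero_add] at h2
  refine h2.congr' ?_
  filter_upwards [self_mem_nhdsWithin] with z (hz : z ≠ 0)
  rw [wp_eq_except]
  field_simp

/-- `z ^ 3 ℘' z → -2` at the origin. -/
theorem tendsto_cube_mul_wp' :
    Tendsto (fun z => z ^ 3 * L.derivWeierstrassP z) (𝓝[≠] 0) (𝓝 (-2)) := by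
  have h : ContinuousAt (fun z : ℂ => z ^ 3 * L.derivWeierstrassPExcept 0 z - 2) 0 := by
    have := (L.analyticAt_derivWeierstrassPExcept 0).continuousAt
    fun_prop
  have h2 := h.tendsto.mono_left (nhdsWithin_le_nhds (s := {0}ᶜ))
  simp only [ne_eq, OfNat.ofNat_ne_zero, not_false_eq_true, zero_pow, zero_mul, zero_sub] at h2
  refine h2.congr' ?_
  filter_upwards [self_mem_nhdsWithin] with z (hz : z ≠ 0)
  rw [wp'_eq_except]
  field_simp

/-- A function continuous at a lattice point does not agree with `℘` around it. -/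
theorem not_eventuallyEq_wp {f : ℂ → ℂ} {x : ℂ} (hx : x ∈ L.lattice) (hf : ContinuousAt f x) :
    ¬ (f =ᶠ[𝓝[≠] x] L.weierstrassP) := by
  intro h
  have t1 : Tendsto (fun z : ℂ => z + x) (𝓝[≠] 0) (𝓝[≠] x) := by
    refine tendsto_nhdsWithin_iff.mpr ⟨?_, ?_⟩
    · have : Tendsto (fun z : ℂ => z + x) (𝓝 0) (𝓝 (0 + x)) :=
        (continuous_id.add continuous_const).tendsto 0
      rw [zero_add] at this
      exact this.mono_left nhdsWithin_le_nhds
    · filter_upwards [self_mem_nhdsWithin] with z (hz : z ≠ 0)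
      simpa using hz
  have t2 : Tendsto (fun z : ℂ => z ^ 2 * f (z + x)) (𝓝[≠] 0) (𝓝 (0 ^ 2 * f x)) :=
    (((continuous_pow 2).tendsto 0).mono_left nhdsWithin_le_nhds).mul
      ((hf.tendsto.mono_left nhdsWithin_le_nhds).comp t1)
  have t3 : Tendsto (fun z : ℂ => z ^ 2 * f (z + x)) (𝓝[≠] 0) (𝓝 1) := by
    refine (tendsto_sq_mul_wp L).congr' ?_
    filter_upwards [t1.eventually h] with z hz
    rw [hz, L.weierstrassP_add_coe z ⟨x, hx⟩]
  have := tendsto_nhds_unique t2 t3
  simp at this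

theorem exists_wp'_ne_zero : ∃ z, z ∉ L.lattice ∧ L.derivWeierstrassP z ≠ 0 := by
  by_contra h
  push Not at h
  have t : Tendsto (fun z => z ^ 3 * L.derivWeierstrassP z) (𝓝[≠] (0 : ℂ)) (𝓝 0) := by
    refine tendsto_const_nhds.congr' ?_
    filter_upwards [eventually_notMem_lattice L 0] with z hz
    simp [h z hz]
  have := tendsto_nhds_unique t (tendsto_cube_mul_wp' L)
  norm_num at this

/-- `℘'' = 6 ℘ ^ 2 - g₂ / 2`. -/
theorem deriv_wp' {z : ℂ} (hz : z ∉ L.lattice) :
    deriv L.derivWeierstrassP z = 6 * L.weierstrassP z ^ 2 - L.g₂ / 2 := by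
  have a1 := L.analyticOnNhd_weierstrassP
  have a2 := L.analyticOnNhd_derivWeierstrassP
  have a3 : AnalyticOnNhd ℂ (fun s => deriv L.derivWeierstrassP s -
      (6 * L.weierstrassP s ^ 2 - L.g₂ / 2)) (L.lattice : Set ℂ)ᶜ := by
    intro s hs
    have h1 := a1 s hs
    have h2 := (a2 s hs).deriv
    fun_prop
  have key : ∀ s ∈ (L.lattice : Set ℂ)ᶜ, (deriv L.derivWeierstrassP s -
      (6 * L.weierstrassP s ^ 2 - L.g₂ / 2)) * L.derivWeierstrassP s = 0 := by
    intro s hs
    have d1 := wp_hasDerivAt L hs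
    have d2 := (a2 s hs).differentiableAt.hasDerivAt
    have e1 := d2.fun_pow 2
    have e2 := (((d1.fun_pow 3).const_mul 4).fun_sub (d1.const_mul L.g₂)).sub_const L.g₃
    have e3 : (fun t => L.derivWeierstrassP t ^ 2) =ᶠ[𝓝 s]
        fun t => 4 * L.weierstrassP t ^ 3 - L.g₂ * L.weierstrassP t - L.g₃ := by
      filter_upwards [eventually_notMem_lattice' L hs] with t ht
      exact L.derivWeierstrassP_sq t ht
    have e4 := (e1.unique (e2.congr_of_eventuallyEq e3))
    simp only [Nat.cast_ofNat, Nat.add_one_sub_one, pow_one] at e4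
    linear_combination e4 / 2
  rcases a3.eq_zero_or_eq_zero_of_mul_eq_zero a2 key
    (preconnected_compl (countable_lattice L)) with h | h
  · exact sub_eq_zero.mp (h z hz)
  · obtain ⟨w, hw, hw'⟩ := exists_wp'_ne_zero L
    exact absurd (h w hw) hw'

theorem wp'_hasDerivAt {z : ℂ} (hz : z ∉ L.lattice) :
    HasDerivAt L.derivWeierstrassP (6 * L.weierstrassP z ^ 2 - L.g₂ / 2) z := by
  have h := (wp'_analyticAt L hz).differentiableAt.hasDerivAt
  rwa [deriv_wp' L hz] at h

end MPb1b13a.Disc
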