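import Pool.Agent.Lib.MP_b1b13a_lc.Disc.WpBase

/-!
Weierstrass function of a fixed lattice, part 2: fibres of `℘`, zeros of `℘'`, the half period
values, surjectivity, homogeneity.
-/

namespace MPb1b13a.Disc

open Filter Topology PeriodPair

variable (L : PeriodPair)

theorem wp_add_mem {z l : ℂ} (hl : l ∈ L.lattice) :
    L.weierstrassP (z + l) = L.weierstrassP z := L.weierstrassP_add_coe z ⟨l, hl⟩

theorem wp'_add_mem {z l : ℂ} (hl : l ∈ L.lattice) :
    L.derivWeierstrassP (z + l) = L.derivWeierstrassP z := L.derivWeierstrassP_add_coe z ⟨l, hl⟩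

theorem wp_eq_of_sub_mem {z w : ℂ} (h : z - w ∈ L.lattice) :
    L.weierstrassP z = L.weierstrassP w := by
  rw [← wp_add_mem L (z := w) h]; congr 1; ring

theorem wp'_eq_of_sub_mem {z w : ℂ} (h : z - w ∈ L.lattice) :
    L.derivWeierstrassP z = L.derivWeierstrassP w := by
  rw [← wp'_add_mem L (z := w) h]; congr 1; ring

theorem wp_eq_of_add_mem {z w : ℂ} (h : z + w ∈ L.lattice) :
    L.weierstrassP z = L.weierstrassP w := by
  rw [← L.weierstrassP_neg w]
  exact wp_eq_of_sub_mem L (by simpa using h)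

theorem wp'_eq_neg_of_add_mem {z w : ℂ} (h : z + w ∈ L.lattice) :
    L.derivWeierstrassP z = - L.derivWeierstrassP w := by
  rw [← L.derivWeierstrassP_neg w]
  exact wp'_eq_of_sub_mem L (by simpa using h)

/-- The translate `s ↦ ℘ (s + w)` solves the second order equation. -/
theorem shift_facts (w : ℂ) {s : ℂ} (hs : s + w ∉ L.lattice) :
    AnalyticAt ℂ (fun t => L.weierstrassP (t + w)) s ∧
    deriv (fun t => L.weierstrassP (t + w)) s = L.derivWeierstrassP (s + w) ∧
    deriv (deriv fun t => L.weierstrassP (t + w)) s =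
      6 * L.weierstrassP (s + w) ^ 2 - L.g₂ / 2 := by
  have e : deriv (fun t => L.weierstrassP (t + w)) = fun t => L.derivWeierstrassP (t + w) := by
    ext t
    rw [deriv_comp_add_const, L.deriv_weierstrassP]
  refine ⟨?_, by rw [e], ?_⟩
  · exact (wp_analyticAt L hs).comp_of_eq (f := fun t => t + w) (by fun_prop) rfl
  · rw [e, deriv_comp_add_const, deriv_wp' L hs]

theorem eventually_add_notMem (w x : ℂ) : ∀ᶠ s in 𝓝[≠] x, s + w ∉ L.lattice := by
  have t1 : Tendsto (fun s : ℂ => s + w) (𝓝[≠] x) (𝓝[≠] (x + w)) := by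
    refine tendsto_nhdsWithin_iff.mpr ⟨?_, ?_⟩
    · exact ((continuous_id.add continuous_const).tendsto x).mono_left nhdsWithin_le_nhds
    · filter_upwards [self_mem_nhdsWithin] with z (hz : z ≠ x)
      simpa using hz
  exact t1.eventually (eventually_notMem_lattice L (x + w))

theorem countable_shift (w : ℂ) : {s : ℂ | s + w ∈ L.lattice}.Countable :=
  (countable_lattice L).preimage_of_injOn (f := fun s => s + w) (add_left_injective w).injOn

/-- The pair `(℘, ℘')` is injective modulo the lattice. -/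
theorem sub_mem_of_wp_eq_of_wp'_eq {z w : ℂ} (hz : z ∉ L.lattice) (hw : w ∉ L.lattice)
    (h0 : L.weierstrassP z = L.weierstrassP w)
    (h1 : L.derivWeierstrassP z = L.derivWeierstrassP w) : z - w ∈ L.lattice := by
  by_contra hne
  have hz' : z + (w - z) ∉ L.lattice := by simpa using hw
  obtain ⟨s1, s2, -⟩ := shift_facts L (w - z) hz'
  have loc : L.weierstrassP =ᶠ[𝓝 z] fun t => L.weierstrassP (t + (w - z)) := by
    refine ode_unique (c := L.g₂ / 2) (wp_analyticAt L hz) s1 (by simpa using h0) ?_ ?_ ?_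
    · rw [s2, L.deriv_weierstrassP]; simpa using h1
    · filter_upwards [eventually_notMem_lattice L z] with s hs
      rw [L.deriv_weierstrassP, deriv_wp' L hs]
    · filter_upwards [eventually_add_notMem L (w - z) z] with s hs
      exact (shift_facts L (w - z) hs).2.2
  set S : Set ℂ := (L.lattice : Set ℂ) ∪ {s : ℂ | s + (w - z) ∈ L.lattice} with hS
  have hc : S.Countable := (countable_lattice L).union (countable_shift L _)
  have mem : ∀ s, s ∈ Sᶜ ↔ s ∉ L.lattice ∧ s + (w - z) ∉ L.lattice := by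
    intro s; simp [hS]
  have glob : Set.EqOn L.weierstrassP (fun t => L.weierstrassP (t + (w - z))) Sᶜ :=
    AnalyticOnNhd.eqOn_of_preconnected_of_eventuallyEq
      (fun s hs => wp_analyticAt L ((mem s).mp hs).1)
      (fun s hs => (shift_facts L (w - z) ((mem s).mp hs).2).1)
      (preconnected_compl hc) ((mem z).mpr ⟨hz, hz'⟩) loc
  have h00 : (0 : ℂ) + (w - z) ∉ L.lattice := by
    intro h
    apply hne
    have := L.lattice.neg_mem h
    simpa using this
  refine not_eventuallyEq_wp L L.lattice.zero_mem (shift_facts L (w - z) h00).1.continuousAt ?_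
  filter_upwards [eventually_notMem_lattice L 0, eventually_add_notMem L (w - z) 0] with s a b
  exact (glob ((mem s).mpr ⟨a, b⟩)).symm

/-- Fibres of `℘`. -/
theorem wp_eq_iff {z w : ℂ} (hz : z ∉ L.lattice) (hw : w ∉ L.lattice) :
    L.weierstrassP z = L.weierstrassP w ↔ z - w ∈ L.lattice ∨ z + w ∈ L.lattice := by
  refine ⟨fun h => ?_, fun h => h.elim (wp_eq_of_sub_mem L) (wp_eq_of_add_mem L)⟩
  have e : L.derivWeierstrassP z ^ 2 = L.derivWeierstrassP w ^ 2 := by
    rw [L.derivWeierstrassP_sq z hz, L.derivWeierstrassP_sq w hw, h]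
  rcases sq_eq_sq_iff_eq_or_eq_neg.mp e with e | e
  · exact Or.inl (sub_mem_of_wp_eq_of_wp'_eq L hz hw h e)
  · right
    have hw' : -w ∉ L.lattice := fun h => hw (by simpa using L.lattice.neg_mem h)
    simpa using sub_mem_of_wp_eq_of_wp'_eq L hz hw' (by simpa using h) (by simpa using e)

/-- Zeros of `℘'`. -/
theorem wp'_eq_zero_iff {z : ℂ} (hz : z ∉ L.lattice) :
    L.derivWeierstrassP z = 0 ↔ 2 * z ∈ L.lattice := by
  constructor
  · intro h
    have hw' : -z ∉ L.lattice := fun h => hz (by simpa using L.lattice.neg_mem h)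
    have := sub_mem_of_wp_eq_of_wp'_eq L hz hw' (by simp) (by simp [h])
    rwa [sub_neg_eq_add, ← two_mul] at this
  · intro h
    have := wp'_eq_neg_of_add_mem L (z := z) (w := z) (by rwa [← two_mul])
    linear_combination this / 2

theorem half_sum_notMem : (L.ω₁ + L.ω₂) / 2 ∉ L.lattice := by
  have := (L.mul_ω₁_add_mul_ω₂_mem_lattice (α := 1 / 2) (β := 1 / 2)).not.mpr (by norm_num)
  intro h
  apply this
  push_cast
  rwa [show (1 / 2 : ℂ) * L.ω₁ + 1 / 2 * L.ω₂ = (L.ω₁ + L.ω₂) / 2 by ring]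

theorem half_diff_notMem : (L.ω₁ - L.ω₂) / 2 ∉ L.lattice := by
  intro h
  apply half_sum_notMem L
  have := L.lattice.add_mem h L.ω₂_mem_lattice
  rwa [show (L.ω₁ - L.ω₂) / 2 + L.ω₂ = (L.ω₁ + L.ω₂) / 2 by ring] at this

theorem e1_ne_e2 : L.weierstrassP (L.ω₁ / 2) ≠ L.weierstrassP (L.ω₂ / 2) := by
  intro h
  rcases (wp_eq_iff L L.ω₁_div_two_notMem_lattice L.ω₂_div_two_notMem_lattice).mp h with h | h
  · exact half_diff_notMem L (by rwa [sub_div])
  · exact half_sum_notMem L (by rwa [add_div])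

theorem e1_ne_e3 : L.weierstrassP (L.ω₁ / 2) ≠ L.weierstrassP ((L.ω₁ + L.ω₂) / 2) := by
  intro h
  rcases (wp_eq_iff L L.ω₁_div_two_notMem_lattice (half_sum_notMem L)).mp h with h | h
  · apply L.ω₂_div_two_notMem_lattice
    have := L.lattice.neg_mem h
    rwa [show -(L.ω₁ / 2 - (L.ω₁ + L.ω₂) / 2) = L.ω₂ / 2 by ring] at this
  · apply L.ω₂_div_two_notMem_lattice
    have := L.lattice.sub_mem h L.ω₁_mem_lattice
    rwa [show L.ω₁ / 2 + (L.ω₁ + L.ω₂) / 2 - L.ω₁ = L.ω₂ / 2 by ring] at this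

theorem e2_ne_e3 : L.weierstrassP (L.ω₂ / 2) ≠ L.weierstrassP ((L.ω₁ + L.ω₂) / 2) := by
  intro h
  rcases (wp_eq_iff L L.ω₂_div_two_notMem_lattice (half_sum_notMem L)).mp h with h | h
  · apply L.ω₁_div_two_notMem_lattice
    have := L.lattice.neg_mem h
    rwa [show -(L.ω₂ / 2 - (L.ω₁ + L.ω₂) / 2) = L.ω₁ / 2 by ring] at this
  · apply L.ω₁_div_two_notMem_lattice
    have := L.lattice.sub_mem h L.ω₂_mem_lattice
    rwa [show L.ω₂ / 2 + (L.ω₁ + L.ω₂) / 2 - L.ω₂ = L.ω₁ / 2 by ring] at this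

/-- A point of order two is one of the three half periods modulo the lattice. -/
theorem half_cases {z : ℂ} (hz : z ∉ L.lattice) (h2 : 2 * z ∈ L.lattice) :
    z - L.ω₁ / 2 ∈ L.lattice ∨ z - L.ω₂ / 2 ∈ L.lattice ∨
      z - (L.ω₁ + L.ω₂) / 2 ∈ L.lattice := by
  obtain ⟨m, n, e⟩ := mem_lattice.mp h2
  obtain ⟨a, rfl | rfl⟩ := Int.even_or_odd' m <;> obtain ⟨b, rfl | rfl⟩ := Int.even_or_odd' n <;>
    push_cast at e
  · exact absurd (mem_lattice.mpr ⟨a, b, by linear_combination e / 2⟩) hz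
  · exact Or.inr (Or.inl (mem_lattice.mpr ⟨a, b, by linear_combination e / 2⟩))
  · exact Or.inl (mem_lattice.mpr ⟨a, b, by linear_combination e / 2⟩)
  · exact Or.inr (Or.inr (mem_lattice.mpr ⟨a, b, by linear_combination e / 2⟩))

theorem cubic_half {z : ℂ} (hz : z ∉ L.lattice) (h2 : 2 * z ∈ L.lattice) :
    4 * L.weierstrassP z ^ 3 - L.g₂ * L.weierstrassP z - L.g₃ = 0 := by
  rw [← L.derivWeierstrassP_sq z hz, (wp'_eq_zero_iff L hz).mpr h2]; simp

/-- Sum and symmetric functions of the three half period values. -/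
theorem e_symm : L.weierstrassP (L.ω₁ / 2) + L.weierstrassP (L.ω₂ / 2) +
      L.weierstrassP ((L.ω₁ + L.ω₂) / 2) = 0 ∧
    ∀ x : ℂ, 4 * x ^ 3 - L.g₂ * x - L.g₃ = 4 * (x - L.weierstrassP (L.ω₁ / 2)) *
      (x - L.weierstrassP (L.ω₂ / 2)) * (x - L.weierstrassP ((L.ω₁ + L.ω₂) / 2)) := by
  have c1 := cubic_half L L.ω₁_div_two_notMem_lattice
    (by rw [mul_div_cancel₀ _ two_ne_zero]; exact L.ω₁_mem_lattice)
  have c2 := cubic_half L L.ω₂_div_two_notMem_lattice
    (by rw [mul_div_cancel₀ _ two_ne_zero]; exact L.ω₂_mem_lattice)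
  have c3 := cubic_half L (half_sum_notMem L)
    (by rw [mul_div_cancel₀ _ two_ne_zero]
        exact L.lattice.add_mem L.ω₁_mem_lattice L.ω₂_mem_lattice)
  have n12 := sub_ne_zero.mpr (e1_ne_e2 L)
  have n13 := sub_ne_zero.mpr (e1_ne_e3 L)
  have n23 := sub_ne_zero.mpr (e2_ne_e3 L)
  generalize L.weierstrassP (L.ω₁ / 2) = a at *
  generalize L.weierstrassP (L.ω₂ / 2) = b at *
  generalize L.weierstrassP ((L.ω₁ + L.ω₂) / 2) = c at *
  have d12 : 4 * (a ^ 2 + a * b + b ^ 2) - L.g₂ = 0 :=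
    mul_left_cancel₀ n12 (by linear_combination c1 - c2)
  have d13 : 4 * (a ^ 2 + a * c + c ^ 2) - L.g₂ = 0 :=
    mul_left_cancel₀ n13 (by linear_combination c1 - c3)
  have s : a + b + c = 0 := mul_left_cancel₀ n23 (by linear_combination (d12 - d13) / 4)
  refine ⟨s, fun x => ?_⟩
  have hc : c = -a - b := by linear_combination s
  subst hc
  linear_combination c1 + (x - a) * d12

theorem wp'_sq_eq_prod {z : ℂ} (hz : z ∉ L.lattice) :
    L.derivWeierstrassP z ^ 2 = 4 * (L.weierstrassP z - L.weierstrassP (L.ω₁ / 2)) *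
      (L.weierstrassP z - L.weierstrassP (L.ω₂ / 2)) *
      (L.weierstrassP z - L.weierstrassP ((L.ω₁ + L.ω₂) / 2)) := by
  rw [L.derivWeierstrassP_sq z hz, (e_symm L).2]

/-- `℘` takes every complex value. -/
theorem wp_surj (a : ℂ) : ∃ z, z ∉ L.lattice ∧ L.weierstrassP z = a := by
  classical
  by_contra h
  push Not at h
  set f : ℂ → ℂ := fun z => if z ∈ L.lattice then 0 else (L.weierstrassP z - a)⁻¹ with hf
  have per : ∀ z w, w ∈ L.lattice → f (z + w) = f z := by
    intro z w hw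
    have : z + w ∈ L.lattice ↔ z ∈ L.lattice := L.lattice.add_mem_iff_left hw
    simp only [hf, this, wp_add_mem L hw]
  have a0 : AnalyticAt ℂ f 0 := by
    have p := L.analyticAt_weierstrassPExcept 0
    have : AnalyticAt ℂ (fun z : ℂ => z ^ 2 / (z ^ 2 * (L.weierstrassPExcept 0 z - a) + 1)) 0 :=
      AnalyticAt.div (by fun_prop) (by fun_prop) (by simp)
    refine this.congr ?_
    filter_upwards [L.compl_lattice_sdiff_singleton_mem_nhds 0] with z hz
    by_cases hz0 : z = 0
    · simp [hf, hz0]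
    have hz' : z ∉ L.lattice := fun h => hz ⟨h, hz0⟩
    have e : z ^ 2 * (L.weierstrassPExcept 0 z - a) + 1 = z ^ 2 * (L.weierstrassP z - a) := by
      rw [wp_eq_except]; field_simp; ring
    have := sub_ne_zero.mpr (h z hz')
    simp only [hf, hz', if_false, e]
    field_simp
  have an : ∀ x, AnalyticAt ℂ f x := by
    intro x
    by_cases hx : x ∈ L.lattice
    · have e : f = fun z => f (z + -x) := by
        ext z; rw [per z _ (L.lattice.neg_mem hx)]
      rw [e]
      exact a0.comp_of_eq (f := fun z => z + -x) (by fun_prop) (by simp)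
    · have : AnalyticAt ℂ (fun z => (L.weierstrassP z - a)⁻¹) x :=
        ((wp_analyticAt L hx).sub analyticAt_const).inv (sub_ne_zero.mpr (h x hx))
      refine this.congr ?_
      filter_upwards [eventually_notMem_lattice' L hx] with z hz
      simp [hf, hz]
  have di : Differentiable ℂ f := fun x => (an x).differentiableAt
  have := di.apply_eq_apply_of_bounded (IsZLattice.isCompact_range_of_periodic L.lattice _
    di.continuous per).isBounded (L.ω₁ / 2) 0
  have hn := L.ω₁_div_two_notMem_lattice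
  simp only [hf, hn, if_false, L.lattice.zero_mem, if_true, inv_eq_zero] at this
  exact h _ hn (sub_eq_zero.mp this)

/-- Every affine point of the cubic is `(℘ z, ℘' z)`. -/
theorem wp_pair_surj {x y : ℂ} (h : y ^ 2 = 4 * x ^ 3 - L.g₂ * x - L.g₃) :
    ∃ z, z ∉ L.lattice ∧ L.weierstrassP z = x ∧ L.derivWeierstrassP z = y := by
  obtain ⟨z, hz, e⟩ := wp_surj L x
  have e2 : L.derivWeierstrassP z ^ 2 = y ^ 2 := by rw [L.derivWeierstrassP_sq z hz, e, h]
  rcases sq_eq_sq_iff_eq_or_eq_neg.mp e2 with e3 | e3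
  · exact ⟨z, hz, e, e3⟩
  · exact ⟨-z, fun h => hz (by simpa using L.lattice.neg_mem h), by simpa using e, by simp [e3]⟩

/-- Homogeneity: a bijection of lattices induced by a scalar. -/
noncomputable def latticeScale {L L' : PeriodPair} {c : ℂ} (hc : c ≠ 0)
    (h : ∀ x, c * x ∈ L'.lattice ↔ x ∈ L.lattice) : L.lattice ≃ L'.lattice where
  toFun l := ⟨c * l, (h l).mpr l.2⟩
  invFun l := ⟨c⁻¹ * l, (h _).mp (by rw [mul_inv_cancel_left₀ hc]; exact l.2)⟩
  left_inv l := Subtype.ext (inv_mul_cancel_left₀ hc _)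
  right_inv l := Subtype.ext (mul_inv_cancel_left₀ hc _)

theorem wp_scale {L L' : PeriodPair} {c : ℂ} (hc : c ≠ 0)
    (h : ∀ x, c * x ∈ L'.lattice ↔ x ∈ L.lattice) (z : ℂ) :
    L'.weierstrassP (c * z) = (c ^ 2)⁻¹ * L.weierstrassP z := by
  rw [weierstrassP, weierstrassP, ← (latticeScale hc h).tsum_eq, ← tsum_mul_left]
  refine tsum_congr fun l => ?_
  show 1 / (c * z - c * l) ^ 2 - 1 / (c * l) ^ 2 = _
  rw [← mul_sub, mul_pow, mul_pow, one_div, one_div, one_div, one_div, mul_inv, mul_inv, mul_sub]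

theorem wp'_scale {L L' : PeriodPair} {c : ℂ} (hc : c ≠ 0)
    (h : ∀ x, c * x ∈ L'.lattice ↔ x ∈ L.lattice) (z : ℂ) :
    L'.derivWeierstrassP (c * z) = (c ^ 3)⁻¹ * L.derivWeierstrassP z := by
  rw [derivWeierstrassP, derivWeierstrassP, ← (latticeScale hc h).tsum_eq, mul_neg,
    ← tsum_mul_left]
  congr 1
  refine tsum_congr fun l => ?_
  show 2 / (c * z - c * l) ^ 3 = _
  rw [← mul_sub, mul_pow, div_eq_mul_inv, div_eq_mul_inv, mul_inv]
  ring

end MPb1b13a.Disc
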